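import Pool.Agent.R98.FL.Stm

/-! Piece A2b: the frontier of the region between two piecewise linear functions. -/

namespace Pool.Agent.R98.FL

open Set Filter

noncomputable section

namespace A2b

/-- the clipping function -/
def cl (t : ℝ) : ℝ := max 0 (min 1 t)

theorem cl_cont : Continuous cl := by
  unfold cl
  fun_prop

theorem cl_one {t : ℝ} (h : 1 ≤ t) : cl t = 1 := by
  unfold cl
  rw [min_eq_left h, max_eq_right zero_le_one]

theorem cl_zero {t : ℝ} (h : t ≤ 0) : cl t = 0 := by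
  unfold cl
  rw [min_eq_right (by linarith), max_eq_left h]

theorem cl_mid {t : ℝ} (h : 0 ≤ t) (h1 : t ≤ 1) : cl t = t := by
  unfold cl
  rw [min_eq_right h1, max_eq_right h]

/-- the piecewise linear function -/
def f (F : ℕ → ℝ) (M : ℕ) (x : ℝ) : ℝ := F 0 + ∑ j ∈ Finset.range M, (F (j + 1) - F j) * cl (x - j)

theorem f_cont (F : ℕ → ℝ) (M : ℕ) : Continuous (f F M) := by
  unfold f
  refine continuous_const.add (continuous_finsetSum _ fun j _ => ?_)
  exact continuous_const.mul (cl_cont.comp (by fun_prop))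

theorem f_succ (F : ℕ → ℝ) (M : ℕ) (x : ℝ) :
    f F (M + 1) x = f F M x + (F (M + 1) - F M) * cl (x - M) := by
  unfold f
  rw [Finset.sum_range_succ]
  ring

theorem f_ge (F : ℕ → ℝ) (M : ℕ) {x : ℝ} (h : (M : ℝ) ≤ x) : f F M x = F M := by
  induction M with
  | zero => simp [f]
  | succ M ih =>
    have h' : (M : ℝ) + 1 ≤ x := by exact_mod_cast h
    rw [f_succ, ih (by linarith), cl_one (by linarith)]
    ring

theorem f_eq (F : ℕ → ℝ) (M k : ℕ) (hk : k < M) {x : ℝ} (h1 : (k : ℝ) ≤ x) (h2 : x ≤ k + 1) :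
    f F M x = F k + (x - k) * (F (k + 1) - F k) := by
  induction M with
  | zero => omega
  | succ M ih =>
    rw [f_succ]
    rcases Nat.lt_succ_iff_lt_or_eq.1 hk with h | h
    · rw [ih h, cl_zero]
      · ring
      · have : (k : ℝ) + 1 ≤ M := by exact_mod_cast h
        linarith
    · subst h
      rw [f_ge F k h1, cl_mid (by linarith) (by linarith)]
      ring

theorem exists_k {M : ℕ} (hM : 1 ≤ M) {x : ℝ} (h0 : 0 ≤ x) (h1 : x ≤ M) :
    ∃ k, k < M ∧ (k : ℝ) ≤ x ∧ x ≤ k + 1 := by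
  rcases eq_or_lt_of_le h1 with h | h
  · refine ⟨M - 1, by omega, ?_, ?_⟩
    · rw [h]
      exact_mod_cast Nat.sub_le M 1
    · rw [h]
      have : (M : ℝ) = ((M - 1 : ℕ) : ℝ) + 1 := by
        exact_mod_cast (by omega : M = (M - 1) + 1)
      linarith
  · refine ⟨⌊x⌋₊, ?_, Nat.floor_le h0, (Nat.lt_floor_add_one x).le⟩
    exact (Nat.floor_lt h0).2 h

theorem reg_eq (F H : ℕ → ℝ) {M : ℕ} (hM : 1 ≤ M) :
    reg F H 0 M = {q : ℝ × ℝ | 0 ≤ q.1 ∧ q.1 ≤ (M : ℝ) ∧ f H M q.1 ≤ q.2 ∧ q.2 ≤ f F M q.1} := by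
  ext q
  constructor
  · rintro ⟨k, -, hk, h1, h2, h3, h4⟩
    refine ⟨?_, ?_, ?_, ?_⟩
    · have : (0 : ℝ) ≤ k := Nat.cast_nonneg k
      linarith
    · have : (k : ℝ) + 1 ≤ M := by exact_mod_cast hk
      linarith
    · rw [f_eq H M k hk h1 h2]; exact h3
    · rw [f_eq F M k hk h1 h2]; exact h4
  · rintro ⟨h1, h2, h3, h4⟩
    obtain ⟨k, hk, h5, h6⟩ := exists_k hM h1 h2
    refine ⟨k, Nat.zero_le _, hk, h5, h6, ?_, ?_⟩
    · rw [← f_eq H M k hk h5 h6]; exact h3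
    · rw [← f_eq F M k hk h5 h6]; exact h4

theorem front_eq (f h : ℝ → ℝ) (hf : Continuous f) (hh : Continuous h) (M : ℝ) :
    frontier {q : ℝ × ℝ | 0 ≤ q.1 ∧ q.1 ≤ M ∧ h q.1 ≤ q.2 ∧ q.2 ≤ f q.1} =
      {q : ℝ × ℝ | (0 ≤ q.1 ∧ q.1 ≤ M ∧ h q.1 ≤ q.2 ∧ q.2 ≤ f q.1) ∧
        (q.1 = 0 ∨ q.1 = M ∨ q.2 = h q.1 ∨ q.2 = f q.1)} := by
  have hcl : IsClosed {q : ℝ × ℝ | 0 ≤ q.1 ∧ q.1 ≤ M ∧ h q.1 ≤ q.2 ∧ q.2 ≤ f q.1} := by
    refine (isClosed_le continuous_const continuous_fst).inter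
      ((isClosed_le continuous_fst continuous_const).inter
        ((isClosed_le (hh.comp continuous_fst) continuous_snd).inter
          (isClosed_le continuous_snd (hf.comp continuous_fst))))
  have hop : IsOpen {q : ℝ × ℝ | 0 < q.1 ∧ q.1 < M ∧ h q.1 < q.2 ∧ q.2 < f q.1} := by
    refine (isOpen_lt continuous_const continuous_fst).inter
      ((isOpen_lt continuous_fst continuous_const).inter
        ((isOpen_lt (hh.comp continuous_fst) continuous_snd).inter
          (isOpen_lt continuous_snd (hf.comp continuous_fst))))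
  have hsub : {q : ℝ × ℝ | 0 < q.1 ∧ q.1 < M ∧ h q.1 < q.2 ∧ q.2 < f q.1} ⊆
      interior {q : ℝ × ℝ | 0 ≤ q.1 ∧ q.1 ≤ M ∧ h q.1 ≤ q.2 ∧ q.2 ≤ f q.1} := by
    refine interior_maximal ?_ hop
    rintro q ⟨h1, h2, h3, h4⟩
    exact ⟨h1.le, h2.le, h3.le, h4.le⟩
  rw [hcl.frontier_eq]
  ext q
  constructor
  · rintro ⟨hq, hn⟩
    refine ⟨hq, ?_⟩
    by_contra hcon
    push Not at hcon
    obtain ⟨c1, c2, c3, c4⟩ := hcon
    obtain ⟨h1, h2, h3, h4⟩ := hq
    exact hn (hsub ⟨lt_of_le_of_ne h1 (Ne.symm c1), lt_of_le_of_ne h2 c2,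
      lt_of_le_of_ne h3 (Ne.symm c3), lt_of_le_of_ne h4 c4⟩)
  · rintro ⟨hq, hor⟩
    refine ⟨hq, ?_⟩
    intro hint
    have hnh := mem_interior_iff_mem_nhds.1 hint
    obtain ⟨ε, hε, hball⟩ := Metric.mem_nhds_iff.1 hnh
    have key : ∀ a b : ℝ, |a| < ε → |b| < ε → (q.1 + a, q.2 + b) ∈
        {q : ℝ × ℝ | 0 ≤ q.1 ∧ q.1 ≤ M ∧ h q.1 ≤ q.2 ∧ q.2 ≤ f q.1} := by
      intro a b ha hb
      apply hball
      rw [Metric.mem_ball, Prod.dist_eq]
      refine max_lt ?_ ?_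
      · simp only [Real.dist_eq, add_sub_cancel_left]; exact ha
      · simp only [Real.dist_eq, add_sub_cancel_left]; exact hb
    have e2 : |ε / 2| < ε := by rw [abs_of_pos (by linarith)]; linarith
    have e2' : |-(ε / 2)| < ε := by rw [abs_neg]; exact e2
    have e0 : |(0 : ℝ)| < ε := by simpa using hε
    rcases hor with h0 | h0 | h0 | h0
    · have := (key (-(ε / 2)) 0 e2' e0).1
      simp only at this
      linarith
    · have := (key (ε / 2) 0 e2 e0).2.1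
      simp only at this
      linarith
    · have := (key 0 (-(ε / 2)) e0 e2').2.2.1
      simp only [add_zero] at this
      linarith
    · have := (key 0 (ε / 2) e0 e2).2.2.2
      simp only [add_zero] at this
      linarith

theorem seg_chain (F : ℕ → ℝ) (k : ℕ) (q : Pt) :
    q ∈ segment ℝ (pt F k) (pt F (k + 1)) ↔
      (k : ℝ) ≤ q.1 ∧ q.1 ≤ k + 1 ∧ q.2 = F k + (q.1 - k) * (F (k + 1) - F k) := by
  constructor
  · rintro ⟨a, b, ha, hb, hab, rfl⟩
    have ha' : a = 1 - b := by linarith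
    subst ha'
    simp only [pt, Prod.smul_mk, smul_eq_mul, Prod.mk_add_mk, Nat.cast_add, Nat.cast_one]
    refine ⟨by nlinarith, by nlinarith, by ring⟩
  · rintro ⟨h1, h2, h3⟩
    refine ⟨1 - (q.1 - k), q.1 - k, by linarith, by linarith, by ring, ?_⟩
    ext
    · simp only [pt, Prod.smul_mk, smul_eq_mul, Prod.mk_add_mk, Nat.cast_add, Nat.cast_one]
      ring
    · simp only [pt, Prod.smul_mk, smul_eq_mul, Prod.mk_add_mk, Nat.cast_add, Nat.cast_one]
      rw [h3]; ring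

theorem seg_vert (F H : ℕ → ℝ) (k : ℕ) (hk : H k < F k) (q : Pt) :
    q ∈ segment ℝ (pt F k) (pt H k) ↔ q.1 = k ∧ H k ≤ q.2 ∧ q.2 ≤ F k := by
  constructor
  · rintro ⟨a, b, ha, hb, hab, rfl⟩
    have ha' : a = 1 - b := by linarith
    subst ha'
    simp only [pt, Prod.smul_mk, smul_eq_mul, Prod.mk_add_mk]
    refine ⟨by ring, by nlinarith, by nlinarith⟩
  · rintro ⟨h1, h2, h3⟩
    have hd : 0 < F k - H k := by linarith
    refine ⟨(q.2 - H k) / (F k - H k), (F k - q.2) / (F k - H k), div_nonneg (by linarith) hd.le,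
      div_nonneg (by linarith) hd.le, ?_, ?_⟩
    · rw [← add_div]
      rw [show q.2 - H k + (F k - q.2) = F k - H k by ring]
      exact div_self hd.ne'
    · ext
      · simp only [pt, Prod.smul_mk, smul_eq_mul, Prod.mk_add_mk]
        rw [h1]
        field_simp
        ring
      · simp only [pt, Prod.smul_mk, smul_eq_mul, Prod.mk_add_mk]
        field_simp
        ring

theorem edge_lt (F H : ℕ → ℝ) (M : ℕ) (i : Fin (2 * M + 2)) (hi : i.1 < M) :
    edge (vtx F H M) i = segment ℝ (pt F i.1) (pt F (i.1 + 1)) := by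
  have h1 : (nxt i).1 = i.1 + 1 := Nat.mod_eq_of_lt (by omega)
  unfold edge vtx
  simp only [h1]
  rw [if_pos hi.le, if_pos (by omega)]

theorem edge_M (F H : ℕ → ℝ) (M : ℕ) (i : Fin (2 * M + 2)) (hi : i.1 = M) :
    edge (vtx F H M) i = segment ℝ (pt F M) (pt H M) := by
  have h1 : (nxt i).1 = i.1 + 1 := Nat.mod_eq_of_lt (by omega)
  unfold edge vtx
  simp only [h1, hi]
  rw [if_pos le_rfl, if_neg (by omega), show 2 * M + 1 - (M + 1) = M by omega]

theorem edge_gt (F H : ℕ → ℝ) (M : ℕ) (i : Fin (2 * M + 2)) (hi : M < i.1) (hi2 : i.1 ≤ 2 * M) :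
    edge (vtx F H M) i = segment ℝ (pt H (2 * M - i.1)) (pt H (2 * M - i.1 + 1)) := by
  have h1 : (nxt i).1 = i.1 + 1 := Nat.mod_eq_of_lt (by omega)
  unfold edge vtx
  simp only [h1]
  rw [if_neg (by omega), if_neg (by omega), segment_symm,
    show 2 * M + 1 - (i.1 + 1) = 2 * M - i.1 by omega,
    show 2 * M + 1 - i.1 = 2 * M - i.1 + 1 by omega]

theorem edge_last (F H : ℕ → ℝ) (M : ℕ) (i : Fin (2 * M + 2)) (hi : i.1 = 2 * M + 1) :
    edge (vtx F H M) i = segment ℝ (pt F 0) (pt H 0) := by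
  have h1 : (nxt i).1 = 0 := by
    show (i.1 + 1) % (2 * M + 2) = 0
    rw [hi]
    exact Nat.mod_self _
  unfold edge vtx
  simp only [h1, hi]
  rw [if_neg (by omega), if_pos (Nat.zero_le _), segment_symm, Nat.sub_self]

end A2b

open A2b in
theorem front : FrontStmt := by
  intro F H M hM hFH
  rw [reg_eq F H hM, front_eq (f F M) (f H M) (f_cont F M) (f_cont H M) M]
  have hle : ∀ k, k < M → ∀ x : ℝ, (k : ℝ) ≤ x → x ≤ k + 1 →
      H k + (x - k) * (H (k + 1) - H k) ≤ F k + (x - k) * (F (k + 1) - F k) := by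
    intro k hk x h1 h2
    have a1 := hFH k hk.le
    have a2 := hFH (k + 1) hk
    have b1 : 0 ≤ (x - k) * (F (k + 1) - H (k + 1)) := mul_nonneg (by linarith) (by linarith)
    have b2 : 0 ≤ (1 - (x - k)) * (F k - H k) := mul_nonneg (by linarith) (by linarith)
    nlinarith
  have hF0 : f F M 0 = F 0 := by
    rw [f_eq F M 0 hM (x := 0) (by simp) (by simp)]; simp
  have hH0 : f H M 0 = H 0 := by
    rw [f_eq H M 0 hM (x := 0) (by simp) (by simp)]; simp
  have hFM : f F M M = F M := f_ge F M le_rfl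
  have hHM : f H M M = H M := f_ge H M le_rfl
  ext q
  rw [mem_iUnion]
  constructor
  · rintro ⟨⟨h1, h2, h3, h4⟩, hor⟩
    rcases hor with h | h | h | h
    · refine ⟨⟨2 * M + 1, by omega⟩, ?_⟩
      rw [edge_last F H M _ rfl, seg_vert F H 0 (hFH 0 (Nat.zero_le _))]
      rw [h, hH0] at h3
      rw [h, hF0] at h4
      exact ⟨by simpa using h, h3, h4⟩
    · refine ⟨⟨M, by omega⟩, ?_⟩
      rw [edge_M F H M _ rfl, seg_vert F H M (hFH M le_rfl)]
      rw [h, hHM] at h3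
      rw [h, hFM] at h4
      exact ⟨h, h3, h4⟩
    · obtain ⟨k, hk, h5, h6⟩ := exists_k hM h1 h2
      refine ⟨⟨2 * M - k, by omega⟩, ?_⟩
      rw [edge_gt F H M _ (by show M < 2 * M - k; omega) (by show 2 * M - k ≤ 2 * M; omega)]
      show q ∈ segment ℝ (pt H (2 * M - (2 * M - k))) (pt H (2 * M - (2 * M - k) + 1))
      rw [show 2 * M - (2 * M - k) = k by omega, seg_chain]
      refine ⟨h5, h6, ?_⟩
      rw [h, f_eq H M k hk h5 h6]
    · obtain ⟨k, hk, h5, h6⟩ := exists_k hM h1 h2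
      refine ⟨⟨k, by omega⟩, ?_⟩
      rw [edge_lt F H M _ hk]
      rw [seg_chain]
      refine ⟨h5, h6, ?_⟩
      rw [h, f_eq F M k hk h5 h6]
  · rintro ⟨i, hi⟩
    have hMpos : (0 : ℝ) ≤ M := Nat.cast_nonneg M
    rcases lt_trichotomy i.1 M with h | h | h
    · rw [edge_lt F H M i h, seg_chain] at hi
      obtain ⟨g1, g2, g3⟩ := hi
      have hk0 : (0 : ℝ) ≤ (i.1 : ℝ) := Nat.cast_nonneg _
      have hk1 : ((i.1 : ℕ) : ℝ) + 1 ≤ M := by exact_mod_cast h
      have hlq := hle i.1 h q.1 g1 g2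
      refine ⟨⟨by linarith, by linarith, ?_, ?_⟩, Or.inr (Or.inr (Or.inr ?_))⟩
      · rw [f_eq H M i.1 h g1 g2, g3]; exact hlq
      · rw [f_eq F M i.1 h g1 g2, g3]
      · rw [f_eq F M i.1 h g1 g2, g3]
    · rw [edge_M F H M i h, seg_vert F H M (hFH M le_rfl)] at hi
      obtain ⟨g1, g2, g3⟩ := hi
      refine ⟨⟨by rw [g1]; exact hMpos, by rw [g1], ?_, ?_⟩, Or.inr (Or.inl g1)⟩
      · rw [g1, hHM]; exact g2
      · rw [g1, hFM]; exact g3
    · rcases Nat.lt_or_ge (2 * M) i.1 with h' | h'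
      · have hiv : i.1 = 2 * M + 1 := by omega
        rw [edge_last F H M i hiv, seg_vert F H 0 (hFH 0 (Nat.zero_le _))] at hi
        obtain ⟨g1, g2, g3⟩ := hi
        have g1' : q.1 = 0 := by simpa using g1
        refine ⟨⟨by rw [g1'], by rw [g1']; exact hMpos, ?_, ?_⟩, Or.inl g1'⟩
        · rw [g1', hH0]; exact g2
        · rw [g1', hF0]; exact g3
      · rw [edge_gt F H M i h h', seg_chain] at hi
        obtain ⟨g1, g2, g3⟩ := hi
        have hkM : 2 * M - i.1 < M := by omega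
        generalize 2 * M - i.1 = k at *
        have hk0 : (0 : ℝ) ≤ (k : ℝ) := Nat.cast_nonneg _
        have hk1 : ((k : ℕ) : ℝ) + 1 ≤ M := by exact_mod_cast hkM
        have hlq := hle k hkM q.1 g1 g2
        refine ⟨⟨by linarith, by linarith, ?_, ?_⟩, Or.inr (Or.inr (Or.inl ?_))⟩
        · rw [f_eq H M k hkM g1 g2, g3]
        · rw [f_eq F M k hkM g1 g2, g3]; exact hlq
        · rw [f_eq H M k hkM g1 g2, g3]

end

end Pool.Agent.R98.FL
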