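import Pool.Agent.R98.FL.Stm

/-! C5: the apex over an upper edge in an untouched block -/

namespace Pool.Agent.R98.FL

open Set Filter

theorem apex (hN : NoCrossStmt) (hK : ChordStmt) : ApexStmt := by
  classical
  intro s G g i S X T w hs hg hi1 hi2 hS hX hT ht
  set t : Finset Pt := {pt (FF s) i, pt (FF s) (i + 1), w} with htdef
  have hmem1 : pt (FF s) i ∈ t := by rw [htdef]; simp
  have hmem2 : pt (FF s) (i + 1) ∈ t := by rw [htdef]; simp
  have hmem3 : w ∈ t := by rw [htdef]; simp
  have hsub : hull t ⊆ PP s G := by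
    rw [← hT.union]
    exact Set.subset_biUnion_of_mem (u := fun t => hull t) ht
  have hseg : ∀ x ∈ t, ∀ y ∈ t, segment ℝ x y ⊆ PP s G := by
    intro x hx y hy
    refine Set.Subset.trans ?_ hsub
    exact (convex_convexHull ℝ (t : Set Pt)).segment_subset
      (subset_convexHull ℝ _ hx) (subset_convexHull ℝ _ hy)
  have hwP : w ∈ PP s G := hsub (subset_convexHull ℝ _ hmem3)
  obtain ⟨k, -, hkG, hk1, hk2, -, -⟩ := hwP
  have hcard := hT.card t ht
  have hw1 : w ≠ pt (FF s) i := by
    intro h
    rw [htdef, h] at hcard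
    have : ({pt (FF s) i, pt (FF s) (i + 1), pt (FF s) i} : Finset Pt) ⊆
        {pt (FF s) i, pt (FF s) (i + 1)} := by
      intro x hx; simp at hx ⊢; tauto
    have h2 := (Finset.card_le_card this).trans Finset.card_le_two
    omega
  have hw2 : w ≠ pt (FF s) (i + 1) := by
    intro h
    rw [htdef, h] at hcard
    have : ({pt (FF s) i, pt (FF s) (i + 1), pt (FF s) (i + 1)} : Finset Pt) ⊆
        {pt (FF s) i, pt (FF s) (i + 1)} := by
      intro x hx; simp at hx ⊢; tauto
    have h2 := (Finset.card_le_card this).trans Finset.card_le_two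
    omega
  have hk0 : (0 : ℝ) ≤ k := Nat.cast_nonneg k
  have hkG' : (k : ℝ) + 1 ≤ (G : ℝ) * s := by exact_mod_cast hkG
  have hi1' : (g : ℝ) * s ≤ i := by exact_mod_cast hi1
  have hi2' : (i : ℝ) + 1 ≤ ((g : ℝ) + 1) * s := by exact_mod_cast hi2
  have p1 : (pt (FF s) i).1 = (i : ℝ) := rfl
  have p2 : (pt (FF s) (i + 1)).1 = (i : ℝ) + 1 := by simp [pt]
  by_cases hA : w.1 ≤ (g : ℝ) * s - 1
  · exfalso
    have hg1 : 1 ≤ g := by
      rcases Nat.eq_zero_or_pos g with h | h
      · subst h
        simp only [Nat.cast_zero, zero_mul] at hA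
        linarith
      · exact h
    exact hN s G g hs hg1 hg w (pt (FF s) (i + 1)) hA (by rw [p2]; linarith)
      (hseg w hmem3 _ hmem2)
  by_cases hB : ((g : ℝ) + 1) * s + 1 ≤ w.1
  · exfalso
    have hg1 : g + 1 < G := by
      by_contra hcon
      have h1 : G = g + 1 := by omega
      rw [h1] at hkG'
      push_cast at hkG'
      linarith
    exact hN s G (g + 1) hs (by omega) hg1 (pt (FF s) i) w
      (by rw [p1]; push_cast; linarith) (by push_cast; linarith) (hseg _ hmem1 w hmem3)
  push Not at hA hB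
  have hwS : w ∈ (vset (FF s) (HH s) 0 (G * s) : Set Pt) ∪ X := hS (hT.verts t ht hmem3)
  rcases hwS with hw | hw
  · have hw' : w ∈ vset (FF s) (HH s) 0 (G * s) := hw
    unfold vset at hw'
    rw [Finset.mem_union, Finset.mem_image, Finset.mem_image] at hw'
    have hrange : ∀ j : ℕ, w.1 = (j : ℝ) → g * s ≤ j ∧ j ≤ (g + 1) * s := by
      intro j hj
      rw [hj] at hA hB
      constructor
      · have h1 : ((g * s : ℕ) : ℝ) < ((j + 1 : ℕ) : ℝ) := by push_cast; linarith
        have h2 : g * s < j + 1 := by exact_mod_cast h1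
        omega
      · have h1 : (j : ℝ) < (((g + 1) * s + 1 : ℕ) : ℝ) := by push_cast; linarith
        have h2 : j < (g + 1) * s + 1 := by exact_mod_cast h1
        omega
    rcases hw' with ⟨j, -, hj⟩ | ⟨j, -, hj⟩
    · exfalso
      obtain ⟨r1, r2⟩ := hrange j (by rw [← hj]; rfl)
      have n1 : j ≠ i := by rintro rfl; exact hw1 hj.symm
      have n2 : j ≠ i + 1 := by rintro rfl; exact hw2 hj.symm
      rcases Nat.lt_or_ge j i with h | h
      · have h1 := (hK s G g j (i + 1) hs hg r1 (by omega) (by omega)).1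
        apply h1
        rw [hj]
        exact hseg w hmem3 _ hmem2
      · have h1 := (hK s G g i j hs hg hi1 (by omega) r2).1
        apply h1
        rw [hj]
        exact hseg _ hmem1 w hmem3
    · obtain ⟨r1, r2⟩ := hrange j (by rw [← hj]; rfl)
      exact ⟨j, r1, r2, hj.symm⟩
  · exfalso
    rcases hX w hw with h | h
    · linarith
    · linarith

end Pool.Agent.R98.FL
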