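import Pool.Agent.R98.FL.Stm

/-!
MP_fe41f2_co, piece B2: the fan covers the block.
-/

namespace Pool.Agent.R98.FL

open Set Filter

namespace B2

theorem hull_mem (A B P q : Pt) (D a b c : ℝ) (hD : 0 < D) (ha : 0 ≤ a) (hb : 0 ≤ b) (hc : 0 ≤ c)
    (hs : a + b + c = D) (h1 : D * q.1 = a * A.1 + b * B.1 + c * P.1)
    (h2 : D * q.2 = a * A.2 + b * B.2 + c * P.2) : q ∈ hull {A, B, P} := by
  have hmem : ∀ x ∈ ({A, B, P} : Finset Pt), x ∈ hull {A, B, P} := by
    intro x hx
    exact subset_convexHull ℝ _ (Finset.mem_coe.2 hx)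
  have hA := hmem A (by simp)
  have hB := hmem B (by simp)
  have hP := hmem P (by simp)
  have hconv : Convex ℝ (hull {A, B, P}) := convex_convexHull ℝ _
  have key := hconv.sum_mem (t := (Finset.univ : Finset (Fin 3))) (w := ![a / D, b / D, c / D])
    (z := ![A, B, P]) ?_ ?_ ?_
  · have e : q = ∑ i : Fin 3, (![a / D, b / D, c / D] i) • (![A, B, P] i) := by
      rw [Fin.sum_univ_three]
      simp only [Matrix.cons_val_zero, Matrix.cons_val_one, Matrix.cons_val_two, Matrix.head_cons,
        Matrix.tail_cons, Matrix.cons_val]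
      apply Prod.ext
      · simp only [Prod.fst_add, Prod.smul_fst, smul_eq_mul]
        field_simp
        linarith
      · simp only [Prod.snd_add, Prod.smul_snd, smul_eq_mul]
        field_simp
        linarith
    rw [e]
    exact key
  · intro i _
    fin_cases i
    · exact div_nonneg ha hD.le
    · exact div_nonneg hb hD.le
    · exact div_nonneg hc hD.le
  · rw [Fin.sum_univ_three]
    simp only [Matrix.cons_val_zero, Matrix.cons_val_one, Matrix.cons_val_two, Matrix.head_cons,
      Matrix.tail_cons, Matrix.cons_val]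
    field_simp
    linarith
  · intro i _
    fin_cases i
    · exact hA
    · exact hB
    · exact hP

theorem R_nonneg {F H : ℕ → ℝ} {k i j : ℕ} {q : Pt} (hq : q ∈ trap F H k)
    (h1 : 0 ≤ R F H i j (pt F k)) (h2 : 0 ≤ R F H i j (pt F (k + 1)))
    (h3 : 0 ≤ R F H i j (pt H k)) (h4 : 0 ≤ R F H i j (pt H (k + 1))) : 0 ≤ R F H i j q := by
  obtain ⟨q1, q2, q3, q4⟩ := hq
  have hl0 : 0 ≤ q.1 - k := by linarith
  have hl1 : 0 ≤ 1 - (q.1 - k) := by linarith
  rcases le_total (j : ℝ) (i : ℝ) with hij | hij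
  · have e : R F H i j q = (1 - (q.1 - k)) * R F H i j (pt F k) +
        (q.1 - k) * R F H i j (pt F (k + 1)) +
        ((i : ℝ) - j) * (F k + (q.1 - k) * (F (k + 1) - F k) - q.2) := by
      simp only [R, pt]
      push_cast
      ring
    rw [e]
    have := mul_nonneg hl1 h1
    have := mul_nonneg hl0 h2
    have := mul_nonneg (sub_nonneg.2 hij) (sub_nonneg.2 q4)
    linarith
  · have e : R F H i j q = (1 - (q.1 - k)) * R F H i j (pt H k) +
        (q.1 - k) * R F H i j (pt H (k + 1)) +
        ((j : ℝ) - i) * (q.2 - (H k + (q.1 - k) * (H (k + 1) - H k))) := by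
      simp only [R, pt]
      push_cast
      ring
    rw [e]
    have := mul_nonneg hl1 h3
    have := mul_nonneg hl0 h4
    have := mul_nonneg (sub_nonneg.2 hij) (sub_nonneg.2 q3)
    linarith

theorem R_nonpos {F H : ℕ → ℝ} {k i j : ℕ} {q : Pt} (hq : q ∈ trap F H k)
    (h1 : R F H i j (pt F k) ≤ 0) (h2 : R F H i j (pt F (k + 1)) ≤ 0)
    (h3 : R F H i j (pt H k) ≤ 0) (h4 : R F H i j (pt H (k + 1)) ≤ 0) : R F H i j q ≤ 0 := by
  obtain ⟨q1, q2, q3, q4⟩ := hq
  have hl0 : 0 ≤ q.1 - k := by linarith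
  have hl1 : 0 ≤ 1 - (q.1 - k) := by linarith
  rcases le_total (j : ℝ) (i : ℝ) with hij | hij
  · have e : R F H i j q = (1 - (q.1 - k)) * R F H i j (pt H k) +
        (q.1 - k) * R F H i j (pt H (k + 1)) -
        ((i : ℝ) - j) * (q.2 - (H k + (q.1 - k) * (H (k + 1) - H k))) := by
      simp only [R, pt]
      push_cast
      ring
    rw [e]
    have := mul_nonneg hl1 (neg_nonneg.2 h3)
    have := mul_nonneg hl0 (neg_nonneg.2 h4)
    have := mul_nonneg (sub_nonneg.2 hij) (sub_nonneg.2 q3)
    linarith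
  · have e : R F H i j q = (1 - (q.1 - k)) * R F H i j (pt F k) +
        (q.1 - k) * R F H i j (pt F (k + 1)) -
        ((j : ℝ) - i) * (F k + (q.1 - k) * (F (k + 1) - F k) - q.2) := by
      simp only [R, pt]
      push_cast
      ring
    rw [e]
    have := mul_nonneg hl1 (neg_nonneg.2 h1)
    have := mul_nonneg hl0 (neg_nonneg.2 h2)
    have := mul_nonneg (sub_nonneg.2 hij) (sub_nonneg.2 q4)
    linarith

theorem R_self_F (F H : ℕ → ℝ) (i j : ℕ) : R F H i j (pt F i) = 0 := by
  simp only [R, pt]; ring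

theorem R_self_H (F H : ℕ → ℝ) (i j : ℕ) : R F H i j (pt H j) = 0 := by
  simp only [R, pt]; ring

theorem cover_up {F H : ℕ → ℝ} {b e k : ℕ} {q : Pt} (hpos : ∀ i, b ≤ i → i ≤ e → H i < F i)
    (hS : Side F H b e) (hbk : b ≤ k) (hke : k < e) (hq : q ∈ trap F H k)
    (hc : R F H e b q < 0) : ∃ i, b ≤ i ∧ i < e ∧ q ∈ hull {pt F i, pt F (i + 1), pt H b} := by
  classical
  have hqk := hq
  obtain ⟨q1, q2, q3, q4⟩ := hq
  have hbk' : (b : ℝ) ≤ k := by exact_mod_cast hbk
  have hbb : 0 ≤ R F H b b q := by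
    have e1 : R F H b b q = (q.1 - b) * (F b - H b) := by simp only [R]; ring
    rw [e1]
    exact mul_nonneg (by linarith) (by linarith [hpos b le_rfl (by omega)])
  have hex : ∃ n, b ≤ n ∧ R F H n b q < 0 := ⟨e, by omega, hc⟩
  obtain ⟨hn1, hn2⟩ := Nat.find_spec hex
  have hn3 : Nat.find hex ≤ e := Nat.find_min' hex ⟨by omega, hc⟩
  have hmin : ∀ n, n < Nat.find hex → ¬ (b ≤ n ∧ R F H n b q < 0) := fun n hn =>
    Nat.find_min hex hn
  generalize Nat.find hex = n0 at hn1 hn2 hn3 hmin
  have hne : n0 ≠ b := by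
    rintro rfl
    linarith
  obtain ⟨i, rfl⟩ : ∃ i, n0 = i + 1 := ⟨n0 - 1, by omega⟩
  have hbi : b ≤ i := by omega
  have hi : 0 ≤ R F H i b q := by
    by_contra hcon
    exact hmin i (Nat.lt_succ_self i) ⟨hbi, by linarith⟩
  have hie : i < e := by omega
  refine ⟨i, hbi, hie, ?_⟩
  have hD : 0 < R F H i b (pt F (i + 1)) :=
    (hS i b (i + 1) hbi (by omega) le_rfl (by omega) (by omega) (by omega)).1 (Nat.lt_succ_self i)
  -- the third coordinate
  have hφe : R F H i b (pt F (i + 1)) - R F H i b q + R F H (i + 1) b q =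
      F i + (q.1 - i) * (F (i + 1) - F i) - q.2 := by
    simp only [R, pt]
    push_cast
    ring
  have hφ : 0 ≤ F i + (q.1 - i) * (F (i + 1) - F i) - q.2 := by
    rcases lt_trichotomy k i with hki | hki | hki
    · -- k < i
      have hki' : (k : ℝ) + 1 ≤ i := by exact_mod_cast hki
      have hib : (0 : ℝ) < (i : ℝ) - b := by linarith
      rw [← hφe]
      have e2 : R F H i b (pt F (i + 1)) * (q.1 - b) =
          - R F H (i + 1) b q * ((i : ℝ) - b) + R F H i b q * ((i : ℝ) + 1 - b) := by
        simp only [R, pt]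
        push_cast
        ring
      have e3 : R F H i b (pt F (i + 1)) * (q.1 - b) ≤ R F H i b (pt F (i + 1)) * ((i : ℝ) - b) :=
        mul_le_mul_of_nonneg_left (by linarith) hD.le
      by_contra hcon
      push Not at hcon
      have := mul_neg_of_neg_of_pos hcon hib
      nlinarith
    · subst hki
      linarith
    · exfalso
      have h0 := R_nonneg (i := i + 1) (j := b) hqk ?_ ?_ ?_ ?_
      · linarith
      · rcases Nat.lt_or_ge (i + 1) k with h | h
        · exact ((hS (i + 1) b k (by omega) (by omega) le_rfl (by omega) hbk (by omega)).1 h).le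
        · have : k = i + 1 := by omega
          rw [this, R_self_F]
      · exact ((hS (i + 1) b (k + 1) (by omega) (by omega) le_rfl (by omega) (by omega)
          (by omega)).1 (by omega)).le
      · exact ((hS (i + 1) b k (by omega) (by omega) le_rfl (by omega) hbk
          (by omega)).2.2.1 (by omega)).le
      · exact ((hS (i + 1) b (k + 1) (by omega) (by omega) le_rfl (by omega) (by omega)
          (by omega)).2.2.1 (by omega)).le
  refine hull_mem (pt F i) (pt F (i + 1)) (pt H b) q (R F H i b (pt F (i + 1)))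
    (- R F H (i + 1) b q) (R F H i b q) (F i + (q.1 - i) * (F (i + 1) - F i) - q.2)
    hD (by linarith) hi hφ (by rw [← hφe]; ring) ?_ ?_
  · rw [← hφe]
    simp only [R, pt]
    push_cast
    ring
  · rw [← hφe]
    simp only [R, pt]
    push_cast
    ring

theorem cover_down {F H : ℕ → ℝ} {b e k : ℕ} {q : Pt} (hpos : ∀ i, b ≤ i → i ≤ e → H i < F i)
    (hS : Side F H b e) (hbk : b ≤ k) (hke : k < e) (hq : q ∈ trap F H k)
    (hc : 0 ≤ R F H e b q) : ∃ j, b ≤ j ∧ j < e ∧ q ∈ hull {pt H j, pt H (j + 1), pt F e} := by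
  classical
  have hqk := hq
  obtain ⟨q1, q2, q3, q4⟩ := hq
  have hke' : (k : ℝ) + 1 ≤ e := by exact_mod_cast hke
  have hee : R F H e e q ≤ 0 := by
    have e1 : R F H e e q = - ((e - q.1) * (F e - H e)) := by simp only [R]; ring
    rw [e1]
    have := mul_nonneg (show (0 : ℝ) ≤ e - q.1 by linarith)
      (show 0 ≤ F e - H e by linarith [hpos e (by omega) le_rfl])
    linarith
  have hlast : b ≤ e - 1 ∧ R F H e (e - 1 + 1) q ≤ 0 := by
    refine ⟨by omega, ?_⟩
    have : e - 1 + 1 = e := by omega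
    rw [this]
    exact hee
  have hex : ∃ n, b ≤ n ∧ R F H e (n + 1) q ≤ 0 := ⟨e - 1, hlast⟩
  obtain ⟨hn1, hn2⟩ := Nat.find_spec hex
  have hn3 : Nat.find hex ≤ e - 1 := Nat.find_min' hex hlast
  have hmin : ∀ n, n < Nat.find hex → ¬ (b ≤ n ∧ R F H e (n + 1) q ≤ 0) := fun n hn =>
    Nat.find_min hex hn
  generalize Nat.find hex = j at hn1 hn2 hn3 hmin
  have hje : j < e := by omega
  have hj' : b < j → 0 < R F H e j q := by
    intro hbj
    by_contra hcon
    push Not at hcon
    refine hmin (j - 1) (by omega) ⟨by omega, ?_⟩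
    have : j - 1 + 1 = j := by omega
    rw [this]
    exact hcon
  have hj : 0 ≤ R F H e j q := by
    rcases Nat.lt_or_ge b j with h | h
    · exact (hj' h).le
    · have : j = b := by omega
      rw [this]
      exact hc
  refine ⟨j, hn1, hje, ?_⟩
  have hD : 0 < R F H e j (pt H (j + 1)) :=
    (hS e j (j + 1) (by omega) le_rfl hn1 (by omega) (by omega) (by omega)).2.2.1
      (Nat.lt_succ_self j)
  have hφe : R F H e j (pt H (j + 1)) - R F H e j q + R F H e (j + 1) q =
      q.2 - (H j + (q.1 - j) * (H (j + 1) - H j)) := by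
    simp only [R, pt]
    push_cast
    ring
  have hφ : 0 ≤ q.2 - (H j + (q.1 - j) * (H (j + 1) - H j)) := by
    rcases lt_trichotomy k j with hki | hki | hki
    · exfalso
      have h0 := R_nonpos (i := e) (j := j) hqk ?_ ?_ ?_ ?_
      · linarith [hj' (by omega)]
      · exact ((hS e j k (by omega) le_rfl hn1 (by omega) hbk (by omega)).2.1 hke).le
      · exact ((hS e j (k + 1) (by omega) le_rfl hn1 (by omega) (by omega)
          (by omega)).2.1 (by omega)).le
      · exact ((hS e j k (by omega) le_rfl hn1 (by omega) hbk (by omega)).2.2.2 hki).le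
      · rcases Nat.lt_or_ge (k + 1) j with h | h
        · exact ((hS e j (k + 1) (by omega) le_rfl hn1 (by omega) (by omega)
            (by omega)).2.2.2 h).le
        · have : k + 1 = j := by omega
          rw [this, R_self_H]
    · subst hki
      linarith
    · -- j < k
      have hki' : (j : ℝ) + 1 ≤ k := by exact_mod_cast hki
      have hib : (0 : ℝ) < (e : ℝ) - j - 1 := by linarith
      rw [← hφe]
      have e2 : R F H e j (pt H (j + 1)) * (e - q.1) =
          - R F H e (j + 1) q * ((e : ℝ) - j) + R F H e j q * ((e : ℝ) - j - 1) := by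
        simp only [R, pt]
        push_cast
        ring
      have e3 : R F H e j (pt H (j + 1)) * (e - q.1) ≤
          R F H e j (pt H (j + 1)) * ((e : ℝ) - j - 1) :=
        mul_le_mul_of_nonneg_left (by linarith) hD.le
      by_contra hcon
      push Not at hcon
      have := mul_neg_of_neg_of_pos hcon hib
      nlinarith
  refine hull_mem (pt H j) (pt H (j + 1)) (pt F e) q (R F H e j (pt H (j + 1)))
    (- R F H e (j + 1) q) (R F H e j q) (q.2 - (H j + (q.1 - j) * (H (j + 1) - H j)))
    hD (by linarith) hj hφ (by rw [← hφe]; ring) ?_ ?_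
  · rw [← hφe]
    simp only [R, pt]
    push_cast
    ring
  · rw [← hφe]
    simp only [R, pt]
    push_cast
    ring

end B2

theorem cover : CoverStmt := by
  intro F H b e _ hpos hS q hq
  obtain ⟨k, hbk, hke, hqk⟩ := hq
  rw [mem_iUnion₂]
  rcases lt_or_ge (R F H e b q) 0 with hc | hc
  · obtain ⟨i, hi1, hi2, hi3⟩ := B2.cover_up hpos hS hbk hke hqk hc
    exact ⟨_, Finset.mem_union_left _ (Finset.mem_image_of_mem _ (Finset.mem_Ico.2 ⟨hi1, hi2⟩)),
      hi3⟩
  · obtain ⟨j, hi1, hi2, hi3⟩ := B2.cover_down hpos hS hbk hke hqk hc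
    exact ⟨_, Finset.mem_union_right _ (Finset.mem_image_of_mem _ (Finset.mem_Ico.2 ⟨hi1, hi2⟩)),
      hi3⟩

end Pool.Agent.R98.FL
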