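import Pool.Agent.R98.FL.Stm

/-! C6: a segment inside that crosses a boundary edge lies on its line -/

namespace Pool.Agent.R98.FL

open Set Filter

theorem bdry_key (F H : ℕ → ℝ) (M i : ℕ) (b q : Pt) (h1 : (i : ℝ) < q.1) (h2 : q.1 < i + 1)
    (hq : q.2 = F i + (q.1 - i) * (F (i + 1) - F i)) (hs : segment ℝ q b ⊆ reg F H 0 M) :
    b.2 ≤ F i + (b.1 - i) * (F (i + 1) - F i) := by
  obtain ⟨δ, hδ0, hδ1, hδ2⟩ : ∃ δ : ℝ, 0 < δ ∧ δ ≤ q.1 - i ∧ δ ≤ i + 1 - q.1 :=
    ⟨min (q.1 - i) (i + 1 - q.1), lt_min (by linarith) (by linarith), min_le_left _ _,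
      min_le_right _ _⟩
  set D := |b.1 - q.1| + 1 with hD
  have hD0 : 0 < D := by positivity
  obtain ⟨ε, hε⟩ : ∃ ε, ε = δ / (δ + D) := ⟨_, rfl⟩
  have hs0 : 0 < δ + D := by linarith
  have hε0 : 0 < ε := by rw [hε]; positivity
  have hε1 : ε < 1 := by rw [hε, div_lt_one hs0]; linarith
  have hεD : ε * D < δ := by
    have h3 : ε * (δ + D) = δ := by rw [hε]; field_simp
    nlinarith
  have h4 : |ε * (b.1 - q.1)| < δ := by
    rw [abs_mul, abs_of_pos hε0]
    have : ε * |b.1 - q.1| ≤ ε * D := by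
      apply mul_le_mul_of_nonneg_left _ hε0.le
      rw [hD]; linarith
    linarith
  rw [abs_lt] at h4
  have h5 : (1 - ε) • q + ε • b ∈ reg F H 0 M := hs ⟨1 - ε, ε, by linarith, hε0.le, by ring, rfl⟩
  have e1 : ((1 - ε) • q + ε • b).1 = (1 - ε) * q.1 + ε * b.1 := rfl
  have e2 : ((1 - ε) • q + ε • b).2 = (1 - ε) * q.2 + ε * b.2 := rfl
  obtain ⟨k, -, -, hk1, hk2, -, hk4⟩ := h5
  rw [e1] at hk1 hk2 hk4
  rw [e2] at hk4
  have h6 : k < i + 1 := by
    have : (k : ℝ) < ((i + 1 : ℕ) : ℝ) := by push_cast; nlinarith [h4.1, h4.2]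
    exact_mod_cast this
  have h7 : i < k + 1 := by
    have : (i : ℝ) < ((k + 1 : ℕ) : ℝ) := by push_cast; nlinarith [h4.1, h4.2]
    exact_mod_cast this
  have h8 : k = i := by omega
  subst h8
  rw [hq] at hk4
  have h9 : ε * b.2 ≤ ε * (F k + (b.1 - k) * (F (k + 1) - F k)) := by nlinarith
  exact le_of_mul_le_mul_left h9 hε0

theorem bdry : BdryStmt := by
  intro F H M i b c q hi hs hq hq'
  have hqs : q ∈ segment ℝ b c := openSegment_subset_segment ℝ b c hq
  have hb : b ∈ segment ℝ b c := left_mem_segment ℝ b c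
  have hc : c ∈ segment ℝ b c := right_mem_segment ℝ b c
  have hsb : segment ℝ q b ⊆ reg F H 0 M :=
    ((convex_segment b c).segment_subset hqs hb).trans hs
  have hsc : segment ℝ q c ⊆ reg F H 0 M :=
    ((convex_segment b c).segment_subset hqs hc).trans hs
  obtain ⟨α, β, hα, hβ, hαβ, rfl⟩ := hq'
  have e1 : (α • pt F i + β • pt F (i + 1)).1 = α * i + β * (i + 1) := by
    simp [pt]
  have e2 : (α • pt F i + β • pt F (i + 1)).2 = α * F i + β * F (i + 1) := by
    simp [pt]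
  have hα' : α = 1 - β := by linarith
  have h1 : (i : ℝ) < (α • pt F i + β • pt F (i + 1)).1 := by
    rw [e1, hα']; nlinarith
  have h2 : (α • pt F i + β • pt F (i + 1)).1 < i + 1 := by
    rw [e1, hα']; nlinarith
  have h3 : (α • pt F i + β • pt F (i + 1)).2 = F i +
      ((α • pt F i + β • pt F (i + 1)).1 - i) * (F (i + 1) - F i) := by
    rw [e1, e2, hα']; ring
  have k1 := bdry_key F H M i b _ h1 h2 h3 hsb
  have k2 := bdry_key F H M i c _ h1 h2 h3 hsc
  obtain ⟨x, y, hx, hy, hxy, hxyq⟩ := hq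
  have f1 : (α • pt F i + β • pt F (i + 1)).1 = x * b.1 + y * c.1 := by
    rw [← hxyq]; rfl
  have f2 : (α • pt F i + β • pt F (i + 1)).2 = x * b.2 + y * c.2 := by
    rw [← hxyq]; rfl
  rw [f1, f2] at h3
  have hx' : x = 1 - y := by linarith
  have s1 : x * (F i + (b.1 - i) * (F (i + 1) - F i) - b.2) +
      y * (F i + (c.1 - i) * (F (i + 1) - F i) - c.2) = 0 := by
    subst hx'
    linarith
  have s2 : 0 ≤ x * (F i + (b.1 - i) * (F (i + 1) - F i) - b.2) :=
    mul_nonneg hx.le (by linarith)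
  have s3 : 0 ≤ y * (F i + (c.1 - i) * (F (i + 1) - F i) - c.2) :=
    mul_nonneg hy.le (by linarith)
  have s4 : x * (F i + (b.1 - i) * (F (i + 1) - F i) - b.2) = 0 := by linarith
  have s5 : y * (F i + (c.1 - i) * (F (i + 1) - F i) - c.2) = 0 := by linarith
  constructor
  · rcases mul_eq_zero.mp s4 with h | h
    · exact absurd h hx.ne'
    · linarith
  · rcases mul_eq_zero.mp s5 with h | h
    · exact absurd h hy.ne'
    · linarith

end Pool.Agent.R98.FL
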