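import Pool.Agent.R98.FL.Stm

set_option autoImplicit false

namespace Pool.Agent.R98.FL

open Set

theorem slice : SliceStmt := by
  intro F H b e k y hy
  obtain ⟨k', _, _, h1, h2, h3, h4⟩ := hy
  simp only at h1 h2 h3 h4
  have h1' : k' ≤ k := by exact_mod_cast h1
  have h2' : k ≤ k' + 1 := by exact_mod_cast h2
  rcases (show k = k' ∨ k = k' + 1 by omega) with h | h
  · subst h
    constructor <;> linarith
  · subst h
    push_cast at h3 h4
    constructor <;> linarith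

/-- the point of a segment with a given abscissa -/
theorem mem_seg {p q : Pt} {x : ℝ} (h : p.1 < q.1) (h1 : p.1 ≤ x) (h2 : x ≤ q.1) :
    (x, p.2 + (x - p.1) / (q.1 - p.1) * (q.2 - p.2)) ∈ segment ℝ p q := by
  have hd : 0 < q.1 - p.1 := sub_pos.2 h
  refine ⟨(q.1 - x) / (q.1 - p.1), (x - p.1) / (q.1 - p.1), div_nonneg (by linarith) hd.le,
    div_nonneg (by linarith) hd.le, ?_, ?_⟩
  · field_simp
    ring
  · apply Prod.ext
    · show (q.1 - x) / (q.1 - p.1) * p.1 + (x - p.1) / (q.1 - p.1) * q.1 = x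
      field_simp
      ring
    · show (q.1 - x) / (q.1 - p.1) * p.2 + (x - p.1) / (q.1 - p.1) * q.2 =
        p.2 + (x - p.1) / (q.1 - p.1) * (q.2 - p.2)
      field_simp
      ring

theorem noCross (hC : ConcStmt) : NoCrossStmt := by
  intro s G g hs hg hgG p q hp hq hsub
  obtain ⟨_, _, _, hdoor⟩ := hC s hs
  have hgs : 2 ≤ g * s := by nlinarith
  have hlt : p.1 < q.1 := by linarith
  have hd : 0 < q.1 - p.1 := sub_pos.2 hlt
  have c1 : ((g * s - 1 : ℕ) : ℝ) = (g : ℝ) * s - 1 := by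
    rw [Nat.cast_sub (by omega)]
    push_cast
    ring
  have c2 : ((g * s + 1 : ℕ) : ℝ) = (g : ℝ) * s + 1 := by push_cast; ring
  have c3 : ((g * s : ℕ) : ℝ) = (g : ℝ) * s := by push_cast; ring
  have key : ∀ k : ℕ, p.1 ≤ (k : ℝ) → (k : ℝ) ≤ q.1 →
      HH s k ≤ p.2 + ((k : ℝ) - p.1) / (q.1 - p.1) * (q.2 - p.2) ∧
      p.2 + ((k : ℝ) - p.1) / (q.1 - p.1) * (q.2 - p.2) ≤ FF s k := fun k h1 h2 =>
    slice (FF s) (HH s) 0 (G * s) k _ (hsub (mem_seg hlt h1 h2))
  have k1 := key (g * s - 1) (by rw [c1]; linarith) (by rw [c1]; linarith)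
  have k2 := key (g * s) (by rw [c3]; linarith) (by rw [c3]; linarith)
  have k3 := key (g * s + 1) (by rw [c2]; linarith) (by rw [c2]; linarith)
  rw [c1] at k1
  rw [c3] at k2
  rw [c2] at k3
  have havg : (p.2 + ((g : ℝ) * s - 1 - p.1) / (q.1 - p.1) * (q.2 - p.2)) +
      (p.2 + ((g : ℝ) * s + 1 - p.1) / (q.1 - p.1) * (q.2 - p.2)) =
      2 * (p.2 + ((g : ℝ) * s - p.1) / (q.1 - p.1) * (q.2 - p.2)) := by
    field_simp
    ring
  rcases hdoor g hg with h | h
  · linarith [k1.2, k3.2, k2.1]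
  · linarith [k1.1, k3.1, k2.2]

theorem chord (hC : ConcStmt) : ChordStmt := by
  intro s G g i j hs hgG hgi hij hj
  obtain ⟨_, _, hconv, _⟩ := hC s hs
  obtain ⟨h1, h2⟩ := hconv g i j hgi hij hj
  have hij' : (i : ℝ) + 2 ≤ j := by exact_mod_cast hij
  have hlt : (i : ℝ) < j := by linarith
  have hd : (0 : ℝ) < (j : ℝ) - i := by linarith
  have c1 : ((i + 1 : ℕ) : ℝ) = (i : ℝ) + 1 := by push_cast; ring
  constructor
  · intro hsub
    have hm := mem_seg (p := pt (FF s) i) (q := pt (FF s) j) (x := ((i + 1 : ℕ) : ℝ)) hlt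
      (by rw [c1]; show (i : ℝ) ≤ i + 1; linarith) (by rw [c1]; show (i : ℝ) + 1 ≤ j; linarith)
    have hk := (slice (FF s) (HH s) 0 (G * s) (i + 1) _ (hsub hm)).2
    have e : (pt (FF s) i).2 + (((i + 1 : ℕ) : ℝ) - (pt (FF s) i).1) /
        ((pt (FF s) j).1 - (pt (FF s) i).1) * ((pt (FF s) j).2 - (pt (FF s) i).2) =
        FF s i + (FF s j - FF s i) / ((j : ℝ) - i) := by
      show FF s i + (((i + 1 : ℕ) : ℝ) - (i : ℝ)) / ((j : ℝ) - i) * (FF s j - FF s i) = _
      rw [c1]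
      field_simp
      ring
    rw [e] at hk
    linarith
  · intro hsub
    have hm := mem_seg (p := pt (HH s) i) (q := pt (HH s) j) (x := ((i + 1 : ℕ) : ℝ)) hlt
      (by rw [c1]; show (i : ℝ) ≤ i + 1; linarith) (by rw [c1]; show (i : ℝ) + 1 ≤ j; linarith)
    have hk := (slice (FF s) (HH s) 0 (G * s) (i + 1) _ (hsub hm)).1
    have e : (pt (HH s) i).2 + (((i + 1 : ℕ) : ℝ) - (pt (HH s) i).1) /
        ((pt (HH s) j).1 - (pt (HH s) i).1) * ((pt (HH s) j).2 - (pt (HH s) i).2) =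
        HH s i + (HH s j - HH s i) / ((j : ℝ) - i) := by
      show HH s i + (((i + 1 : ℕ) : ℝ) - (i : ℝ)) / ((j : ℝ) - i) * (HH s j - HH s i) = _
      rw [c1]
      field_simp
      ring
    rw [e] at hk
    linarith

end Pool.Agent.R98.FL
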