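import Pool.Agent.R98.FL.Stm

set_option autoImplicit false

namespace Pool.Agent.R98.FL

open Set

namespace C56

theorem aux (F H : ℕ → ℝ) (M i : ℕ) (q z : Pt) (hs : segment ℝ q z ⊆ reg F H 0 M)
    (hq : q ∈ openSegment ℝ (pt F i) (pt F (i + 1))) :
    z.2 ≤ F i + (z.1 - i) * (F (i + 1) - F i) := by
  obtain ⟨γ, δ, hγ, hδ, hγδ, hq'⟩ := hq
  have q1 : q.1 = i + δ := by
    rw [← hq']
    simp only [pt, Prod.fst_add, Prod.smul_fst, smul_eq_mul]
    push_cast
    linear_combination (i : ℝ) * hγδ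
  have q2 : q.2 = F i + δ * (F (i + 1) - F i) := by
    rw [← hq']
    simp only [pt, Prod.snd_add, Prod.smul_snd, smul_eq_mul]
    linear_combination (F i) * hγδ
  set ε : ℝ := min γ δ / (1 + |z.1 - q.1|) with hε
  have hmin : 0 < min γ δ := lt_min hγ hδ
  have hden : 0 < 1 + |z.1 - q.1| := by positivity
  have hε0 : 0 < ε := div_pos hmin hden
  have hε1 : ε ≤ 1 := by
    rw [hε, div_le_one hden]
    have : min γ δ ≤ γ := min_le_left _ _
    have : 0 ≤ |z.1 - q.1| := abs_nonneg _
    linarith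
  have hεz : ε * |z.1 - q.1| < min γ δ := by
    rw [hε, div_mul_eq_mul_div, div_lt_iff₀ hden]
    nlinarith
  have hmem : ((1 - ε) • q + ε • z) ∈ reg F H 0 M :=
    hs ⟨1 - ε, ε, by linarith, hε0.le, by ring, rfl⟩
  obtain ⟨k, _, _, h1, h2, _, h4⟩ := hmem
  simp only [Prod.fst_add, Prod.smul_fst, smul_eq_mul, Prod.snd_add, Prod.smul_snd] at h1 h2 h4
  have hx : (1 - ε) * q.1 + ε * z.1 = q.1 + ε * (z.1 - q.1) := by ring
  rw [hx] at h1 h2 h4
  have ha : |ε * (z.1 - q.1)| < min γ δ := by rw [abs_mul, abs_of_pos hε0]; exact hεz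
  obtain ⟨ha1, ha2⟩ := abs_lt.1 ha
  have hg : min γ δ ≤ γ := min_le_left _ _
  have hd : min γ δ ≤ δ := min_le_right _ _
  have hk : k = i := by
    have e1 : (k : ℝ) < i + 1 := by linarith
    have e2 : (i : ℝ) < k + 1 := by linarith
    have e1' : k < i + 1 := by exact_mod_cast e1
    have e2' : i < k + 1 := by exact_mod_cast e2
    omega
  subst hk
  rw [q1, q2] at h4
  have h5 : ε * (z.2 - (F k + (z.1 - k) * (F (k + 1) - F k))) ≤ 0 := by
    nlinarith
  have h6 := nonpos_of_mul_nonpos_right h5 hε0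
  linarith

end C56

theorem bdry' : BdryStmt := by
  intro F H M i b c q hi hs hq hq'
  have hqs : q ∈ segment ℝ b c := openSegment_subset_segment ℝ b c hq
  have hb := C56.aux F H M i q b
    (((convex_segment b c).segment_subset hqs (left_mem_segment ℝ b c)).trans hs) hq'
  have hc := C56.aux F H M i q c
    (((convex_segment b c).segment_subset hqs (right_mem_segment ℝ b c)).trans hs) hq'
  obtain ⟨γ, δ, hγ, hδ, hγδ, hq1⟩ := hq'
  obtain ⟨α, β, hα, hβ, hαβ, hq2⟩ := hq
  have e1 : α * b.1 + β * c.1 = γ * i + δ * (i + 1) := by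
    have := congrArg Prod.fst (hq2.trans hq1.symm)
    simpa [pt] using this
  have e2 : α * b.2 + β * c.2 = γ * F i + δ * F (i + 1) := by
    have := congrArg Prod.snd (hq2.trans hq1.symm)
    simpa [pt] using this
  have hsum : α * (b.2 - (F i + (b.1 - i) * (F (i + 1) - F i))) +
      β * (c.2 - (F i + (c.1 - i) * (F (i + 1) - F i))) = 0 := by
    have hγ1 : γ = 1 - δ := by linarith
    have hα1 : α = 1 - β := by linarith
    subst hγ1
    subst hα1
    linear_combination e2 - (F (i + 1) - F i) * e1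
  have hb' : α * (b.2 - (F i + (b.1 - i) * (F (i + 1) - F i))) ≤ 0 :=
    mul_nonpos_of_nonneg_of_nonpos hα.le (by linarith)
  have hc' : β * (c.2 - (F i + (c.1 - i) * (F (i + 1) - F i))) ≤ 0 :=
    mul_nonpos_of_nonneg_of_nonpos hβ.le (by linarith)
  have hb0 : α * (b.2 - (F i + (b.1 - i) * (F (i + 1) - F i))) = 0 := by linarith
  have hc0 : β * (c.2 - (F i + (c.1 - i) * (F (i + 1) - F i))) = 0 := by linarith
  have hb1 := (mul_eq_zero.1 hb0).resolve_left hα.ne'
  have hc1 := (mul_eq_zero.1 hc0).resolve_left hβ.ne'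
  constructor <;> linarith

theorem apex' (hN : NoCrossStmt) (hK : ChordStmt) : ApexStmt := by
  intro s G g i S X T w hs hg hi1 hi2 hS hX hT ht
  have hsub : hull ({pt (FF s) i, pt (FF s) (i + 1), w} : Finset Pt) ⊆ PP s G := by
    rw [← hT.union]
    exact subset_iUnion₂_of_subset _ ht subset_rfl
  have hcard := hT.card _ ht
  have hw1 : w ≠ pt (FF s) i := by
    intro h
    subst h
    have h2 : ({pt (FF s) i, pt (FF s) (i + 1), pt (FF s) i} : Finset Pt).card ≤ 2 := by
      rw [show ({pt (FF s) i, pt (FF s) (i + 1), pt (FF s) i} : Finset Pt) =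
        {pt (FF s) i, pt (FF s) (i + 1)} by
          ext x; simp only [Finset.mem_insert, Finset.mem_singleton]; tauto]
      exact Finset.card_le_two
    omega
  have hw2 : w ≠ pt (FF s) (i + 1) := by
    intro h
    subst h
    have h2 : ({pt (FF s) i, pt (FF s) (i + 1), pt (FF s) (i + 1)} : Finset Pt).card ≤ 2 := by
      rw [show ({pt (FF s) i, pt (FF s) (i + 1), pt (FF s) (i + 1)} : Finset Pt) =
        {pt (FF s) i, pt (FF s) (i + 1)} by
          ext x; simp only [Finset.mem_insert, Finset.mem_singleton]; tauto]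
      exact Finset.card_le_two
    omega
  have m1 : pt (FF s) i ∈ hull ({pt (FF s) i, pt (FF s) (i + 1), w} : Finset Pt) :=
    subset_convexHull ℝ _ (by simp)
  have m2 : pt (FF s) (i + 1) ∈ hull ({pt (FF s) i, pt (FF s) (i + 1), w} : Finset Pt) :=
    subset_convexHull ℝ _ (by simp)
  have m3 : w ∈ hull ({pt (FF s) i, pt (FF s) (i + 1), w} : Finset Pt) :=
    subset_convexHull ℝ _ (by simp)
  have hcv : Convex ℝ (hull ({pt (FF s) i, pt (FF s) (i + 1), w} : Finset Pt)) := convex_convexHull ℝ _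
  have sg1 : segment ℝ (pt (FF s) i) w ⊆ PP s G := (hcv.segment_subset m1 m3).trans hsub
  have sg1' : segment ℝ w (pt (FF s) i) ⊆ PP s G := (hcv.segment_subset m3 m1).trans hsub
  have sg2 : segment ℝ w (pt (FF s) (i + 1)) ⊆ PP s G := (hcv.segment_subset m3 m2).trans hsub
  have hwP : w ∈ PP s G := hsub m3
  obtain ⟨k, _, hk2, hk3, hk4, _, _⟩ := hwP
  have hk2' : (k : ℝ) + 1 ≤ (G : ℝ) * s := by exact_mod_cast hk2
  have hs2 : (2 : ℝ) ≤ s := by exact_mod_cast hs
  -- left
  have hleft : ¬ (w.1 ≤ (g : ℝ) * s - 1) := by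
    intro h
    have hg1 : 1 ≤ g := by
      by_contra h0
      have : g = 0 := by omega
      subst this
      have : (0 : ℝ) ≤ k := by positivity
      push_cast at h
      linarith
    refine hN s G g hs hg1 hg w (pt (FF s) (i + 1)) h ?_ sg2
    show (g : ℝ) * s + 1 ≤ ((i + 1 : ℕ) : ℝ)
    push_cast
    have : ((g * s : ℕ) : ℝ) ≤ i := by exact_mod_cast hi1
    push_cast at this
    linarith
  have hright : ¬ (((g : ℝ) + 1) * s + 1 ≤ w.1) := by
    intro h
    have hg1 : g + 1 < G := by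
      by_contra h0
      have h1 : G ≤ g + 1 := by omega
      have h2 : (G : ℝ) ≤ g + 1 := by exact_mod_cast h1
      have h3 : (G : ℝ) * s ≤ (g + 1) * s := mul_le_mul_of_nonneg_right h2 (by positivity)
      linarith
    refine hN s G (g + 1) hs (by omega) hg1 (pt (FF s) i) w ?_ (by push_cast; exact h) sg1
    show (i : ℝ) ≤ ((g + 1 : ℕ) : ℝ) * s - 1
    have h1 : ((i + 1 : ℕ) : ℝ) ≤ (((g + 1) * s : ℕ) : ℝ) := by exact_mod_cast hi2
    push_cast at h1 ⊢
    linarith
  have hwS : w ∈ (vset (FF s) (HH s) 0 (G * s) : Set Pt) ∪ X := hS (hT.verts _ ht (by simp))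
  rcases hwS with hwV | hwX
  swap
  · rcases hX w hwX with h | h
    · exact absurd h hleft
    · exact absurd h hright
  have hrange : ∀ (F : ℕ → ℝ) (j : ℕ), w = pt F j → g * s ≤ j ∧ j ≤ (g + 1) * s := by
    intro F j hj
    have hj1 : w.1 = j := by rw [hj]; rfl
    rw [hj1] at hleft hright
    constructor
    · by_contra h
      apply hleft
      have h1 : j + 1 ≤ g * s := by omega
      have h2 : ((j + 1 : ℕ) : ℝ) ≤ ((g * s : ℕ) : ℝ) := by exact_mod_cast h1
      push_cast at h2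
      linarith
    · by_contra h
      apply hright
      have h1 : (g + 1) * s + 1 ≤ j := by omega
      have h2 : (((g + 1) * s + 1 : ℕ) : ℝ) ≤ (j : ℝ) := by exact_mod_cast h1
      push_cast at h2
      linarith
  have hwV' : w ∈ vset (FF s) (HH s) 0 (G * s) := hwV
  unfold vset at hwV'
  rw [Finset.mem_union, Finset.mem_image, Finset.mem_image] at hwV'
  rcases hwV' with ⟨j, _, hj⟩ | ⟨j, _, hj⟩
  · exfalso
    obtain ⟨hj1, hj2⟩ := hrange (FF s) j hj.symm
    have hne1 : j ≠ i := by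
      intro h; subst h; exact hw1 hj.symm
    have hne2 : j ≠ i + 1 := by
      intro h; subst h; exact hw2 hj.symm
    subst hj
    rcases Nat.lt_or_ge j i with h | h
    · exact (hK s G g j (i + 1) hs hg hj1 (by omega) (by omega)).1 sg2
    · exact (hK s G g i j hs hg hi1 (by omega) hj2).1 sg1
  · obtain ⟨hj1, hj2⟩ := hrange (HH s) j hj.symm
    exact ⟨j, hj1, hj2, hj.symm⟩

end Pool.Agent.R98.FL
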