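import Pool.Agent.R98.FL.Stm

namespace Pool.Agent.R98.FL

open Set Filter

theorem C7_dist {a b c : Pt} (h : ({a, b, c} : Finset Pt).card = 3) : a ≠ b ∧ a ≠ c ∧ b ≠ c := by
  refine ⟨?_, ?_, ?_⟩
  · rintro rfl
    have h1 : ({a, a, c} : Finset Pt) = {a, c} := by simp
    rw [h1] at h
    have := Finset.card_le_two (a := a) (b := c)
    omega
  · rintro rfl
    have h1 : ({a, b, a} : Finset Pt) = {a, b} := by
      ext x; simp only [Finset.mem_insert, Finset.mem_singleton]; tauto
    rw [h1] at h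
    have := Finset.card_le_two (a := a) (b := b)
    omega
  · rintro rfl
    have h1 : ({a, b, b} : Finset Pt) = {a, b} := by simp
    rw [h1] at h
    have := Finset.card_le_two (a := a) (b := b)
    omega

theorem C7_rot1 (a b c : Pt) : ({b, c, a} : Finset Pt) = {a, b, c} := by
  ext x; simp only [Finset.mem_insert, Finset.mem_singleton]; tauto

theorem C7_rot2 (a b c : Pt) : ({a, c, b} : Finset Pt) = {a, b, c} := by
  ext x; simp only [Finset.mem_insert, Finset.mem_singleton]; tauto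

theorem C7_rot3 (a b c : Pt) : ({c, b, a} : Finset Pt) = {a, b, c} := by
  ext x; simp only [Finset.mem_insert, Finset.mem_singleton]; tauto

theorem C7_rot4 (a b c : Pt) : ({b, a, c} : Finset Pt) = {a, b, c} := by
  ext x; simp only [Finset.mem_insert, Finset.mem_singleton]; tauto

theorem C7_rot5 (a b c : Pt) : ({c, a, b} : Finset Pt) = {a, b, c} := by
  ext x; simp only [Finset.mem_insert, Finset.mem_singleton]; tauto

theorem C7_sym1 {a b c d : Pt} {T T' : Finset (Finset Pt)} (h : FlipAt a b c d T T') :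
    FlipAt d b c a T T' := by
  obtain ⟨h1, h2, h3, h4, h5⟩ := h
  refine ⟨?_, ?_, h3.symm, ?_, ?_⟩
  · rw [C7_rot5 b c d]; exact h2
  · rw [C7_rot1 a b c]; exact h1
  · rw [openSegment_symm ℝ d a]; exact h4
  · rw [C7_rot5 b c d, C7_rot1 a b c, C7_rot3 a b d, C7_rot3 a c d, h5]
    ext x
    simp only [Finset.mem_union, Finset.mem_sdiff, Finset.mem_insert, Finset.mem_singleton]
    tauto

theorem C7_sym2 {a b c d : Pt} {T T' : Finset (Finset Pt)} (h : FlipAt a b c d T T') :
    FlipAt a c b d T T' := by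
  obtain ⟨h1, h2, h3, h4, h5⟩ := h
  refine ⟨?_, ?_, h3, ?_, ?_⟩
  · rw [C7_rot2 a b c]; exact h1
  · rw [C7_rot4 b c d]; exact h2
  · rw [openSegment_symm ℝ c b]; exact h4
  · rw [C7_rot2 a b c, C7_rot4 b c d, h5]
    ext x
    simp only [Finset.mem_union, Finset.mem_sdiff, Finset.mem_insert, Finset.mem_singleton]
    tauto

/-- three points on a graph line span no interior -/
theorem C7_nodeg (u k x : ℝ) (a b c : Pt) (ha : a.2 = u + (a.1 - x) * k)
    (hb : b.2 = u + (b.1 - x) * k) (hc : c.2 = u + (c.1 - x) * k) :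
    ¬ (interior (hull {a, b, c})).Nonempty := by
  rintro ⟨q, hq⟩
  have hsub : hull {a, b, c} ⊆ {z : Pt | z.2 = u + (z.1 - x) * k} := by
    unfold hull
    apply convexHull_min
    · intro z hz
      simp only [Finset.coe_insert, Finset.coe_singleton, mem_insert_iff, mem_singleton_iff] at hz
      rcases hz with rfl | rfl | rfl
      · exact ha
      · exact hb
      · exact hc
    · intro y hy z hz s t hs ht hst
      simp only [mem_ofPred_eq, Prod.snd_add, Prod.smul_snd, smul_eq_mul, Prod.fst_add,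
        Prod.smul_fst] at hy hz ⊢
      rw [hy, hz]
      have : s = 1 - t := by linarith
      subst this
      ring
  obtain ⟨ε, hε, hball⟩ := Metric.isOpen_iff.mp isOpen_interior q hq
  have h1 : q.2 = u + (q.1 - x) * k := hsub (interior_subset hq)
  have h2 : ((q.1, q.2 + ε / 2) : Pt) ∈ Metric.ball q ε := by
    rw [Metric.mem_ball, Prod.dist_eq]
    simp only [dist_self, Real.dist_eq]
    rw [show q.2 + ε / 2 - q.2 = ε / 2 by ring, abs_of_pos (by linarith : (0:ℝ) < ε / 2)]
    rw [max_eq_right (by linarith : (0:ℝ) ≤ ε / 2)]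
    linarith
  have h3 := hsub (interior_subset (hball h2))
  simp only [mem_ofPred_eq] at h3
  linarith

theorem C7_ptne (F : ℕ → ℝ) (i : ℕ) : pt F i ≠ pt F (i + 1) := by
  intro h
  have h1 := congrArg Prod.fst h
  simp only [pt] at h1
  push_cast at h1
  linarith

theorem C7_seg {P : Set Pt} {S : Finset Pt} {T : Finset (Finset Pt)}
    (hT : IsTriangulation P S T) {t : Finset Pt} (ht : t ∈ T) {x y : Pt} (hx : x ∈ t)
    (hy : y ∈ t) : segment ℝ x y ⊆ P := by
  have h1 : segment ℝ x y ⊆ hull t := by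
    unfold hull
    exact segment_subset_convexHull (by exact_mod_cast hx) (by exact_mod_cast hy)
  refine h1.trans ?_
  rw [← hT.union]
  exact subset_biUnion_of_mem (u := fun t => hull t) (show t ∈ (T : Set (Finset Pt)) from ht)

/-- the base is not the new diagonal -/
theorem C7_diag (hB : BdryStmt) (s G i : ℕ) (S : Finset Pt) (T T' : Finset (Finset Pt))
    (a b c d : Pt) (hi : i < G * s) (hT : IsTriangulation (PP s G) S T)
    (hfl : FlipAt a b c d T T')
    (h : (a = pt (FF s) i ∧ d = pt (FF s) (i + 1)) ∨ (d = pt (FF s) i ∧ a = pt (FF s) (i + 1))) :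
    False := by
  obtain ⟨h1, h2, h3, ⟨q, hq1, hq2⟩, h5⟩ := hfl
  have hseg : segment ℝ b c ⊆ PP s G := C7_seg hT h1 (by simp) (by simp)
  have hq : q ∈ openSegment ℝ (pt (FF s) i) (pt (FF s) (i + 1)) := by
    rcases h with ⟨ha, hd⟩ | ⟨hd, ha⟩
    · rw [ha, hd] at hq1; exact hq1
    · rw [ha, hd, openSegment_symm] at hq1; exact hq1
  obtain ⟨hb, hc⟩ := hB (FF s) (HH s) (G * s) i b c q hi hseg hq2 hq
  refine C7_nodeg (FF s i) (FF s (i + 1) - FF s i) i a b c ?_ hb hc (hT.nondeg _ h1)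
  rcases h with ⟨ha, hd⟩ | ⟨hd, ha⟩
  · rw [ha]; simp [pt]
  · rw [ha]; simp only [pt]; push_cast; ring

/-- the base edge belongs to a removed triangle, main case -/
theorem C7_main (hA : ApexStmt) (hK : ChordStmt) (s G g i j : ℕ) (S : Finset Pt) (X : Set Pt)
    (T T' : Finset (Finset Pt)) (a b c d : Pt)
    (hs : 2 ≤ s) (hg : g < G) (hi1 : g * s ≤ i) (hi2 : i < (g + 1) * s) (hj1 : g * s ≤ j)
    (hj2 : j ≤ (g + 1) * s)
    (hS : (S : Set Pt) ⊆ (vset (FF s) (HH s) 0 (G * s) : Set Pt) ∪ X)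
    (hX : Untouched s g X) (hT : IsTriangulation (PP s G) S T)
    (hT' : IsTriangulation (PP s G) S T') (hfl : FlipAt a b c d T T')
    (hgood : Good (FF s) (HH s) T i j)
    (habc : ({a, b, c} : Finset Pt) = {pt (FF s) i, pt (FF s) (i + 1), pt (HH s) j})
    (hab : (a = pt (FF s) i ∧ b = pt (FF s) (i + 1)) ∨ (b = pt (FF s) i ∧ a = pt (FF s) (i + 1))) :
    ∃ j', g * s ≤ j' ∧ j' ≤ (g + 1) * s ∧ Good (FF s) (HH s) T' i j' ∧ j' ≤ j + 1 ∧ j ≤ j' + 1 := by
  obtain ⟨h1, h2, h3, h4, h5⟩ := hfl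
  obtain ⟨n1, n2, n3⟩ := C7_dist (hT.card _ h1)
  obtain ⟨n4, n5, n6⟩ := C7_dist (hT.card _ h2)
  have hc : c = pt (HH s) j := by
    have : c ∈ ({pt (FF s) i, pt (FF s) (i + 1), pt (HH s) j} : Finset Pt) := by
      rw [← habc]; simp
    simp only [Finset.mem_insert, Finset.mem_singleton] at this
    rcases hab with ⟨ha, hb⟩ | ⟨hb, ha⟩
    · rw [← ha, ← hb] at this
      rcases this with h | h | h
      · exact absurd h n2.symm
      · exact absurd h n3.symm
      · exact h
    · rw [← ha, ← hb] at this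
      rcases this with h | h | h
      · exact absurd h n3.symm
      · exact absurd h n2.symm
      · exact h
  have habd : ({a, b, d} : Finset Pt) = {pt (FF s) i, pt (FF s) (i + 1), d} := by
    rcases hab with ⟨ha, hb⟩ | ⟨hb, ha⟩
    · rw [ha, hb]
    · rw [ha, hb, C7_rot4]
  have hmem : ({a, b, d} : Finset Pt) ∈ T' := by
    rw [h5]; simp
  obtain ⟨j', hj1', hj2', hd⟩ := hA s G g i S X T' d hs hg hi1 hi2 hS hX hT' (habd ▸ hmem)
  have hseg : segment ℝ c d ⊆ PP s G := C7_seg hT h2 (by simp) (by simp)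
  refine ⟨j', hj1', hj2', ?_, ?_, ?_⟩
  · intro t
    constructor
    · rintro ⟨ht, he1, he2⟩
      rw [h5, Finset.mem_union, Finset.mem_sdiff] at ht
      have heab : a ∈ t ∧ b ∈ t := by
        rcases hab with ⟨ha, hb⟩ | ⟨hb, ha⟩
        · rw [ha, hb]; exact ⟨he1, he2⟩
        · rw [ha, hb]; exact ⟨he2, he1⟩
      rcases ht with ⟨ht1, ht2⟩ | ht
      · have := (hgood t).mp ⟨ht1, he1, he2⟩
        rw [← habc] at this
        exact absurd (by rw [this]; simp) ht2
      · simp only [Finset.mem_insert, Finset.mem_singleton] at ht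
        rcases ht with rfl | rfl
        · rw [habd, hd]
        · have := heab.2
          simp only [Finset.mem_insert, Finset.mem_singleton] at this
          rcases this with h | h | h
          · exact absurd h n1.symm
          · exact absurd h n3
          · exact absurd h n5
    · intro ht
      rw [ht, ← hd, ← habd]
      refine ⟨hmem, ?_, ?_⟩
      · rw [habd]; simp
      · rw [habd]; simp
  · by_contra hcon
    push Not at hcon
    have := (hK s G g j j' hs hg hj1 (by omega) hj2').2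
    apply this
    rw [← hc, ← hd]; exact hseg
  · by_contra hcon
    push Not at hcon
    have := (hK s G g j' j hs hg hj1' (by omega) hj2).2
    apply this
    rw [← hc, ← hd, segment_symm]; exact hseg

/-- the base edge belongs to the removed triangle `abc` -/
theorem C7_rem (hA : ApexStmt) (hK : ChordStmt) (s G g i j : ℕ) (S : Finset Pt) (X : Set Pt)
    (T T' : Finset (Finset Pt)) (a b c d : Pt)
    (hs : 2 ≤ s) (hg : g < G) (hi1 : g * s ≤ i) (hi2 : i < (g + 1) * s) (hj1 : g * s ≤ j)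
    (hj2 : j ≤ (g + 1) * s)
    (hS : (S : Set Pt) ⊆ (vset (FF s) (HH s) 0 (G * s) : Set Pt) ∪ X)
    (hX : Untouched s g X) (hT : IsTriangulation (PP s G) S T)
    (hT' : IsTriangulation (PP s G) S T') (hfl : FlipAt a b c d T T')
    (hgood : Good (FF s) (HH s) T i j)
    (habc : ({a, b, c} : Finset Pt) = {pt (FF s) i, pt (FF s) (i + 1), pt (HH s) j}) :
    ∃ j', g * s ≤ j' ∧ j' ≤ (g + 1) * s ∧ Good (FF s) (HH s) T' i j' ∧ j' ≤ j + 1 ∧ j ≤ j' + 1 := by
  have hfl0 := hfl
  obtain ⟨h1, h2, h3, h4, h5⟩ := hfl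
  obtain ⟨n1, n2, n3⟩ := C7_dist (hT.card _ h1)
  obtain ⟨n4, n5, n6⟩ := C7_dist (hT.card _ h2)
  have hne := C7_ptne (FF s) i
  have m1 : pt (FF s) i ∈ ({a, b, c} : Finset Pt) := by rw [habc]; simp
  have m2 : pt (FF s) (i + 1) ∈ ({a, b, c} : Finset Pt) := by rw [habc]; simp
  have hno : ¬ (pt (FF s) i ∈ ({b, c, d} : Finset Pt) ∧ pt (FF s) (i + 1) ∈ ({b, c, d} : Finset Pt)) := by
    rintro ⟨k1, k2⟩
    have := (hgood _).mp ⟨h2, k1, k2⟩
    rw [← habc] at this
    have hd : d ∈ ({a, b, c} : Finset Pt) := by rw [← this]; simp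
    simp only [Finset.mem_insert, Finset.mem_singleton] at hd
    rcases hd with h | h | h
    · exact h3 h.symm
    · exact n5 h.symm
    · exact n6 h.symm
  simp only [Finset.mem_insert, Finset.mem_singleton] at m1 m2 hno
  have habc2 : ({a, c, b} : Finset Pt) = {pt (FF s) i, pt (FF s) (i + 1), pt (HH s) j} := by
    rw [C7_rot2]; exact habc
  rcases m1 with m1 | m1 | m1
  · rcases m2 with m2 | m2 | m2
    · exact absurd (m1.trans m2.symm) hne
    · exact C7_main hA hK s G g i j S X T T' a b c d hs hg hi1 hi2 hj1 hj2 hS hX hT hT' hfl0 hgood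
        habc (Or.inl ⟨m1.symm, m2.symm⟩)
    · exact C7_main hA hK s G g i j S X T T' a c b d hs hg hi1 hi2 hj1 hj2 hS hX hT hT'
        (C7_sym2 hfl0) hgood habc2 (Or.inl ⟨m1.symm, m2.symm⟩)
  · rcases m2 with m2 | m2 | m2
    · exact C7_main hA hK s G g i j S X T T' a b c d hs hg hi1 hi2 hj1 hj2 hS hX hT hT' hfl0 hgood
        habc (Or.inr ⟨m1.symm, m2.symm⟩)
    · exact absurd (m1.trans m2.symm) hne
    · exact absurd ⟨Or.inl m1, Or.inr (Or.inl m2)⟩ hno
  · rcases m2 with m2 | m2 | m2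
    · exact C7_main hA hK s G g i j S X T T' a c b d hs hg hi1 hi2 hj1 hj2 hS hX hT hT'
        (C7_sym2 hfl0) hgood habc2 (Or.inr ⟨m1.symm, m2.symm⟩)
    · exact absurd ⟨Or.inr (Or.inl m1), Or.inl m2⟩ hno
    · exact absurd (m1.trans m2.symm) hne

theorem flip1 (hA : ApexStmt) (hK : ChordStmt) (hB : BdryStmt) : Flip1Stmt := by
  intro s G g i j S X T T' a b c d hs hg hi1 hi2 hj1 hj2 hS hX hT hT' hfl hgood
  have hfl0 := hfl
  obtain ⟨h1, h2, h3, h4, h5⟩ := hfl
  obtain ⟨n1, n2, n3⟩ := C7_dist (hT.card _ h1)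
  obtain ⟨n4, n5, n6⟩ := C7_dist (hT.card _ h2)
  have hne := C7_ptne (FF s) i
  by_cases ht0 : ({pt (FF s) i, pt (FF s) (i + 1), pt (HH s) j} : Finset Pt) ∈
      ({{a, b, c}, {b, c, d}} : Finset (Finset Pt))
  · have hex : ∃ j', g * s ≤ j' ∧ j' ≤ (g + 1) * s ∧ Good (FF s) (HH s) T' i j' ∧
        j' ≤ j + 1 ∧ j ≤ j' + 1 := by
      rw [Finset.mem_insert, Finset.mem_singleton] at ht0
      rcases ht0 with ht | ht
      · exact C7_rem hA hK s G g i j S X T T' a b c d hs hg hi1 hi2 hj1 hj2 hS hX hT hT' hfl0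
          hgood ht.symm
      · refine C7_rem hA hK s G g i j S X T T' d b c a hs hg hi1 hi2 hj1 hj2 hS hX hT hT'
          (C7_sym1 hfl0) hgood ?_
        rw [C7_rot5 b c d]; exact ht.symm
    obtain ⟨j', e1, e2, e3, e4, e5⟩ := hex
    exact ⟨j', e1, e2, e3, e4, e5, fun h => absurd ht0 h⟩
  · refine ⟨j, hj1, hj2, ?_, by omega, by omega, fun _ => rfl⟩
    have hiG : i < G * s := by
      have : (g + 1) * s ≤ G * s := Nat.mul_le_mul_right s hg
      omega
    have hnabc : ¬ (pt (FF s) i ∈ ({a, b, c} : Finset Pt) ∧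
        pt (FF s) (i + 1) ∈ ({a, b, c} : Finset Pt)) := by
      rintro ⟨k1, k2⟩
      apply ht0
      rw [← (hgood _).mp ⟨h1, k1, k2⟩]; simp
    have hnbcd : ¬ (pt (FF s) i ∈ ({b, c, d} : Finset Pt) ∧
        pt (FF s) (i + 1) ∈ ({b, c, d} : Finset Pt)) := by
      rintro ⟨k1, k2⟩
      apply ht0
      rw [← (hgood _).mp ⟨h2, k1, k2⟩]; simp
    have hdiag := C7_diag hB s G i S T T' a b c d hiG hT hfl0
    simp only [Finset.mem_insert, Finset.mem_singleton] at hnabc hnbcd
    intro t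
    constructor
    · rintro ⟨ht, he1, he2⟩
      rw [h5, Finset.mem_union, Finset.mem_sdiff] at ht
      rcases ht with ⟨htT, -⟩ | ht
      · exact (hgood t).mp ⟨htT, he1, he2⟩
      · exfalso
        simp only [Finset.mem_insert, Finset.mem_singleton] at ht
        rcases ht with rfl | rfl
        · simp only [Finset.mem_insert, Finset.mem_singleton] at he1 he2
          rcases he1 with k | k | k <;> rcases he2 with l | l | l
          · exact hne (k.trans l.symm)
          · exact hnabc ⟨Or.inl k, Or.inr (Or.inl l)⟩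
          · exact hdiag (Or.inl ⟨k.symm, l.symm⟩)
          · exact hnabc ⟨Or.inr (Or.inl k), Or.inl l⟩
          · exact hne (k.trans l.symm)
          · exact hnbcd ⟨Or.inl k, Or.inr (Or.inr l)⟩
          · exact hdiag (Or.inr ⟨k.symm, l.symm⟩)
          · exact hnbcd ⟨Or.inr (Or.inr k), Or.inl l⟩
          · exact hne (k.trans l.symm)
        · simp only [Finset.mem_insert, Finset.mem_singleton] at he1 he2
          rcases he1 with k | k | k <;> rcases he2 with l | l | l
          · exact hne (k.trans l.symm)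
          · exact hnabc ⟨Or.inl k, Or.inr (Or.inr l)⟩
          · exact hdiag (Or.inl ⟨k.symm, l.symm⟩)
          · exact hnabc ⟨Or.inr (Or.inr k), Or.inl l⟩
          · exact hne (k.trans l.symm)
          · exact hnbcd ⟨Or.inr (Or.inl k), Or.inr (Or.inr l)⟩
          · exact hdiag (Or.inr ⟨k.symm, l.symm⟩)
          · exact hnbcd ⟨Or.inr (Or.inr k), Or.inr (Or.inl l)⟩
          · exact hne (k.trans l.symm)
    · intro ht
      have hin := (hgood t).mpr ht
      refine ⟨?_, hin.2.1, hin.2.2⟩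
      rw [h5, Finset.mem_union, Finset.mem_sdiff]
      left
      refine ⟨hin.1, ?_⟩
      rw [ht]; exact ht0

end Pool.Agent.R98.FL
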