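import Pool.Agent.R98.FL.Stm

/-! FL-C8: a chain of flips (helper611) -/

namespace Pool.Agent.R98.FL

open Set Filter

theorem chain_HH_lt_FF (s i : ℕ) (hs : 2 ≤ s) : HH s i < FF s i := by
  unfold HH FF cc
  have h1 : (2 : ℝ) ≤ s := by exact_mod_cast hs
  nlinarith [sq_nonneg ((s : ℝ) - 2 * ((i % s : ℕ) : ℝ)), sq_nonneg (s : ℝ)]

theorem chain_t0_inj (s i i' j j' : ℕ) (hs : 2 ≤ s) (hlt : i < i')
    (h : ({pt (FF s) i, pt (FF s) (i + 1), pt (HH s) j} : Finset Pt) =
      {pt (FF s) i', pt (FF s) (i' + 1), pt (HH s) j'}) : False := by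
  have h1 : pt (FF s) (i' + 1) ∈ ({pt (FF s) i, pt (FF s) (i + 1), pt (HH s) j} : Finset Pt) := by
    rw [h]
    simp
  simp only [Finset.mem_insert, Finset.mem_singleton] at h1
  rcases h1 with h1 | h1 | h1
  · have h2 := congrArg Prod.fst h1
    simp only [pt] at h2
    have h3 : i' + 1 = i := by exact_mod_cast h2
    omega
  · have h2 := congrArg Prod.fst h1
    simp only [pt] at h2
    have h3 : i' + 1 = i + 1 := by exact_mod_cast h2
    omega
  · have h2 := congrArg Prod.fst h1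
    simp only [pt] at h2
    have h3 : i' + 1 = j := by exact_mod_cast h2
    have h4 := congrArg Prod.snd h1
    simp only [pt] at h4
    rw [← h3] at h4
    exact absurd h4 (chain_HH_lt_FF s (i' + 1) hs).ne'

theorem chain (hF : Flip1Stmt) : ChainStmt := by
  intro s G S X E T T' l J hs hSX hE hJ hreach
  suffices h : IsTriangulation (PP s G) S T' ∧ ∃ J' : ℕ → ℕ,
      (∀ i ∈ E, (i / s) * s ≤ J' i ∧ J' i ≤ (i / s + 1) * s ∧
        Good (FF s) (HH s) T' i (J' i)) ∧
      ∑ i ∈ E, |((J' i : ℕ) : ℤ) - (J i : ℤ)| ≤ 2 * (l : ℤ) by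
    obtain ⟨_, J', h1, h2⟩ := h
    exact ⟨J', fun i hi => (h1 i hi).2.2, h2⟩
  induction hreach with
  | refl T hT => exact ⟨hT, J, hJ, by simp⟩
  | step m T T' T'' h1 h2 h3 ih =>
    obtain ⟨hT', J', hJ', hsum⟩ := ih hJ
    obtain ⟨a, b, c, d, hflip⟩ := h2
    have hs0 : 0 < s := by omega
    have hstep : ∀ i ∈ E, ∃ j' : ℕ, (i / s) * s ≤ j' ∧ j' ≤ (i / s + 1) * s ∧
        Good (FF s) (HH s) T'' i j' ∧ j' ≤ J' i + 1 ∧ J' i ≤ j' + 1 ∧
        (({pt (FF s) i, pt (FF s) (i + 1), pt (HH s) (J' i)} : Finset Pt) ∉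
          ({{a, b, c}, {b, c, d}} : Finset (Finset Pt)) → j' = J' i) := by
      intro i hi
      have hlt : i < (i / s + 1) * s := by
        have := Nat.lt_mul_div_succ i hs0
        rw [mul_comm] at this
        exact this
      exact hF s G (i / s) i (J' i) S X T' T'' a b c d hs (hE i hi).1 (Nat.div_mul_le_self i s)
        hlt (hJ' i hi).1 (hJ' i hi).2.1 hSX (hE i hi).2 hT' h3 hflip (hJ' i hi).2.2
    choose! J'' hJ'' using hstep
    refine ⟨h3, J'', fun i hi => ⟨(hJ'' i hi).1, (hJ'' i hi).2.1, (hJ'' i hi).2.2.1⟩, ?_⟩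
    set bad : Finset (Finset Pt) := {{a, b, c}, {b, c, d}} with hbad
    set t0 : ℕ → Finset Pt := fun i => {pt (FF s) i, pt (FF s) (i + 1), pt (HH s) (J' i)} with ht0
    have hcard : (E.filter (fun i => t0 i ∈ bad)).card ≤ 2 := by
      have h4 : (E.filter (fun i => t0 i ∈ bad)).card ≤ bad.card := by
        apply Finset.card_le_card_of_injOn t0
        · intro i hi
          exact (Finset.mem_filter.1 hi).2
        · intro i _ i' _ hii
          rcases lt_trichotomy i i' with h5 | h5 | h5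
          · exact (chain_t0_inj s i i' (J' i) (J' i') hs h5 hii).elim
          · exact h5
          · exact (chain_t0_inj s i' i (J' i') (J' i) hs h5 hii.symm).elim
      exact h4.trans Finset.card_le_two
    have hdiff : ∑ i ∈ E, |((J'' i : ℕ) : ℤ) - (J' i : ℤ)| ≤ 2 := by
      calc ∑ i ∈ E, |((J'' i : ℕ) : ℤ) - (J' i : ℤ)|
          ≤ ∑ i ∈ E, (if t0 i ∈ bad then (1 : ℤ) else 0) := by
            refine Finset.sum_le_sum fun i hi => ?_
            obtain ⟨_, _, _, h6, h7, h8⟩ := hJ'' i hi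
            split_ifs with hb
            · rw [abs_le]
              constructor <;> omega
            · rw [h8 hb]
              simp
        _ = ((E.filter (fun i => t0 i ∈ bad)).card : ℤ) := by
            rw [Finset.sum_boole]
        _ ≤ 2 := by exact_mod_cast hcard
    calc ∑ i ∈ E, |((J'' i : ℕ) : ℤ) - (J i : ℤ)|
        ≤ ∑ i ∈ E, (|((J'' i : ℕ) : ℤ) - (J' i : ℤ)| + |((J' i : ℕ) : ℤ) - (J i : ℤ)|) :=
          Finset.sum_le_sum fun i _ => abs_sub_le _ _ _
      _ = ∑ i ∈ E, |((J'' i : ℕ) : ℤ) - (J' i : ℤ)| + ∑ i ∈ E, |((J' i : ℕ) : ℤ) - (J i : ℤ)| :=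
          Finset.sum_add_distrib
      _ ≤ 2 + 2 * (m : ℤ) := add_le_add hdiff hsum
      _ = 2 * ((m + 1 : ℕ) : ℤ) := by push_cast; ring

end Pool.Agent.R98.FL
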