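import Pool.Agent.R98.FL.Stm

/-!
C1: facts on the concrete sequences.
-/

namespace Pool.Agent.R98.FL

namespace ConcAux

lemma dec {s g i : ℕ} (hs : 1 ≤ s) (h1 : g * s ≤ i) (h2 : i ≤ (g + 1) * s) :
    (∃ r, i = g * s + r ∧ i / s = g ∧ i % s = r) ∨
      (i = (g + 1) * s ∧ i / s = g + 1 ∧ i % s = 0) := by
  rcases Nat.lt_or_ge i ((g + 1) * s) with h | h
  · left
    obtain ⟨r, rfl⟩ := Nat.exists_eq_add_of_le h1
    have hr : r < s := by
      have : (g + 1) * s = g * s + s := by ring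
      omega
    refine ⟨r, rfl, ?_, ?_⟩
    · rw [mul_comm, Nat.mul_add_div hs, Nat.div_eq_of_lt hr, add_zero]
    · rw [mul_comm, Nat.mul_add_mod, Nat.mod_eq_of_lt hr]
  · right
    have h3 : i = (g + 1) * s := le_antisymm h2 h
    refine ⟨h3, ?_, ?_⟩
    · rw [h3, Nat.mul_div_cancel _ hs]
    · rw [h3, Nat.mul_mod_left]

lemma cc_loc {s g i : ℕ} (hs : 1 ≤ s) (h1 : g * s ≤ i) (h2 : i ≤ (g + 1) * s) :
    cc s i = (s : ℝ) ^ 2 + ((i : ℝ) - g * s) ^ 2 - ((i : ℝ) - g * s) * s := by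
  unfold cc
  rcases dec hs h1 h2 with ⟨r, hi, _, hm⟩ | ⟨hi, _, hm⟩
  · rw [hm, hi]
    push_cast
    ring
  · rw [hm, hi]
    push_cast
    ring

lemma saw_even {s g i : ℕ} (hs : 1 ≤ s) (h1 : g * s ≤ i) (h2 : i ≤ (g + 1) * s)
    (hg : g % 2 = 0) : saw s i = 4 * (s : ℝ) ^ 2 * ((i : ℝ) - g * s) := by
  unfold saw
  rcases dec hs h1 h2 with ⟨r, hi, hd, hm⟩ | ⟨hi, hd, hm⟩
  · rw [hd, if_pos hg, hm, hi]
    push_cast
    ring
  · have h : ¬ (g + 1) % 2 = 0 := by omega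
    rw [hd, if_neg h, hm, hi]
    push_cast
    ring

lemma saw_odd {s g i : ℕ} (hs : 1 ≤ s) (h1 : g * s ≤ i) (h2 : i ≤ (g + 1) * s)
    (hg : ¬ g % 2 = 0) : saw s i = 4 * (s : ℝ) ^ 2 * (s - ((i : ℝ) - g * s)) := by
  unfold saw
  rcases dec hs h1 h2 with ⟨r, hi, hd, hm⟩ | ⟨hi, hd, hm⟩
  · rw [hd, if_neg hg, hm, hi]
    push_cast
    ring
  · have h : (g + 1) % 2 = 0 := by omega
    rw [hd, if_pos h, hm, hi]
    push_cast
    ring

lemma saw_loc {s : ℕ} (g : ℕ) (hs : 1 ≤ s) : ∃ K c : ℝ, ∀ i, g * s ≤ i → i ≤ (g + 1) * s →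
    saw s i = K * ((i : ℝ) - g * s) + c := by
  by_cases hg : g % 2 = 0
  · refine ⟨4 * (s : ℝ) ^ 2, 0, fun i h1 h2 => ?_⟩
    rw [saw_even hs h1 h2 hg]
    ring
  · refine ⟨-(4 * (s : ℝ) ^ 2), 4 * (s : ℝ) ^ 2 * s, fun i h1 h2 => ?_⟩
    rw [saw_odd hs h1 h2 hg]
    ring

lemma cc_pos {s : ℕ} (hs : 1 ≤ s) (i : ℕ) : 0 < cc s i := by
  unfold cc
  have h : (1 : ℝ) ≤ s := by exact_mod_cast hs
  nlinarith [sq_nonneg (2 * ((i % s : ℕ) : ℝ) - s), sq_nonneg ((s : ℝ))]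

/-- everything in local coordinates -/
lemma loc {s : ℕ} (g : ℕ) (hs : 1 ≤ s) : ∃ K c : ℝ, ∀ i, g * s ≤ i → i ≤ (g + 1) * s →
    0 ≤ (i : ℝ) - g * s ∧ (i : ℝ) - g * s ≤ s ∧
    FF s i = K * ((i : ℝ) - g * s) + c +
      ((s : ℝ) ^ 2 + ((i : ℝ) - g * s) ^ 2 - ((i : ℝ) - g * s) * s) ∧
    HH s i = K * ((i : ℝ) - g * s) + c -
      ((s : ℝ) ^ 2 + ((i : ℝ) - g * s) ^ 2 - ((i : ℝ) - g * s) * s) := by
  obtain ⟨K, c, h⟩ := saw_loc g hs
  refine ⟨K, c, fun i h1 h2 => ⟨?_, ?_, ?_, ?_⟩⟩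
  · have : ((g * s : ℕ) : ℝ) ≤ i := by exact_mod_cast h1
    push_cast at this
    linarith
  · have : (i : ℝ) ≤ (((g + 1) * s : ℕ) : ℝ) := by exact_mod_cast h2
    push_cast at this
    linarith
  · unfold FF
    rw [h i h1 h2, cc_loc hs h1 h2]
  · unfold HH
    rw [h i h1 h2, cc_loc hs h1 h2]

lemma br {s x y z : ℝ} (hs : 0 < s) (hx : 0 ≤ x) (hx' : x ≤ s) (hy : 0 ≤ y) (hy' : y ≤ s)
    (hz : 0 ≤ z) (hz' : z ≤ s) :
    |(x - y) * (z - s + x)| < (s ^ 2 + x ^ 2 - x * s) + (s ^ 2 + y ^ 2 - y * s) := by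
  have h1 : |(x - y) * (z - s + x)| ≤ s * s := by
    rw [abs_mul]
    refine mul_le_mul ?_ ?_ (abs_nonneg _) hs.le
    · rw [abs_le]
      constructor <;> linarith
    · rw [abs_le]
      constructor <;> linarith
  nlinarith [sq_nonneg (2 * x - s), sq_nonneg (2 * y - s), mul_pos hs hs]

end ConcAux

open ConcAux in
theorem conc : ConcStmt := by
  intro s hs
  have hs1 : 1 ≤ s := by omega
  have hsR : (2 : ℝ) ≤ s := by exact_mod_cast hs
  have hs0 : (0 : ℝ) < s := by linarith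
  refine ⟨?_, ?_, ?_, ?_⟩
  · intro i
    have := cc_pos hs1 i
    unfold HH FF
    linarith
  · intro g
    obtain ⟨K, c, h⟩ := loc g hs1
    intro i j k hi hi' hj hj' hk hk'
    obtain ⟨i0, i1, iF, iH⟩ := h i hi hi'
    obtain ⟨j0, j1, jF, jH⟩ := h j hj hj'
    obtain ⟨k0, k1, kF, kH⟩ := h k hk hk'
    set x : ℝ := (i : ℝ) - g * s with hx
    set y : ℝ := (j : ℝ) - g * s with hy
    set z : ℝ := (k : ℝ) - g * s with hz
    have b1 := abs_lt.1 (br hs0 i0 i1 j0 j1 k0 k1)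
    have b2 := abs_lt.1 (br hs0 j0 j1 i0 i1 k0 k1)
    have e1 : R (FF s) (HH s) i j (pt (FF s) k) =
        (z - x) * ((((s : ℝ) ^ 2 + x ^ 2 - x * s) + ((s : ℝ) ^ 2 + y ^ 2 - y * s)) -
          (x - y) * (z - s + x)) := by
      unfold R pt
      simp only
      rw [iF, jH, kF]
      have a1 : (k : ℝ) = z + g * s := by rw [hz]; ring
      have a2 : (j : ℝ) = y + g * s := by rw [hy]; ring
      have a3 : (i : ℝ) = x + g * s := by rw [hx]; ring
      rw [a1, a2, a3]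
      ring
    have e2 : R (FF s) (HH s) i j (pt (HH s) k) =
        (z - y) * ((((s : ℝ) ^ 2 + y ^ 2 - y * s) + ((s : ℝ) ^ 2 + x ^ 2 - x * s)) -
          (y - x) * (z - s + y)) := by
      unfold R pt
      simp only
      rw [iF, jH, kH]
      have a1 : (k : ℝ) = z + g * s := by rw [hz]; ring
      have a2 : (j : ℝ) = y + g * s := by rw [hy]; ring
      have a3 : (i : ℝ) = x + g * s := by rw [hx]; ring
      rw [a1, a2, a3]
      ring
    rw [e1, e2]
    refine ⟨fun hlt => ?_, fun hlt => ?_, fun hlt => ?_, fun hlt => ?_⟩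
    · have : (i : ℝ) < k := by exact_mod_cast hlt
      exact mul_pos (by rw [hx, hz]; linarith) (by linarith [b1.2])
    · have : (k : ℝ) < i := by exact_mod_cast hlt
      exact mul_neg_of_neg_of_pos (by rw [hx, hz]; linarith) (by linarith [b1.2])
    · have : (j : ℝ) < k := by exact_mod_cast hlt
      exact mul_pos (by rw [hy, hz]; linarith) (by linarith [b2.2])
    · have : (k : ℝ) < j := by exact_mod_cast hlt
      exact mul_neg_of_neg_of_pos (by rw [hy, hz]; linarith) (by linarith [b2.2])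
  · intro g i j hi hij hj
    obtain ⟨K, c, h⟩ := loc g hs1
    obtain ⟨i0, i1, iF, iH⟩ := h i hi (by omega)
    obtain ⟨m0, m1, mF, mH⟩ := h (i + 1) (by omega) (by omega)
    obtain ⟨j0, j1, jF, jH⟩ := h j (by omega) hj
    have hlt : (i : ℝ) + 2 ≤ j := by exact_mod_cast hij
    have hd : (j : ℝ) - i ≠ 0 := by
      have : (0 : ℝ) < (j : ℝ) - i := by linarith
      exact this.ne'
    have e1 : (FF s j - FF s i) / ((j : ℝ) - i) =
        K + ((j : ℝ) - g * s) + ((i : ℝ) - g * s) - s := by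
      rw [div_eq_iff hd, jF, iF]
      ring
    have e2 : (HH s j - HH s i) / ((j : ℝ) - i) =
        K - ((j : ℝ) - g * s) - ((i : ℝ) - g * s) + s := by
      rw [div_eq_iff hd, jH, iH]
      ring
    rw [e1, e2, iF, iH, mF, mH]
    push_cast
    constructor
    · nlinarith
    · nlinarith
  · intro g hg
    obtain ⟨g', rfl⟩ := Nat.exists_eq_add_of_le' hg
    have q1 : (g' + 1) * s = g' * s + s := by ring
    have q2 : (g' + 1 + 1) * s = g' * s + s + s := by ring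
    have c1 := cc_loc (g := g') (i := (g' + 1) * s - 1) hs1 (by omega) (by omega)
    have c2 := cc_loc (g := g') (i := (g' + 1) * s) hs1 (by omega) (by omega)
    have c3 := cc_loc (g := g' + 1) (i := (g' + 1) * s + 1) hs1 (by omega) (by omega)
    have hcast : (((g' + 1) * s - 1 : ℕ) : ℝ) = ((g' : ℝ) + 1) * s - 1 := by
      rw [Nat.cast_sub (by omega)]
      push_cast
      ring
    rw [hcast] at c1
    push_cast at c1 c2 c3
    by_cases hp : g' % 2 = 0
    · left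
      have s1 := saw_even (g := g') (i := (g' + 1) * s - 1) hs1 (by omega) (by omega) hp
      have s2 := saw_even (g := g') (i := (g' + 1) * s) hs1 (by omega) (by omega) hp
      have s3 := saw_odd (g := g' + 1) (i := (g' + 1) * s + 1) hs1 (by omega) (by omega) (by omega)
      rw [hcast] at s1
      push_cast at s1 s2 s3
      unfold FF HH
      rw [c1, c2, c3, s1, s2, s3]
      nlinarith
    · right
      have s1 := saw_odd (g := g') (i := (g' + 1) * s - 1) hs1 (by omega) (by omega) hp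
      have s2 := saw_odd (g := g') (i := (g' + 1) * s) hs1 (by omega) (by omega) hp
      have s3 := saw_even (g := g' + 1) (i := (g' + 1) * s + 1) hs1 (by omega) (by omega) (by omega)
      rw [hcast] at s1
      push_cast at s1 s2 s3
      unfold FF HH
      rw [c1, c2, c3, s1, s2, s3]
      nlinarith

end Pool.Agent.R98.FL
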