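import Pool.Agent.R98.FL.Stm

/-! A2a: the region is compact and the closure of its interior -/

namespace Pool.Agent.R98.FL

open Set Filter

theorem cpt_trap_closed (F H : ℕ → ℝ) (k : ℕ) : IsClosed (trap F H k) := by
  have e : trap F H k = {q : Pt | (k : ℝ) ≤ q.1} ∩ {q : Pt | q.1 ≤ k + 1} ∩
      {q : Pt | H k + (q.1 - k) * (H (k + 1) - H k) ≤ q.2} ∩
      {q : Pt | q.2 ≤ F k + (q.1 - k) * (F (k + 1) - F k)} := by
    ext q
    simp only [trap, mem_inter_iff, mem_ofPred_eq]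
    tauto
  rw [e]
  refine IsClosed.inter (IsClosed.inter (IsClosed.inter ?_ ?_) ?_) ?_
  · exact isClosed_le (by fun_prop) (by fun_prop)
  · exact isClosed_le (by fun_prop) (by fun_prop)
  · exact isClosed_le (by fun_prop) (by fun_prop)
  · exact isClosed_le (by fun_prop) (by fun_prop)

theorem cpt_trap_compact (F H : ℕ → ℝ) (k : ℕ) : IsCompact (trap F H k) := by
  have h1 : trap F H k ⊆ Icc ((k : ℝ), -(|H k| + |H (k + 1)|)) ((k : ℝ) + 1, |F k| + |F (k + 1)|) := by
    rintro q ⟨a1, a2, a3, a4⟩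
    have b1 := le_abs_self (F k)
    have b2 := le_abs_self (F (k + 1))
    have b3 := neg_abs_le (H k)
    have b4 := neg_abs_le (H (k + 1))
    have c1 := abs_nonneg (F k)
    have c2 := abs_nonneg (F (k + 1))
    have c3 := abs_nonneg (H k)
    have c4 := abs_nonneg (H (k + 1))
    have d1 : 0 ≤ q.1 - k := by linarith
    have d2 : 0 ≤ 1 - (q.1 - k) := by linarith
    constructor
    · refine ⟨a1, ?_⟩
      change -(|H k| + |H (k + 1)|) ≤ q.2
      nlinarith [mul_nonneg d1 (by linarith : 0 ≤ H (k + 1) + |H (k + 1)|),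
        mul_nonneg d2 (by linarith : 0 ≤ H k + |H k|), mul_nonneg d1 c3, mul_nonneg d2 c4,
        mul_nonneg d1 c4, mul_nonneg d2 c3]
    · refine ⟨a2, ?_⟩
      change q.2 ≤ |F k| + |F (k + 1)|
      nlinarith [mul_nonneg d1 (by linarith : 0 ≤ |F (k + 1)| - F (k + 1)),
        mul_nonneg d2 (by linarith : 0 ≤ |F k| - F k), mul_nonneg d1 c1, mul_nonneg d2 c2,
        mul_nonneg d1 c2, mul_nonneg d2 c1]
  exact isCompact_Icc.of_isClosed_subset (cpt_trap_closed F H k) h1

theorem cpt_trap_convex (F H : ℕ → ℝ) (k : ℕ) : Convex ℝ (trap F H k) := by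
  rintro x ⟨x1, x2, x3, x4⟩ y ⟨y1, y2, y3, y4⟩ a b ha hb hab
  have hb' : b = 1 - a := by linarith
  have e1 : (a • x + b • y).1 = a * x.1 + b * y.1 := rfl
  have e2 : (a • x + b • y).2 = a * x.2 + b * y.2 := rfl
  have m1 := mul_le_mul_of_nonneg_left x1 ha
  have m2 := mul_le_mul_of_nonneg_left y1 hb
  have m3 := mul_le_mul_of_nonneg_left x2 ha
  have m4 := mul_le_mul_of_nonneg_left y2 hb
  have m5 := mul_le_mul_of_nonneg_left x3 ha
  have m6 := mul_le_mul_of_nonneg_left y3 hb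
  have m7 := mul_le_mul_of_nonneg_left x4 ha
  have m8 := mul_le_mul_of_nonneg_left y4 hb
  subst hb'
  refine ⟨?_, ?_, ?_, ?_⟩
  · rw [e1]; linarith
  · rw [e1]; linarith
  · rw [e1, e2]; linarith
  · rw [e1, e2]; linarith

theorem cpt_trap_int (F H : ℕ → ℝ) (k : ℕ) (h0 : H k < F k) (h1 : H (k + 1) < F (k + 1)) :
    (interior (trap F H k)).Nonempty := by
  set U : Set Pt := {q : Pt | (k : ℝ) < q.1} ∩ {q : Pt | q.1 < k + 1} ∩
      {q : Pt | H k + (q.1 - k) * (H (k + 1) - H k) < q.2} ∩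
      {q : Pt | q.2 < F k + (q.1 - k) * (F (k + 1) - F k)} with hU
  have hUo : IsOpen U := by
    refine IsOpen.inter (IsOpen.inter (IsOpen.inter ?_ ?_) ?_) ?_
    · exact isOpen_lt (by fun_prop) (by fun_prop)
    · exact isOpen_lt (by fun_prop) (by fun_prop)
    · exact isOpen_lt (by fun_prop) (by fun_prop)
    · exact isOpen_lt (by fun_prop) (by fun_prop)
  have hUs : U ⊆ trap F H k := by
    rintro q ⟨⟨⟨a1, a2⟩, a3⟩, a4⟩
    exact ⟨le_of_lt a1, le_of_lt a2, le_of_lt a3, le_of_lt a4⟩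
  refine ⟨((k : ℝ) + 1 / 2, (H k + H (k + 1) + F k + F (k + 1)) / 4), interior_maximal hUs hUo ?_⟩
  refine ⟨⟨⟨?_, ?_⟩, ?_⟩, ?_⟩
  · change (k : ℝ) < (k : ℝ) + 1 / 2
    linarith
  · change (k : ℝ) + 1 / 2 < (k : ℝ) + 1
    linarith
  · change H k + ((k : ℝ) + 1 / 2 - k) * (H (k + 1) - H k) < (H k + H (k + 1) + F k + F (k + 1)) / 4
    linarith
  · change (H k + H (k + 1) + F k + F (k + 1)) / 4 < F k + ((k : ℝ) + 1 / 2 - k) * (F (k + 1) - F k)
    linarith

theorem cpt : CptStmt := by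
  intro F H M hM hFH
  have e : reg F H 0 M = ⋃ k ∈ Finset.range M, trap F H k := by
    ext q
    simp only [reg, mem_ofPred_eq, mem_iUnion, Finset.mem_range, Nat.zero_le, true_and,
      exists_prop]
  have hcpt : IsCompact (reg F H 0 M) := by
    rw [e]
    exact (Finset.range M).isCompact_biUnion fun k _ => cpt_trap_compact F H k
  refine ⟨hcpt, Set.Subset.antisymm ?_ ?_⟩
  · exact closure_minimal interior_subset hcpt.isClosed
  · rintro q ⟨k, -, hk, hq⟩
    have h1 := (cpt_trap_convex F H k).closure_interior_eq_closure_of_nonempty_interior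
      (cpt_trap_int F H k (hFH k (by omega)) (hFH (k + 1) (by omega)))
    have h2 : q ∈ closure (interior (trap F H k)) := by
      rw [h1]
      exact subset_closure hq
    have h3 : trap F H k ⊆ reg F H 0 M := fun x hx => ⟨k, Nat.zero_le _, hk, hx⟩
    exact closure_mono (interior_mono h3) h2

end Pool.Agent.R98.FL
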