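import Pool.Agent.R98.FL.Stm

set_option autoImplicit false

namespace Pool.Agent.R98.FL

open Set

namespace Cpt3

theorem trap_closed (F H : ℕ → ℝ) (k : ℕ) : IsClosed (trap F H k) := by
  unfold trap
  refine (isClosed_le continuous_const continuous_fst).inter
    ((isClosed_le continuous_fst continuous_const).inter
      ((isClosed_le (by fun_prop) continuous_snd).inter
        (isClosed_le continuous_snd (by fun_prop))))

theorem trap_compact (F H : ℕ → ℝ) (k : ℕ) : IsCompact (trap F H k) := by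
  have hsub : trap F H k ⊆ Icc (k : ℝ) (k + 1) ×ˢ
      Icc (min (H k) (H (k + 1))) (max (F k) (F (k + 1))) := by
    rintro ⟨x, y⟩ ⟨h1, h2, h3, h4⟩
    simp only at h1 h2 h3 h4
    refine ⟨⟨h1, h2⟩, ⟨?_, ?_⟩⟩
    · show min (H k) (H (k + 1)) ≤ y
      have a1 := min_le_left (H k) (H (k + 1))
      have a2 := min_le_right (H k) (H (k + 1))
      have b1 : 0 ≤ (x - k) * (H (k + 1) - min (H k) (H (k + 1))) :=
        mul_nonneg (by linarith) (by linarith)
      have b2 : 0 ≤ (1 - (x - k)) * (H k - min (H k) (H (k + 1))) :=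
        mul_nonneg (by linarith) (by linarith)
      nlinarith
    · show y ≤ max (F k) (F (k + 1))
      have a1 := le_max_left (F k) (F (k + 1))
      have a2 := le_max_right (F k) (F (k + 1))
      have b1 : 0 ≤ (x - k) * (max (F k) (F (k + 1)) - F (k + 1)) :=
        mul_nonneg (by linarith) (by linarith)
      have b2 : 0 ≤ (1 - (x - k)) * (max (F k) (F (k + 1)) - F k) :=
        mul_nonneg (by linarith) (by linarith)
      nlinarith
  exact (isCompact_Icc.prod isCompact_Icc).of_isClosed_subset (trap_closed F H k) hsub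

theorem trap_convex (F H : ℕ → ℝ) (k : ℕ) : Convex ℝ (trap F H k) := by
  rintro ⟨x, y⟩ ⟨h1, h2, h3, h4⟩ ⟨x', y'⟩ ⟨h1', h2', h3', h4'⟩ a b ha hb hab
  simp only at h1 h2 h3 h4 h1' h2' h3' h4'
  have e : b = 1 - a := by linarith
  subst e
  refine ⟨?_, ?_, ?_, ?_⟩ <;>
    simp only [Prod.fst_add, Prod.smul_fst, smul_eq_mul, Prod.snd_add, Prod.smul_snd]
  · nlinarith [mul_nonneg ha (sub_nonneg.2 h1), mul_nonneg hb (sub_nonneg.2 h1')]
  · nlinarith [mul_nonneg ha (sub_nonneg.2 h2), mul_nonneg hb (sub_nonneg.2 h2')]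
  · nlinarith [mul_nonneg ha (sub_nonneg.2 h3), mul_nonneg hb (sub_nonneg.2 h3')]
  · nlinarith [mul_nonneg ha (sub_nonneg.2 h4), mul_nonneg hb (sub_nonneg.2 h4')]

theorem trap_int (F H : ℕ → ℝ) (k : ℕ) (h : H k < F k) (h' : H (k + 1) < F (k + 1)) :
    (interior (trap F H k)).Nonempty := by
  refine ⟨((k : ℝ) + 1 / 2, (H k + H (k + 1) + F k + F (k + 1)) / 4), ?_⟩
  have hop : IsOpen {q : ℝ × ℝ | (k : ℝ) < q.1 ∧ q.1 < k + 1 ∧
      H k + (q.1 - k) * (H (k + 1) - H k) < q.2 ∧ q.2 < F k + (q.1 - k) * (F (k + 1) - F k)} := by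
    refine (isOpen_lt continuous_const continuous_fst).inter
      ((isOpen_lt continuous_fst continuous_const).inter
        ((isOpen_lt (by fun_prop) continuous_snd).inter
          (isOpen_lt continuous_snd (by fun_prop))))
  refine interior_maximal ?_ hop ?_
  · rintro q ⟨h1, h2, h3, h4⟩
    exact ⟨h1.le, h2.le, h3.le, h4.le⟩
  · refine ⟨?_, ?_, ?_, ?_⟩ <;> simp only <;> linarith

end Cpt3

theorem cpt3 : CptStmt := by
  intro F H M hM hFH
  have hreg : reg F H 0 M = ⋃ k ∈ Finset.range M, trap F H k := by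
    ext q
    simp only [reg, mem_setOf_eq, mem_iUnion, Finset.mem_range, exists_prop]
    constructor
    · rintro ⟨k, _, h1, h2⟩; exact ⟨k, h1, h2⟩
    · rintro ⟨k, h1, h2⟩; exact ⟨k, Nat.zero_le _, h1, h2⟩
  have hcpt : IsCompact (reg F H 0 M) := by
    rw [hreg]
    exact (Finset.range M).isCompact_biUnion fun k _ => Cpt3.trap_compact F H k
  refine ⟨hcpt, Subset.antisymm ?_ ?_⟩
  · exact (closure_mono interior_subset).trans hcpt.isClosed.closure_subset
  · rintro q ⟨k, _, hk, hq⟩
    have h1 : closure (interior (trap F H k)) = closure (trap F H k) :=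
      (Cpt3.trap_convex F H k).closure_interior_eq_closure_of_nonempty_interior
        (Cpt3.trap_int F H k (hFH k hk.le) (hFH (k + 1) hk))
    have h2 : q ∈ closure (interior (trap F H k)) := by
      rw [h1]; exact subset_closure hq
    refine closure_mono (interior_mono ?_) h2
    intro z hz
    exact ⟨k, Nat.zero_le _, hk, hz⟩

end Pool.Agent.R98.FL
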