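import Mathlib

/-!
Statements for MP_fe41f2_co: few Steiner points do not make the flip distance linear.
Polygon: region between two piecewise linear functions `F`, `H` with breakpoints at integers.
See NOTES.md in this folder for the proofs of all pieces.
-/

namespace Pool.Agent.R98.FL

open Set Filter

/-- the plane -/
abbrev Pt := ℝ × ℝ

/-- cyclic successor in `Fin n` -/
def nxt {n : ℕ} (i : Fin n) : Fin n := ⟨(i.1 + 1) % n, Nat.mod_lt _ (lt_of_le_of_lt (Nat.zero_le _) i.2)⟩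

/-- the `i`-th edge of the closed polygonal curve with vertices `v 0, …, v (n-1)` -/
def edge {n : ℕ} (v : Fin n → Pt) (i : Fin n) : Set Pt := segment ℝ (v i) (v (nxt i))

/-- `P` is the simple polygon (closed region) with the `n` vertices `v 0, …, v (n-1)` in cyclic order:
the edges form a simple closed curve, and `P` is the compact region bounded by it
(compact, closure of its interior, with frontier the curve). -/
structure IsPolygon {n : ℕ} (v : Fin n → Pt) (P : Set Pt) : Prop where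
  three : 3 ≤ n
  inj : Function.Injective v
  simple : ∀ i j : Fin n, i ≠ j →
    edge v i ∩ edge v j = ({v i, v (nxt i)} : Set Pt) ∩ {v j, v (nxt j)}
  cpt : IsCompact P
  reg : closure (interior P) = P
  bdry : frontier P = ⋃ i, edge v i

/-- closed region of a triangle given by its vertex set -/
def hull (t : Finset Pt) : Set Pt := convexHull ℝ (t : Set Pt)

/-- `T` is a triangulation of `(P, S)`; triangles are given by their vertex sets. -/
structure IsTriangulation (P : Set Pt) (S : Finset Pt) (T : Finset (Finset Pt)) : Prop where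
  card : ∀ t ∈ T, t.card = 3
  nondeg : ∀ t ∈ T, (interior (hull t)).Nonempty
  verts : ∀ t ∈ T, t ⊆ S
  disj : ∀ t ∈ T, ∀ t' ∈ T, t ≠ t' → Disjoint (interior (hull t)) (interior (hull t'))
  union : (⋃ t ∈ T, hull t) = P
  empty : ∀ t ∈ T, ∀ s ∈ S, s ∉ interior (hull t)

/-- `T'` arises from `T` by flipping the edge `bc` (common to the triangles `abc`, `bcd`, whose union
is a convex quadrilateral: its diagonals `ad`, `bc` cross) to `ad`. -/
def FlipAt (a b c d : Pt) (T T' : Finset (Finset Pt)) : Prop :=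
  ({a, b, c} : Finset Pt) ∈ T ∧ ({b, c, d} : Finset Pt) ∈ T ∧ a ≠ d ∧
    (openSegment ℝ a d ∩ openSegment ℝ b c).Nonempty ∧
    T' = (T \ {{a, b, c}, {b, c, d}}) ∪ {{a, b, d}, {a, c, d}}

def Flip (T T' : Finset (Finset Pt)) : Prop := ∃ a b c d : Pt, FlipAt a b c d T T'

/-- there is a sequence of `m` flips from `T` to `T'` through triangulations of `(P, S)` -/
inductive FlipReach (P : Set Pt) (S : Finset Pt) :
    ℕ → Finset (Finset Pt) → Finset (Finset Pt) → Prop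
  | refl (T : Finset (Finset Pt)) : IsTriangulation P S T → FlipReach P S 0 T T
  | step (m : ℕ) (T T' T'' : Finset (Finset Pt)) : FlipReach P S m T T' → Flip T' T'' →
      IsTriangulation P S T'' → FlipReach P S (m + 1) T T''

/-- `T'` arises from `T` by inserting `p`: `p` lies in the interior of the triangle `abc` of `T`, which is
replaced by the three triangles `pab`, `pbc`, `pac`. -/
def InsertPt (p : Pt) (T T' : Finset (Finset Pt)) : Prop :=
  ∃ a b c : Pt, ({a, b, c} : Finset Pt) ∈ T ∧ p ∈ interior (hull {a, b, c}) ∧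
    T' = (T \ {{a, b, c}}) ∪ {{p, a, b}, {p, b, c}, {p, a, c}}

/-- `(S', T1', T2')` arises from `(S, T1, T2)` by inserting `m` Steiner points one at a time -/
inductive Inserted (P : Set Pt) (S : Finset Pt) (T1 T2 : Finset (Finset Pt)) :
    ℕ → Finset Pt → Finset (Finset Pt) → Finset (Finset Pt) → Prop
  | refl : Inserted P S T1 T2 0 S T1 T2
  | step (m : ℕ) (S' : Finset Pt) (T1' T2' T1'' T2'' : Finset (Finset Pt)) (p : Pt) :
      Inserted P S T1 T2 m S' T1' T2' → p ∈ interior P → InsertPt p T1' T1'' → InsertPt p T2' T2'' →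
      Inserted P S T1 T2 (m + 1) (insert p S') T1'' T2''

/-! ### the polygon between two piecewise linear functions -/

noncomputable section

/-- the point of the graph of `F` with abscissa `i` -/
def pt (F : ℕ → ℝ) (i : ℕ) : Pt := ((i : ℝ), F i)

/-- the part of the region with abscissa in `[k, k+1]` -/
def trap (F H : ℕ → ℝ) (k : ℕ) : Set Pt :=
  {q | (k : ℝ) ≤ q.1 ∧ q.1 ≤ k + 1 ∧ H k + (q.1 - k) * (H (k + 1) - H k) ≤ q.2 ∧
    q.2 ≤ F k + (q.1 - k) * (F (k + 1) - F k)}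

/-- the region between `H` and `F` with abscissa in `[b, e]` -/
def reg (F H : ℕ → ℝ) (b e : ℕ) : Set Pt := {q | ∃ k, b ≤ k ∧ k < e ∧ q ∈ trap F H k}

def vset (F H : ℕ → ℝ) (b e : ℕ) : Finset Pt :=
  (Finset.Icc b e).image (pt F) ∪ (Finset.Icc b e).image (pt H)

/-- the cyclic vertex sequence -/
def vtx (F H : ℕ → ℝ) (M : ℕ) : Fin (2 * M + 2) → Pt :=
  fun k => if k.1 ≤ M then pt F k.1 else pt H (2 * M + 1 - k.1)

/-- upper chain seen from `pt H b`, lower chain seen from `pt F e` -/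
def fanA (F H : ℕ → ℝ) (b e : ℕ) : Finset (Finset Pt) :=
  (Finset.Ico b e).image (fun i => {pt F i, pt F (i + 1), pt H b}) ∪
  (Finset.Ico b e).image (fun j => {pt H j, pt H (j + 1), pt F e})

/-- upper chain seen from `pt H e`, lower chain seen from `pt F b` -/
def fanB (F H : ℕ → ℝ) (b e : ℕ) : Finset (Finset Pt) :=
  (Finset.Ico b e).image (fun i => {pt F i, pt F (i + 1), pt H e}) ∪
  (Finset.Ico b e).image (fun j => {pt H j, pt H (j + 1), pt F b})

/-- positive iff `q` is to the right of the line through `pt H j` and `pt F i` -/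
def R (F H : ℕ → ℝ) (i j : ℕ) (q : Pt) : ℝ :=
  (q.1 - j) * (F i - H j) - ((i : ℝ) - j) * (q.2 - H j)

/-- in the block `[b, e]` every line through `pt F i` and `pt H j` separates the earlier vertices from
the later ones -/
def Side (F H : ℕ → ℝ) (b e : ℕ) : Prop :=
  ∀ i j k, b ≤ i → i ≤ e → b ≤ j → j ≤ e → b ≤ k → k ≤ e →
    (i < k → 0 < R F H i j (pt F k)) ∧ (k < i → R F H i j (pt F k) < 0) ∧
    (j < k → 0 < R F H i j (pt H k)) ∧ (k < j → R F H i j (pt H k) < 0)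

/-! ### concrete sequences: blocks of length `s` -/

def cc (s i : ℕ) : ℝ := (s : ℝ) ^ 2 + ((i % s : ℕ) : ℝ) ^ 2 - ((i % s : ℕ) : ℝ) * s

def saw (s i : ℕ) : ℝ :=
  if (i / s) % 2 = 0 then 4 * (s : ℝ) ^ 2 * ((i % s : ℕ) : ℝ)
  else 4 * (s : ℝ) ^ 2 * ((s : ℝ) - ((i % s : ℕ) : ℝ))

def FF (s i : ℕ) : ℝ := saw s i + cc s i
def HH (s i : ℕ) : ℝ := saw s i - cc s i

/-- the region for block length `s` and `G` blocks -/
abbrev PP (s G : ℕ) : Set Pt := reg (FF s) (HH s) 0 (G * s)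

/-- `X` does not touch block `g` -/
def Untouched (s g : ℕ) (X : Set Pt) : Prop :=
  ∀ p ∈ X, p.1 ≤ (g : ℝ) * s - 1 ∨ ((g : ℝ) + 1) * s + 1 ≤ p.1

/-- the triangle with base `pt F i, pt F (i+1)` and apex `pt H j` is the only triangle of `T` containing the
base -/
def Good (F H : ℕ → ℝ) (T : Finset (Finset Pt)) (i j : ℕ) : Prop :=
  ∀ t, (t ∈ T ∧ pt F i ∈ t ∧ pt F (i + 1) ∈ t) ↔ t = {pt F i, pt F (i + 1), pt H j}

/-! ### statements of the pieces -/

/-- A1 -/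
def SimpleStmt : Prop := ∀ (F H : ℕ → ℝ) (M : ℕ), 1 ≤ M → (∀ i ≤ M, H i < F i) →
  Function.Injective (vtx F H M) ∧ ∀ i j : Fin (2 * M + 2), i ≠ j →
    edge (vtx F H M) i ∩ edge (vtx F H M) j =
      ({vtx F H M i, vtx F H M (nxt i)} : Set Pt) ∩ {vtx F H M j, vtx F H M (nxt j)}

/-- A2a -/
def CptStmt : Prop := ∀ (F H : ℕ → ℝ) (M : ℕ), 1 ≤ M → (∀ i ≤ M, H i < F i) →
  IsCompact (reg F H 0 M) ∧ closure (interior (reg F H 0 M)) = reg F H 0 M

/-- A2b -/
def FrontStmt : Prop := ∀ (F H : ℕ → ℝ) (M : ℕ), 1 ≤ M → (∀ i ≤ M, H i < F i) →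
  frontier (reg F H 0 M) = ⋃ i, edge (vtx F H M) i

/-- A3 -/
def VimgStmt : Prop := ∀ (F H : ℕ → ℝ) (M : ℕ),
  Finset.univ.image (vtx F H M) = vset F H 0 M

/-- B1: triangle of a visible diagonal pair is inside -/
def InsideStmt : Prop := ∀ (F H : ℕ → ℝ) (b e : ℕ), b < e → (∀ i, b ≤ i → i ≤ e → H i < F i) →
  Side F H b e → ∀ t ∈ fanA F H b e, hull t ⊆ reg F H b e

/-- B2: the fan covers -/
def CoverStmt : Prop := ∀ (F H : ℕ → ℝ) (b e : ℕ), b < e → (∀ i, b ≤ i → i ≤ e → H i < F i) →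
  Side F H b e → reg F H b e ⊆ ⋃ t ∈ fanA F H b e, hull t

/-- B3: cards, nondegeneracy, interior-disjointness, emptiness -/
def DisjStmt : Prop := ∀ (F H : ℕ → ℝ) (b e : ℕ), b < e → (∀ i, b ≤ i → i ≤ e → H i < F i) →
  Side F H b e →
  (∀ t ∈ fanA F H b e, t.card = 3 ∧ (interior (hull t)).Nonempty ∧ t ⊆ vset F H b e) ∧
  (∀ t ∈ fanA F H b e, ∀ t' ∈ fanA F H b e, t ≠ t' → Disjoint (interior (hull t)) (interior (hull t'))) ∧
  (∀ t ∈ fanA F H b e, ∀ s ∈ vset F H b e, s ∉ interior (hull t))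

def FanAStmt : Prop := ∀ (F H : ℕ → ℝ) (b e : ℕ), b < e → (∀ i, b ≤ i → i ≤ e → H i < F i) →
  Side F H b e → IsTriangulation (reg F H b e) (vset F H b e) (fanA F H b e)

/-- B4: from `FanAStmt` by the reflection `(x, y) ↦ (x, -y)` -/
def FanBStmt : Prop := ∀ (F H : ℕ → ℝ) (b e : ℕ), b < e → (∀ i, b ≤ i → i ≤ e → H i < F i) →
  Side F H b e → IsTriangulation (reg F H b e) (vset F H b e) (fanB F H b e)

/-- B5: gluing blocks -/
def GlueStmt : Prop := ∀ (F H : ℕ → ℝ) (s G : ℕ) (T : ℕ → Finset (Finset Pt)), 1 ≤ s → 1 ≤ G →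
  (∀ i ≤ G * s, H i < F i) →
  (∀ g < G, IsTriangulation (reg F H (g * s) ((g + 1) * s)) (vset F H (g * s) ((g + 1) * s)) (T g)) →
  IsTriangulation (reg F H 0 (G * s)) (vset F H 0 (G * s)) ((Finset.range G).biUnion T)

/-- C1: facts on the concrete sequences -/
def ConcStmt : Prop := ∀ (s : ℕ), 2 ≤ s →
  (∀ i, HH s i < FF s i) ∧
  (∀ g, Side (FF s) (HH s) (g * s) ((g + 1) * s)) ∧
  -- strict convexity / concavity inside a block, as chords
  (∀ g i j, g * s ≤ i → i + 2 ≤ j → j ≤ (g + 1) * s →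
    (FF s (i + 1) < FF s i + (FF s j - FF s i) / ((j : ℝ) - i)) ∧
    (HH s i + (HH s j - HH s i) / ((j : ℝ) - i) < HH s (i + 1))) ∧
  -- doors
  (∀ g, 1 ≤ g → (FF s (g * s - 1) + FF s (g * s + 1) < 2 * HH s (g * s)) ∨
    (2 * FF s (g * s) < HH s (g * s - 1) + HH s (g * s + 1)))

/-- C2: integer slices -/
def SliceStmt : Prop := ∀ (F H : ℕ → ℝ) (b e k : ℕ) (y : ℝ), ((k : ℝ), y) ∈ reg F H b e →
  H k ≤ y ∧ y ≤ F k

/-- C3: no segment inside crosses a door far from it -/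
def NoCrossStmt : Prop := ∀ (s G g : ℕ), 2 ≤ s → 1 ≤ g → g < G → ∀ p q : Pt,
  p.1 ≤ (g : ℝ) * s - 1 → (g : ℝ) * s + 1 ≤ q.1 → ¬ segment ℝ p q ⊆ PP s G

/-- C4: no chord inside -/
def ChordStmt : Prop := ∀ (s G g i j : ℕ), 2 ≤ s → g < G → g * s ≤ i → i + 2 ≤ j → j ≤ (g + 1) * s →
  (¬ segment ℝ (pt (FF s) i) (pt (FF s) j) ⊆ PP s G) ∧
  (¬ segment ℝ (pt (HH s) i) (pt (HH s) j) ⊆ PP s G)

/-- C5: the apex over an upper edge in an untouched block -/
def ApexStmt : Prop := ∀ (s G g i : ℕ) (S : Finset Pt) (X : Set Pt) (T : Finset (Finset Pt)) (w : Pt),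
  2 ≤ s → g < G → g * s ≤ i → i < (g + 1) * s → (S : Set Pt) ⊆ (vset (FF s) (HH s) 0 (G * s) : Set Pt) ∪ X →
  Untouched s g X → IsTriangulation (PP s G) S T →
  ({pt (FF s) i, pt (FF s) (i + 1), w} : Finset Pt) ∈ T →
  ∃ j, g * s ≤ j ∧ j ≤ (g + 1) * s ∧ w = pt (HH s) j

/-- C6: a segment inside that crosses a boundary edge lies on its line -/
def BdryStmt : Prop := ∀ (F H : ℕ → ℝ) (M i : ℕ) (b c q : Pt), i < M → segment ℝ b c ⊆ reg F H 0 M →
  q ∈ openSegment ℝ b c → q ∈ openSegment ℝ (pt F i) (pt F (i + 1)) →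
  b.2 = F i + (b.1 - i) * (F (i + 1) - F i) ∧ c.2 = F i + (c.1 - i) * (F (i + 1) - F i)

/-- C7: one flip, one base -/
def Flip1Stmt : Prop := ∀ (s G g i j : ℕ) (S : Finset Pt) (X : Set Pt) (T T' : Finset (Finset Pt))
  (a b c d : Pt),
  2 ≤ s → g < G → g * s ≤ i → i < (g + 1) * s → g * s ≤ j → j ≤ (g + 1) * s →
  (S : Set Pt) ⊆ (vset (FF s) (HH s) 0 (G * s) : Set Pt) ∪ X →
  Untouched s g X → IsTriangulation (PP s G) S T → IsTriangulation (PP s G) S T' →
  FlipAt a b c d T T' → Good (FF s) (HH s) T i j →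
  ∃ j', g * s ≤ j' ∧ j' ≤ (g + 1) * s ∧ Good (FF s) (HH s) T' i j' ∧ j' ≤ j + 1 ∧ j ≤ j' + 1 ∧
    (({pt (FF s) i, pt (FF s) (i + 1), pt (HH s) j} : Finset Pt) ∉
      ({{a, b, c}, {b, c, d}} : Finset (Finset Pt)) → j' = j)

/-- the blocks not touched by `X` -/
def untouchedBlocks (s G : ℕ) (X : Set Pt) : Set ℕ := {g | g < G ∧ Untouched s g X}

/-- C8: a chain of flips; `E` is any finite set of upper edges lying in untouched blocks -/
def ChainStmt : Prop := ∀ (s G : ℕ) (S : Finset Pt) (X : Set Pt) (E : Finset ℕ)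
  (T T' : Finset (Finset Pt)) (l : ℕ) (J : ℕ → ℕ),
  2 ≤ s → (S : Set Pt) ⊆ (vset (FF s) (HH s) 0 (G * s) : Set Pt) ∪ X →
  (∀ i ∈ E, i / s < G ∧ Untouched s (i / s) X) →
  (∀ i ∈ E, (i / s) * s ≤ J i ∧ J i ≤ (i / s + 1) * s ∧ Good (FF s) (HH s) T i (J i)) →
  FlipReach (PP s G) S l T T' →
  ∃ J' : ℕ → ℕ, (∀ i ∈ E, Good (FF s) (HH s) T' i (J' i)) ∧
    ∑ i ∈ E, |((J' i : ℕ) : ℤ) - (J i : ℤ)| ≤ 2 * (l : ℤ)

/-- C9: insertion does not change the triangle on a base in an untouched block -/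
def Ins1Stmt : Prop := ∀ (s g i j : ℕ) (p : Pt) (T T' : Finset (Finset Pt)),
  2 ≤ s → g * s ≤ i → i < (g + 1) * s → g * s ≤ j → j ≤ (g + 1) * s →
  (p.1 ≤ (g : ℝ) * s - 1 ∨ ((g : ℝ) + 1) * s + 1 ≤ p.1) →
  Good (FF s) (HH s) T i j → InsertPt p T T' → Good (FF s) (HH s) T' i j

/-- C10: after `m` insertions at least `G - 2m` blocks are untouched, the point set has grown by a set `X` of
inserted points, and the bases in untouched blocks keep their triangles -/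
def InsStmt : Prop := ∀ (s G m : ℕ) (S' : Finset Pt) (T1 T2 T1' T2' : Finset (Finset Pt)) (J1 J2 : ℕ → ℕ),
  2 ≤ s → 1 ≤ G →
  (∀ g < G, ∀ i, g * s ≤ i → i < (g + 1) * s →
    (g * s ≤ J1 i ∧ J1 i ≤ (g + 1) * s ∧ Good (FF s) (HH s) T1 i (J1 i)) ∧
    (g * s ≤ J2 i ∧ J2 i ≤ (g + 1) * s ∧ Good (FF s) (HH s) T2 i (J2 i))) →
  Inserted (PP s G) (vset (FF s) (HH s) 0 (G * s)) T1 T2 m S' T1' T2' →
  ∃ (X : Set Pt) (B : Finset ℕ), (S' : Set Pt) ⊆ (vset (FF s) (HH s) 0 (G * s) : Set Pt) ∪ X ∧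
    (∀ g ∈ B, g < G ∧ Untouched s g X) ∧ G ≤ B.card + 2 * m ∧
    ∀ g ∈ B, ∀ i, g * s ≤ i → i < (g + 1) * s →
      Good (FF s) (HH s) T1' i (J1 i) ∧ Good (FF s) (HH s) T2' i (J2 i)

/-- D1: in the two fan triangulations of the whole polygon -/
def GoodFanStmt : Prop := ∀ (s G : ℕ), 2 ≤ s → 1 ≤ G → ∀ g < G, ∀ i, g * s ≤ i → i < (g + 1) * s →
  Good (FF s) (HH s) ((Finset.range G).biUnion (fun g => fanA (FF s) (HH s) (g * s) ((g + 1) * s))) i (g * s) ∧
  Good (FF s) (HH s) ((Finset.range G).biUnion (fun g => fanB (FF s) (HH s) (g * s) ((g + 1) * s))) i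
    ((g + 1) * s)

/-- the final statement -/
def FinalStmt : Prop := ∀ k : ℕ → ℝ, (k =o[atTop] fun n : ℕ => (n : ℝ)) → ∀ C : ℝ,
  ∃ (n : ℕ) (v : Fin n → Pt) (P : Set Pt) (T1 T2 : Finset (Finset Pt)),
    IsPolygon v P ∧ IsTriangulation P (Finset.univ.image v) T1 ∧
    IsTriangulation P (Finset.univ.image v) T2 ∧
    ∀ (m : ℕ) (S' : Finset Pt) (T1' T2' : Finset (Finset Pt)), (m : ℝ) ≤ k n →
      Inserted P (Finset.univ.image v) T1 T2 m S' T1' T2' →
      ∀ l : ℕ, FlipReach P S' l T1' T2' → C * n < l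

end

end Pool.Agent.R98.FL
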