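import Mathlib
import Pool.Agent.R98.FL.Stm

/-! Piece B3: cards, nondegeneracy, disjoint interiors and emptiness of the fan. -/

namespace Pool.Agent.R98.FL

open Set Filter Topology

namespace Disj

variable {F H : ℕ → ℝ}

lemma R_comb (i j : ℕ) (x y : Pt) (a c : ℝ) (h : a + c = 1) :
    R F H i j (a • x + c • y) = a * R F H i j x + c * R F H i j y := by
  obtain rfl : c = 1 - a := by linarith
  unfold R
  simp only [Prod.fst_add, Prod.snd_add, Prod.smul_fst, Prod.smul_snd, smul_eq_mul]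
  ring

lemma R_pt_H (i j : ℕ) : R F H i j (pt H j) = 0 := by
  unfold R pt
  ring

lemma R_pt_F (i j : ℕ) : R F H i j (pt F i) = 0 := by
  unfold R pt
  ring

lemma hull_nonneg {i j : ℕ} {t : Finset Pt} (h : ∀ v ∈ t, 0 ≤ R F H i j v) :
    ∀ q ∈ hull t, 0 ≤ R F H i j q := by
  have hc : Convex ℝ {q : Pt | 0 ≤ R F H i j q} := by
    intro x hx y hy a c ha hc hac
    change 0 ≤ R F H i j (a • x + c • y)
    rw [R_comb i j x y a c hac]
    exact add_nonneg (mul_nonneg ha hx) (mul_nonneg hc hy)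
  intro q hq
  exact convexHull_min (fun v hv => h v (Finset.mem_coe.1 hv)) hc hq

lemma hull_nonpos {i j : ℕ} {t : Finset Pt} (h : ∀ v ∈ t, R F H i j v ≤ 0) :
    ∀ q ∈ hull t, R F H i j q ≤ 0 := by
  have hc : Convex ℝ {q : Pt | R F H i j q ≤ 0} := by
    intro x hx y hy a c ha hc hac
    change R F H i j (a • x + c • y) ≤ 0
    rw [R_comb i j x y a c hac]
    exact add_nonpos (mul_nonpos_of_nonneg_of_nonpos ha hx) (mul_nonpos_of_nonneg_of_nonpos hc hy)
  intro q hq
  exact convexHull_min (fun v hv => h v (Finset.mem_coe.1 hv)) hc hq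

/-- the square of the norm of the gradient -/
noncomputable def gg (F H : ℕ → ℝ) (i j : ℕ) : ℝ := (F i - H j) ^ 2 + ((i : ℝ) - j) ^ 2

lemma gg_pos {i j : ℕ} (h : i = j → H j < F i) : 0 < gg F H i j := by
  unfold gg
  by_cases hij : i = j
  · have := h hij
    have h1 : 0 < (F i - H j) ^ 2 := by
      apply sq_pos_of_pos; linarith
    have h2 : 0 ≤ ((i : ℝ) - j) ^ 2 := sq_nonneg _
    linarith
  · have h1 : ((i : ℝ) - j) ≠ 0 := by
      intro h0
      apply hij
      exact_mod_cast sub_eq_zero.1 h0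
    have h2 : 0 < ((i : ℝ) - j) ^ 2 := by positivity
    have h3 : 0 ≤ (F i - H j) ^ 2 := sq_nonneg _
    linarith

lemma R_move (i j : ℕ) (q : Pt) (ε : ℝ) :
    R F H i j (q + ε • ((F i - H j, -((i : ℝ) - j)) : Pt)) = R F H i j q + ε * gg F H i j := by
  unfold R gg
  simp only [Prod.fst_add, Prod.snd_add, Prod.smul_fst, Prod.smul_snd, smul_eq_mul]
  ring

lemma exists_small {q : Pt} {s : Set Pt} (hq : q ∈ interior s) (d : Pt) :
    ∃ ε : ℝ, 0 < ε ∧ q + ε • d ∈ s ∧ q + (-ε) • d ∈ s := by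
  have hs : s ∈ 𝓝 q := mem_interior_iff_mem_nhds.1 hq
  have h1 : Tendsto (fun ε : ℝ => q + ε • d) (𝓝 0) (𝓝 q) := by
    have : Continuous (fun ε : ℝ => q + ε • d) := by fun_prop
    have h := this.tendsto 0
    simpa using h
  have h2 : Tendsto (fun ε : ℝ => q + (-ε) • d) (𝓝 0) (𝓝 q) := by
    have : Continuous (fun ε : ℝ => q + (-ε) • d) := by fun_prop
    have h := this.tendsto 0
    simpa using h
  have h3 := (h1 hs)
  have h4 := (h2 hs)
  have h5 : ∀ᶠ ε : ℝ in 𝓝 0, q + ε • d ∈ s ∧ q + (-ε) • d ∈ s := by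
    filter_upwards [h3, h4] with ε a b
    exact ⟨a, b⟩
  have h6 : ∀ᶠ ε : ℝ in 𝓝[>] 0, q + ε • d ∈ s ∧ q + (-ε) • d ∈ s :=
    h5.filter_mono nhdsWithin_le_nhds
  obtain ⟨ε, h7, h8⟩ := (h6.and self_mem_nhdsWithin).exists
  exact ⟨ε, h8, h7.1, h7.2⟩

lemma int_pos {i j : ℕ} {t : Finset Pt} (hij : i = j → H j < F i)
    (h : ∀ v ∈ t, 0 ≤ R F H i j v) : ∀ q ∈ interior (hull t), 0 < R F H i j q := by
  intro q hq
  obtain ⟨ε, h0, -, h2⟩ := exists_small hq ((F i - H j, -((i : ℝ) - j)) : Pt)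
  have h3 := hull_nonneg h _ h2
  rw [R_move] at h3
  have h4 := mul_pos h0 (gg_pos hij)
  linarith

lemma int_neg {i j : ℕ} {t : Finset Pt} (hij : i = j → H j < F i)
    (h : ∀ v ∈ t, R F H i j v ≤ 0) : ∀ q ∈ interior (hull t), R F H i j q < 0 := by
  intro q hq
  obtain ⟨ε, h0, h1, -⟩ := exists_small hq ((F i - H j, -((i : ℝ) - j)) : Pt)
  have h3 := hull_nonpos h _ h1
  rw [R_move] at h3
  have h4 := mul_pos h0 (gg_pos hij)
  linarith

/-- a nondegenerate triangle -/
lemma tri (p q r : Pt)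
    (hD : (q.1 - p.1) * (r.2 - p.2) - (q.2 - p.2) * (r.1 - p.1) ≠ 0) :
    ({p, q, r} : Finset Pt).card = 3 ∧ (interior (hull {p, q, r})).Nonempty := by
  constructor
  · rw [Finset.card_eq_three]
    refine ⟨p, q, r, ?_, ?_, ?_, rfl⟩
    · rintro rfl; apply hD; ring
    · rintro rfl; apply hD; ring
    · rintro rfl; apply hD; ring
  · unfold hull
    rw [interior_convexHull_nonempty_iff_affineSpan_eq_top]
    rw [eq_top_iff]
    intro x _
    set D := (q.1 - p.1) * (r.2 - p.2) - (q.2 - p.2) * (r.1 - p.1) with hDd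
    set α := ((x.1 - p.1) * (r.2 - p.2) - (x.2 - p.2) * (r.1 - p.1)) / D with hα
    set β := ((q.1 - p.1) * (x.2 - p.2) - (q.2 - p.2) * (x.1 - p.1)) / D with hβ
    have hp : p ∈ affineSpan ℝ ((({p, q, r} : Finset Pt)) : Set Pt) :=
      subset_affineSpan ℝ _ (by simp)
    have hq : q ∈ affineSpan ℝ ((({p, q, r} : Finset Pt)) : Set Pt) :=
      subset_affineSpan ℝ _ (by simp)
    have hr : r ∈ affineSpan ℝ ((({p, q, r} : Finset Pt)) : Set Pt) :=
      subset_affineSpan ℝ _ (by simp)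
    have h1 := AffineSubspace.smul_vsub_vadd_mem _ α hq hp hp
    have h2 := AffineSubspace.smul_vsub_vadd_mem _ β hr hp h1
    have h3 : x = β • (r -ᵥ p) +ᵥ (α • (q -ᵥ p) +ᵥ p) := by
      simp only [vsub_eq_sub, vadd_eq_add]
      ext
      · simp only [Prod.fst_add, Prod.smul_fst, Prod.fst_sub, smul_eq_mul, hα, hβ]
        field_simp
        rw [hDd]
        ring
      · simp only [Prod.snd_add, Prod.smul_snd, Prod.snd_sub, smul_eq_mul, hα, hβ]
        field_simp
        rw [hDd]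
        ring
    rw [h3]
    exact h2

end Disj

open Disj

theorem disj : DisjStmt := by
  intro F H b e hbe hFH hS
  -- weak sides
  have sFg : ∀ i j k, b ≤ i → i ≤ e → b ≤ j → j ≤ e → b ≤ k → k ≤ e → i ≤ k →
      0 ≤ R F H i j (pt F k) := by
    intro i j k h1 h2 h3 h4 h5 h6 h
    rcases h.eq_or_lt with h | h
    · subst h; rw [R_pt_F]
    · exact ((hS i j k h1 h2 h3 h4 h5 h6).1 h).le
  have sFl : ∀ i j k, b ≤ i → i ≤ e → b ≤ j → j ≤ e → b ≤ k → k ≤ e → k ≤ i →
      R F H i j (pt F k) ≤ 0 := by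
    intro i j k h1 h2 h3 h4 h5 h6 h
    rcases h.eq_or_lt with h | h
    · subst h; rw [R_pt_F]
    · exact ((hS i j k h1 h2 h3 h4 h5 h6).2.1 h).le
  have sHg : ∀ i j k, b ≤ i → i ≤ e → b ≤ j → j ≤ e → b ≤ k → k ≤ e → j ≤ k →
      0 ≤ R F H i j (pt H k) := by
    intro i j k h1 h2 h3 h4 h5 h6 h
    rcases h.eq_or_lt with h | h
    · subst h; rw [R_pt_H]
    · exact ((hS i j k h1 h2 h3 h4 h5 h6).2.2.1 h).le
  have sHl : ∀ i j k, b ≤ i → i ≤ e → b ≤ j → j ≤ e → b ≤ k → k ≤ e → k ≤ j →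
      R F H i j (pt H k) ≤ 0 := by
    intro i j k h1 h2 h3 h4 h5 h6 h
    rcases h.eq_or_lt with h | h
    · subst h; rw [R_pt_H]
    · exact ((hS i j k h1 h2 h3 h4 h5 h6).2.2.2 h).le
  have hne : ∀ i j, b ≤ i → i ≤ e → i = j → H j < F i := by
    intro i j h1 h2 h
    subst h
    exact hFH i h1 h2
  -- membership in the fan
  have hmem : ∀ t, t ∈ fanA F H b e ↔
      (∃ i, (b ≤ i ∧ i < e) ∧ {pt F i, pt F (i + 1), pt H b} = t) ∨
      (∃ j, (b ≤ j ∧ j < e) ∧ {pt H j, pt H (j + 1), pt F e} = t) := by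
    intro t
    unfold fanA
    simp only [Finset.mem_union, Finset.mem_image, Finset.mem_Ico]
  -- strict signs in the interiors of the triangles `A i`
  have hA1 : ∀ i k, b ≤ i → i < e → b ≤ k → k ≤ i →
      ∀ q ∈ interior (hull {pt F i, pt F (i + 1), pt H b}), 0 < R F H k b q := by
    intro i k h1 h2 h3 h4
    refine int_pos (hne k b h3 (by omega)) ?_
    intro v hv
    simp only [Finset.mem_insert, Finset.mem_singleton] at hv
    rcases hv with rfl | rfl | rfl
    · exact sFg k b i h3 (by omega) le_rfl hbe.le h1 h2.le h4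
    · exact sFg k b (i + 1) h3 (by omega) le_rfl hbe.le (by omega) (by omega) (by omega)
    · rw [R_pt_H]
  have hA2 : ∀ i k, b ≤ i → i < e → i < k → k ≤ e →
      ∀ q ∈ interior (hull {pt F i, pt F (i + 1), pt H b}), R F H k b q < 0 := by
    intro i k h1 h2 h3 h4
    refine int_neg (hne k b (by omega) h4) ?_
    intro v hv
    simp only [Finset.mem_insert, Finset.mem_singleton] at hv
    rcases hv with rfl | rfl | rfl
    · exact sFl k b i (by omega) h4 le_rfl hbe.le h1 h2.le (by omega)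
    · exact sFl k b (i + 1) (by omega) h4 le_rfl hbe.le (by omega) (by omega) (by omega)
    · rw [R_pt_H]
  have hB1 : ∀ j k, b ≤ j → j < e → b ≤ k → k ≤ j →
      ∀ q ∈ interior (hull {pt H j, pt H (j + 1), pt F e}), 0 < R F H e k q := by
    intro j k h1 h2 h3 h4
    refine int_pos (hne e k hbe.le le_rfl) ?_
    intro v hv
    simp only [Finset.mem_insert, Finset.mem_singleton] at hv
    rcases hv with rfl | rfl | rfl
    · exact sHg e k j hbe.le le_rfl h3 (by omega) h1 h2.le h4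
    · exact sHg e k (j + 1) hbe.le le_rfl h3 (by omega) (by omega) (by omega) (by omega)
    · rw [R_pt_F]
  have hB2 : ∀ j k, b ≤ j → j < e → j < k → k ≤ e →
      ∀ q ∈ interior (hull {pt H j, pt H (j + 1), pt F e}), R F H e k q < 0 := by
    intro j k h1 h2 h3 h4
    refine int_neg (hne e k hbe.le le_rfl) ?_
    intro v hv
    simp only [Finset.mem_insert, Finset.mem_singleton] at hv
    rcases hv with rfl | rfl | rfl
    · exact sHl e k j hbe.le le_rfl (by omega) h4 h1 h2.le (by omega)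
    · exact sHl e k (j + 1) hbe.le le_rfl (by omega) h4 (by omega) (by omega) (by omega)
    · rw [R_pt_F]
  refine ⟨?_, ?_, ?_⟩
  · intro t ht
    rw [hmem] at ht
    rcases ht with ⟨i, ⟨h1, h2⟩, rfl⟩ | ⟨j, ⟨h1, h2⟩, rfl⟩
    · have hR := (hS i b (i + 1) h1 h2.le le_rfl hbe.le (by omega) (by omega)).1 (by omega)
      have := tri (pt F i) (pt F (i + 1)) (pt H b) (by
        intro h0
        apply hR.ne
        rw [← neg_zero, ← h0]
        unfold R pt
        push_cast
        ring)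
      refine ⟨this.1, this.2, ?_⟩
      intro v hv
      unfold vset
      simp only [Finset.mem_insert, Finset.mem_singleton] at hv
      simp only [Finset.mem_union, Finset.mem_image, Finset.mem_Icc]
      rcases hv with rfl | rfl | rfl
      · exact Or.inl ⟨i, ⟨h1, h2.le⟩, rfl⟩
      · exact Or.inl ⟨i + 1, ⟨by omega, by omega⟩, rfl⟩
      · exact Or.inr ⟨b, ⟨le_rfl, hbe.le⟩, rfl⟩
    · have hR := (hS e j (j + 1) hbe.le le_rfl h1 h2.le (by omega) (by omega)).2.2.1 (by omega)
      have := tri (pt H j) (pt H (j + 1)) (pt F e) (by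
        intro h0
        apply hR.ne
        rw [← h0]
        unfold R pt
        push_cast
        ring)
      refine ⟨this.1, this.2, ?_⟩
      intro v hv
      unfold vset
      simp only [Finset.mem_insert, Finset.mem_singleton] at hv
      simp only [Finset.mem_union, Finset.mem_image, Finset.mem_Icc]
      rcases hv with rfl | rfl | rfl
      · exact Or.inr ⟨j, ⟨h1, h2.le⟩, rfl⟩
      · exact Or.inr ⟨j + 1, ⟨by omega, by omega⟩, rfl⟩
      · exact Or.inl ⟨e, ⟨hbe.le, le_rfl⟩, rfl⟩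
  · -- disjointness
    have dAA : ∀ i i', b ≤ i → i < e → b ≤ i' → i' < e → i < i' →
        Disjoint (interior (hull {pt F i, pt F (i + 1), pt H b}))
          (interior (hull {pt F i', pt F (i' + 1), pt H b})) := by
      intro i i' h1 h2 h3 h4 h
      rw [Set.disjoint_left]
      intro q hq hq'
      have a := hA2 i (i + 1) h1 h2 (by omega) (by omega) q hq
      have a' := hA1 i' (i + 1) h3 h4 (by omega) (by omega) q hq'
      linarith
    have dBB : ∀ i i', b ≤ i → i < e → b ≤ i' → i' < e → i < i' →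
        Disjoint (interior (hull {pt H i, pt H (i + 1), pt F e}))
          (interior (hull {pt H i', pt H (i' + 1), pt F e})) := by
      intro i i' h1 h2 h3 h4 h
      rw [Set.disjoint_left]
      intro q hq hq'
      have a := hB2 i (i + 1) h1 h2 (by omega) (by omega) q hq
      have a' := hB1 i' (i + 1) h3 h4 (by omega) (by omega) q hq'
      linarith
    have dAB : ∀ i j, b ≤ i → i < e → b ≤ j → j < e →
        Disjoint (interior (hull {pt F i, pt F (i + 1), pt H b}))
          (interior (hull {pt H j, pt H (j + 1), pt F e})) := by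
      intro i j h1 h2 h3 h4
      rw [Set.disjoint_left]
      intro q hq hq'
      have a := hA2 i e h1 h2 h2 le_rfl q hq
      have a' := hB1 j b h3 h4 le_rfl h3 q hq'
      linarith
    intro t ht t' ht' hne'
    rw [hmem] at ht ht'
    rcases ht with ⟨i, ⟨h1, h2⟩, rfl⟩ | ⟨j, ⟨h1, h2⟩, rfl⟩ <;>
    rcases ht' with ⟨i', ⟨h3, h4⟩, rfl⟩ | ⟨j', ⟨h3, h4⟩, rfl⟩
    · rcases lt_trichotomy i i' with h | h | h
      · exact dAA i i' h1 h2 h3 h4 h
      · subst h; exact absurd rfl hne'
      · exact (dAA i' i h3 h4 h1 h2 h).symm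
    · exact dAB i j' h1 h2 h3 h4
    · exact (dAB i' j h3 h4 h1 h2).symm
    · rcases lt_trichotomy j j' with h | h | h
      · exact dBB j j' h1 h2 h3 h4 h
      · subst h; exact absurd rfl hne'
      · exact (dBB j' j h3 h4 h1 h2 h).symm
  · intro t ht s hs hst
    rw [hmem] at ht
    unfold vset at hs
    simp only [Finset.mem_union, Finset.mem_image, Finset.mem_Icc] at hs
    rcases ht with ⟨i, ⟨h1, h2⟩, rfl⟩ | ⟨j, ⟨h1, h2⟩, rfl⟩
    · rcases hs with ⟨k, ⟨h3, h4⟩, rfl⟩ | ⟨k, ⟨h3, h4⟩, rfl⟩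
      · rcases Nat.lt_or_ge i k with h | h
        · have a := hA2 i (i + 1) h1 h2 (by omega) (by omega) _ hst
          have a' := sFg (i + 1) b k (by omega) (by omega) le_rfl hbe.le h3 h4 h
          linarith
        · have a := hA1 i i h1 h2 h1 le_rfl _ hst
          have a' := sFl i b k h1 h2.le le_rfl hbe.le h3 h4 h
          linarith
      · have a := hA2 i (i + 1) h1 h2 (by omega) (by omega) _ hst
        have a' := sHg (i + 1) b k (by omega) (by omega) le_rfl hbe.le h3 h4 h3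
        linarith
    · rcases hs with ⟨k, ⟨h3, h4⟩, rfl⟩ | ⟨k, ⟨h3, h4⟩, rfl⟩
      · have a := hB1 j j h1 h2 h1 le_rfl _ hst
        have a' := sFl e j k hbe.le le_rfl h1 h2.le h3 h4 h4
        linarith
      · rcases Nat.lt_or_ge j k with h | h
        · have a := hB2 j (j + 1) h1 h2 (by omega) (by omega) _ hst
          have a' := sHg e (j + 1) k hbe.le le_rfl (by omega) (by omega) h3 h4 h
          linarith
        · have a := hB1 j j h1 h2 h1 le_rfl _ hst
          have a' := sHl e j k hbe.le le_rfl h1 h2.le h3 h4 h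
          linarith

end Pool.Agent.R98.FL
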