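import Pool.Agent.R98.FL.Stm

/-! B4: the second fan by reflection -/

namespace Pool.Agent.R98.FL

open Set Filter

/-- the reflection `(x, y) ↦ (x, -y)` -/
noncomputable def rho : Pt ≃L[ℝ] Pt :=
  (ContinuousLinearEquiv.refl ℝ ℝ).prodCongr (ContinuousLinearEquiv.neg ℝ)

theorem rho_apply (q : Pt) : rho q = (q.1, -q.2) := rfl

theorem rho_inj : Function.Injective (fun q : Pt => rho q) := rho.injective

open Classical in
theorem hull_rho (t : Finset Pt) : hull (t.image (fun q => rho q)) = (fun q => rho q) '' hull t := by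
  unfold hull
  rw [Finset.coe_image]
  exact ((rho.toLinearEquiv.toLinearMap).image_convexHull (t : Set Pt)).symm

theorem int_rho (A : Set Pt) : interior ((fun q => rho q) '' A) = (fun q => rho q) '' interior A :=
  (rho.toHomeomorph.image_interior A).symm

open Classical in
theorem tri_rho (P : Set Pt) (S : Finset Pt) (T : Finset (Finset Pt)) (h : IsTriangulation P S T) :
    IsTriangulation ((fun q => rho q) '' P) (S.image (fun q => rho q))
      (T.image (fun t => t.image (fun q => rho q))) := by
  constructor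
  · intro t ht
    obtain ⟨u, hu, rfl⟩ := Finset.mem_image.mp ht
    rw [Finset.card_image_of_injective _ rho_inj]
    exact h.card u hu
  · intro t ht
    obtain ⟨u, hu, rfl⟩ := Finset.mem_image.mp ht
    rw [hull_rho, int_rho]
    exact (h.nondeg u hu).image _
  · intro t ht
    obtain ⟨u, hu, rfl⟩ := Finset.mem_image.mp ht
    exact Finset.image_subset_image (h.verts u hu)
  · intro t ht t' ht' hne
    obtain ⟨u, hu, rfl⟩ := Finset.mem_image.mp ht
    obtain ⟨u', hu', rfl⟩ := Finset.mem_image.mp ht'
    rw [hull_rho, hull_rho, int_rho, int_rho]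
    apply (Set.disjoint_image_iff rho_inj).mpr
    exact h.disj u hu u' hu' (fun e => hne (by rw [e]))
  · rw [← h.union, Set.image_iUnion₂]
    ext q
    simp only [mem_iUnion]
    constructor
    · rintro ⟨t, ht, hq⟩
      obtain ⟨u, hu, rfl⟩ := Finset.mem_image.mp ht
      rw [hull_rho] at hq
      exact ⟨u, hu, hq⟩
    · rintro ⟨u, hu, hq⟩
      refine ⟨u.image (fun q => rho q), Finset.mem_image_of_mem _ hu, ?_⟩
      rw [hull_rho]
      exact hq
  · intro t ht s hs
    obtain ⟨u, hu, rfl⟩ := Finset.mem_image.mp ht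
    obtain ⟨s', hs', rfl⟩ := Finset.mem_image.mp hs
    rw [hull_rho, int_rho]
    rintro ⟨x, hx, hxs⟩
    have : x = s' := rho_inj hxs
    subst this
    exact h.empty u hu x hs' hx

theorem R_rho (F H : ℕ → ℝ) (i j : ℕ) (x y : ℝ) :
    R (fun k => -H k) (fun k => -F k) i j (x, y) = R F H j i (x, -y) := by
  unfold R
  simp only
  ring

theorem side_rho (F H : ℕ → ℝ) (b e : ℕ) (h : Side F H b e) :
    Side (fun k => -H k) (fun k => -F k) b e := by
  intro i j k h1 h2 h3 h4 h5 h6
  obtain ⟨a1, a2, a3, a4⟩ := h j i k h3 h4 h1 h2 h5 h6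
  have e1 : R (fun k => -H k) (fun k => -F k) i j (pt (fun k => -H k) k) =
      R F H j i (pt H k) := by
    unfold pt
    rw [R_rho, neg_neg]
  have e2 : R (fun k => -H k) (fun k => -F k) i j (pt (fun k => -F k) k) =
      R F H j i (pt F k) := by
    unfold pt
    rw [R_rho, neg_neg]
  rw [e1, e2]
  exact ⟨a3, a4, a1, a2⟩

theorem rho_pt (F : ℕ → ℝ) (k : ℕ) : rho (pt (fun k => -F k) k) = pt F k := by
  rw [rho_apply]
  simp [pt]

theorem reg_rho (F H : ℕ → ℝ) (b e : ℕ) :
    (fun q => rho q) '' reg (fun k => -H k) (fun k => -F k) b e = reg F H b e := by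
  ext q
  constructor
  · rintro ⟨x, ⟨k, hk1, hk2, a1, a2, a3, a4⟩, rfl⟩
    refine ⟨k, hk1, hk2, a1, a2, ?_, ?_⟩
    · change H k + (x.1 - k) * (H (k + 1) - H k) ≤ -x.2
      linarith
    · change -x.2 ≤ F k + (x.1 - k) * (F (k + 1) - F k)
      linarith
  · rintro ⟨k, hk1, hk2, a1, a2, a3, a4⟩
    refine ⟨(q.1, -q.2), ⟨k, hk1, hk2, a1, a2, ?_, ?_⟩, ?_⟩
    · change -F k + (q.1 - k) * (-F (k + 1) - -F k) ≤ -q.2
      linarith
    · change -q.2 ≤ -H k + (q.1 - k) * (-H (k + 1) - -H k)
      linarith
    · change rho (q.1, -q.2) = q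
      rw [rho_apply]
      simp

open Classical in
theorem vset_rho (F H : ℕ → ℝ) (b e : ℕ) :
    (vset (fun k => -H k) (fun k => -F k) b e).image (fun q => rho q) = vset F H b e := by
  unfold vset
  rw [Finset.image_union, Finset.image_image, Finset.image_image, Finset.union_comm]
  congr 1
  · apply Finset.image_congr
    intro k _
    exact rho_pt F k
  · apply Finset.image_congr
    intro k _
    exact rho_pt H k

open Classical in
theorem fan_rho (F H : ℕ → ℝ) (b e : ℕ) :
    (fanA (fun k => -H k) (fun k => -F k) b e).image (fun t => t.image (fun q => rho q)) =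
      fanB F H b e := by
  unfold fanA fanB
  rw [Finset.image_union, Finset.image_image, Finset.image_image, Finset.union_comm]
  congr 1
  · apply Finset.image_congr
    intro k _
    simp only [Function.comp, Finset.image_insert, Finset.image_singleton, rho_pt]
  · apply Finset.image_congr
    intro k _
    simp only [Function.comp, Finset.image_insert, Finset.image_singleton, rho_pt]

theorem fanB_tri (hA : FanAStmt) : FanBStmt := by
  classical
  intro F H b e hbe hFH hS
  have h1 := hA (fun k => -H k) (fun k => -F k) b e hbe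
    (fun i hi1 hi2 => neg_lt_neg (hFH i hi1 hi2)) (side_rho F H b e hS)
  have h2 := tri_rho _ _ _ h1
  rw [reg_rho, vset_rho, fan_rho] at h2
  exact h2

end Pool.Agent.R98.FL
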