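import Pool.Agent.R98.FL.Stm

set_option autoImplicit false

namespace Pool.Agent.R98.FL

open Set

namespace FB4

/-- reflection -/
noncomputable def rho : Pt ≃L[ℝ] Pt :=
  (ContinuousLinearEquiv.refl ℝ ℝ).prodCongr (ContinuousLinearEquiv.neg ℝ)

theorem rho_apply (q : Pt) : rho q = (q.1, -q.2) := rfl

theorem rho_rho (q : Pt) : rho (rho q) = q := by
  rw [rho_apply, rho_apply]; simp

theorem hull_image (t : Finset Pt) : hull (t.image rho) = rho '' hull t := by
  unfold hull
  rw [Finset.coe_image]
  exact (rho.toLinearEquiv.toLinearMap.image_convexHull (t : Set Pt)).symm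

theorem int_image (s : Set Pt) : interior (rho '' s) = rho '' interior s :=
  (rho.toHomeomorph.image_interior s).symm

theorem transport {P : Set Pt} {S : Finset Pt} {T : Finset (Finset Pt)}
    (h : IsTriangulation P S T) :
    IsTriangulation (rho '' P) (S.image rho) (T.image (Finset.image rho)) := by
  have hinj : Function.Injective rho := rho.injective
  constructor
  · intro t ht
    obtain ⟨t', ht', rfl⟩ := Finset.mem_image.1 ht
    rw [Finset.card_image_of_injective _ hinj]
    exact h.card _ ht'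
  · intro t ht
    obtain ⟨t', ht', rfl⟩ := Finset.mem_image.1 ht
    rw [hull_image, int_image]
    exact (h.nondeg _ ht').image _
  · intro t ht
    obtain ⟨t', ht', rfl⟩ := Finset.mem_image.1 ht
    exact Finset.image_subset_image (h.verts _ ht')
  · intro t ht s hs hne
    obtain ⟨t', ht', rfl⟩ := Finset.mem_image.1 ht
    obtain ⟨s', hs', rfl⟩ := Finset.mem_image.1 hs
    rw [hull_image, hull_image, int_image, int_image, disjoint_image_iff hinj]
    exact h.disj _ ht' _ hs' (fun hh => hne (by rw [hh]))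
  · ext q
    simp only [mem_iUnion, Finset.mem_image, exists_prop]
    constructor
    · rintro ⟨t, ⟨t', ht', rfl⟩, hq⟩
      rw [hull_image] at hq
      obtain ⟨z, hz, rfl⟩ := hq
      refine ⟨z, ?_, rfl⟩
      rw [← h.union]
      exact mem_iUnion₂.2 ⟨t', ht', hz⟩
    · rintro ⟨z, hz, rfl⟩
      rw [← h.union] at hz
      obtain ⟨t', ht', hz⟩ := mem_iUnion₂.1 hz
      refine ⟨_, ⟨t', ht', rfl⟩, ?_⟩
      rw [hull_image]
      exact ⟨z, hz, rfl⟩
  · intro t ht s hs hmem
    obtain ⟨t', ht', rfl⟩ := Finset.mem_image.1 ht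
    obtain ⟨s', hs', rfl⟩ := Finset.mem_image.1 hs
    rw [hull_image, int_image] at hmem
    obtain ⟨z, hz, hzs⟩ := hmem
    rw [hinj hzs] at hz
    exact h.empty _ ht' _ hs' hz

theorem rho_pt (F : ℕ → ℝ) (i : ℕ) : rho (pt (fun i => - F i) i) = pt F i := by
  rw [rho_apply]; simp [pt]

theorem reg_image (F H : ℕ → ℝ) (b e : ℕ) :
    rho '' reg (fun i => - H i) (fun i => - F i) b e = reg F H b e := by
  ext q
  constructor
  · rintro ⟨z, ⟨k, h1, h2, h3, h4, h5, h6⟩, rfl⟩
    refine ⟨k, h1, h2, ?_⟩
    rw [rho_apply]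
    refine ⟨h3, h4, ?_, ?_⟩
    · show H k + (z.1 - k) * (H (k + 1) - H k) ≤ -z.2
      linarith
    · show -z.2 ≤ F k + (z.1 - k) * (F (k + 1) - F k)
      linarith
  · rintro ⟨k, h1, h2, h3, h4, h5, h6⟩
    refine ⟨rho q, ⟨k, h1, h2, ?_⟩, rho_rho q⟩
    rw [rho_apply]
    refine ⟨h3, h4, ?_, ?_⟩
    · show - F k + (q.1 - k) * (- F (k + 1) - - F k) ≤ -q.2
      linarith
    · show -q.2 ≤ - H k + (q.1 - k) * (- H (k + 1) - - H k)
      linarith

theorem vset_image (F H : ℕ → ℝ) (b e : ℕ) :
    (vset (fun i => - H i) (fun i => - F i) b e).image rho = vset F H b e := by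
  unfold vset
  rw [Finset.image_union, Finset.image_image, Finset.image_image, Finset.union_comm]
  congr 1
  · refine Finset.image_congr ?_
    intro i _
    exact rho_pt F i
  · refine Finset.image_congr ?_
    intro i _
    exact rho_pt H i

theorem fan_image (F H : ℕ → ℝ) (b e : ℕ) :
    (fanA (fun i => - H i) (fun i => - F i) b e).image (Finset.image rho) = fanB F H b e := by
  unfold fanA fanB
  rw [Finset.image_union, Finset.image_image, Finset.image_image, Finset.union_comm]
  congr 1
  · refine Finset.image_congr ?_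
    intro i _
    simp only [Function.comp, Finset.image_insert, Finset.image_singleton, rho_pt]
  · refine Finset.image_congr ?_
    intro i _
    simp only [Function.comp, Finset.image_insert, Finset.image_singleton, rho_pt]

theorem R_refl (F H : ℕ → ℝ) (i j : ℕ) (q : Pt) :
    R (fun i => - H i) (fun i => - F i) i j q = R F H j i (rho q) := by
  rw [rho_apply]
  unfold R
  simp only
  ring

theorem pt_neg (F : ℕ → ℝ) (k : ℕ) : rho (pt (fun i => - F i) k) = pt F k := rho_pt F k

theorem side_refl (F H : ℕ → ℝ) (b e : ℕ) (h : Side F H b e) :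
    Side (fun i => - H i) (fun i => - F i) b e := by
  intro i j k h1 h2 h3 h4 h5 h6
  obtain ⟨a1, a2, a3, a4⟩ := h j i k h3 h4 h1 h2 h5 h6
  rw [R_refl, R_refl, rho_pt, rho_pt]
  exact ⟨a3, a4, a1, a2⟩

end FB4

theorem fanB4 (hA : FanAStmt) : FanBStmt := by
  intro F H b e hbe hFH hS
  have h := FB4.transport (hA (fun i => - H i) (fun i => - F i) b e hbe
    (fun i h1 h2 => neg_lt_neg (hFH i h1 h2)) (FB4.side_refl F H b e hS))
  rwa [FB4.reg_image, FB4.vset_image, FB4.fan_image] at h

end Pool.Agent.R98.FL
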