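import Pool.Agent.R98.FL.Stm

set_option autoImplicit false

namespace Pool.Agent.R98.FL

open Set Filter

theorem fanA_full (hI : InsideStmt) (hC : CoverStmt) (hD : DisjStmt) : FanAStmt := by
  intro F H b e hbe hFH hS
  obtain ⟨h1, h2, h3⟩ := hD F H b e hbe hFH hS
  refine ⟨fun t ht => (h1 t ht).1, fun t ht => (h1 t ht).2.1, fun t ht => (h1 t ht).2.2, h2, ?_, h3⟩
  refine Set.Subset.antisymm ?_ (hC F H b e hbe hFH hS)
  intro q hq
  simp only [mem_iUnion] at hq
  obtain ⟨t, ht, hq⟩ := hq
  exact hI F H b e hbe hFH hS t ht hq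

theorem final (hSi : SimpleStmt) (hCp : CptStmt) (hFr : FrontStmt) (hV : VimgStmt)
    (hA : FanAStmt) (hB : FanBStmt) (hG : GlueStmt) (hC : ConcStmt) (hCh : ChainStmt)
    (hIn : InsStmt) (hGF : GoodFanStmt) : FinalStmt := by
  intro k hk C
  -- block length
  obtain ⟨s, hs⟩ := exists_nat_gt (max 2 (16 * |C|))
  have hs2 : 2 ≤ s := by
    have : (2 : ℝ) < s := lt_of_le_of_lt (le_max_left _ _) hs
    exact_mod_cast this.le
  have hsC : 16 * |C| < (s : ℝ) := lt_of_le_of_lt (le_max_right _ _) hs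
  have hs0 : (0 : ℝ) < s := by positivity
  have hsr : (2 : ℝ) ≤ s := by exact_mod_cast hs2
  -- number of blocks
  have h1 := hk.def (c := 1 / (16 * s)) (by positivity)
  rw [eventually_atTop] at h1
  obtain ⟨N, hN⟩ := h1
  set G : ℕ := max N 1 with hGdef
  have hG1 : 1 ≤ G := le_max_right _ _
  have hG1r : (1 : ℝ) ≤ G := by exact_mod_cast hG1
  set n : ℕ := 2 * (G * s) + 2 with hn
  have hnN : N ≤ n := by
    have h : N ≤ G := le_max_left _ _
    have h' : G ≤ G * s := Nat.le_mul_of_pos_right _ (by omega)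
    omega
  have hkn : k n ≤ (G : ℝ) / 4 := by
    have h2 := hN n hnN
    rw [Real.norm_eq_abs, Real.norm_eq_abs, abs_of_nonneg (Nat.cast_nonneg n : (0 : ℝ) ≤ n)] at h2
    refine (le_abs_self _).trans (h2.trans ?_)
    rw [hn]
    push_cast
    rw [div_mul_eq_mul_div, div_le_iff₀ (by positivity)]
    nlinarith
  obtain ⟨hc1, hc2, hc3, hc4⟩ := hC s hs2
  have hM1 : 1 ≤ G * s := Nat.mul_pos hG1 (by omega)
  have hHF : ∀ i ≤ G * s, HH s i < FF s i := fun i _ => hc1 i
  have hbl : ∀ g, g * s < (g + 1) * s := by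
    intro g
    have : (g + 1) * s = g * s + s := by ring
    omega
  refine ⟨n, vtx (FF s) (HH s) (G * s), PP s G,
    (Finset.range G).biUnion (fun g => fanA (FF s) (HH s) (g * s) ((g + 1) * s)),
    (Finset.range G).biUnion (fun g => fanB (FF s) (HH s) (g * s) ((g + 1) * s)), ?_, ?_, ?_, ?_⟩
  · obtain ⟨ha, hb⟩ := hSi (FF s) (HH s) (G * s) hM1 hHF
    obtain ⟨hc, hd⟩ := hCp (FF s) (HH s) (G * s) hM1 hHF
    exact ⟨by omega, ha, hb, hc, hd, hFr (FF s) (HH s) (G * s) hM1 hHF⟩
  · rw [hV]
    exact hG _ _ s G _ (by omega) hG1 hHF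
      (fun g _ => hA _ _ _ _ (hbl g) (fun i _ _ => hc1 i) (hc2 g))
  · rw [hV]
    exact hG _ _ s G _ (by omega) hG1 hHF
      (fun g _ => hB _ _ _ _ (hbl g) (fun i _ _ => hc1 i) (hc2 g))
  · intro m S' T1' T2' hm hins l hl
    rw [hV] at hins
    obtain ⟨X, B, hX, hB1, hB2, hB3⟩ := hIn s G m S' _ _ T1' T2' (fun i => (i / s) * s)
      (fun i => (i / s + 1) * s) hs2 hG1 (by
        intro g hg i hi1 hi2
        have hdiv : i / s = g := by
          rw [Nat.div_eq_iff (by omega)]
          have : (g + 1) * s = g * s + s := by ring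
          constructor <;> omega
        have h := hGF s G hs2 hG1 g hg i hi1 hi2
        simp only [hdiv]
        exact ⟨⟨le_rfl, (hbl g).le, h.1⟩, ⟨(hbl g).le, le_rfl, h.2⟩⟩) hins
    -- the bases
    set E : Finset ℕ := B.biUnion (fun g => Finset.Ico (g * s) ((g + 1) * s)) with hE
    have hEdiv : ∀ g i, i ∈ Finset.Ico (g * s) ((g + 1) * s) → i / s = g := by
      intro g i hi
      rw [Finset.mem_Ico] at hi
      rw [Nat.div_eq_iff (by omega)]
      have : (g + 1) * s = g * s + s := by ring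
      constructor <;> omega
    have hEmem : ∀ i ∈ E, i / s ∈ B ∧ (i / s) * s ≤ i ∧ i < (i / s + 1) * s := by
      intro i hi
      rw [hE, Finset.mem_biUnion] at hi
      obtain ⟨g, hg, hi⟩ := hi
      have := hEdiv g i hi
      rw [this]
      rw [Finset.mem_Ico] at hi
      exact ⟨hg, hi.1, hi.2⟩
    have hEcard : E.card = B.card * s := by
      rw [hE, Finset.card_biUnion]
      · simp only [Nat.card_Ico]
        rw [Finset.sum_const_nat (m := s)]
        intro g _
        have : (g + 1) * s = g * s + s := by ring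
        omega
      · intro g _ g' _ hgg'
        rw [Function.onFun, Finset.disjoint_left]
        intro i hi hi'
        exact hgg' ((hEdiv g i hi).symm.trans (hEdiv g' i hi'))
    obtain ⟨J', hJ1, hJ2⟩ := hCh s G S' X E T1' T2' l (fun i => (i / s) * s) hs2 hX
      (fun i hi => ⟨(hB1 _ (hEmem i hi).1).1, (hB1 _ (hEmem i hi).1).2⟩)
      (fun i hi => ⟨le_rfl, (hbl _).le,
        (hB3 _ (hEmem i hi).1 i (hEmem i hi).2.1 (hEmem i hi).2.2).1⟩) hl
    -- J' is determined
    have hJ' : ∀ i ∈ E, J' i = (i / s + 1) * s := by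
      intro i hi
      have h2 := (hB3 _ (hEmem i hi).1 i (hEmem i hi).2.1 (hEmem i hi).2.2).2
      have h3 := hJ1 i hi
      have h4 : ({pt (FF s) i, pt (FF s) (i + 1), pt (HH s) (J' i)} : Finset Pt) =
          {pt (FF s) i, pt (FF s) (i + 1), pt (HH s) ((i / s + 1) * s)} :=
        (h2 _).1 ((h3 _).2 rfl)
      have h5 : pt (HH s) (J' i) ∈
          ({pt (FF s) i, pt (FF s) (i + 1), pt (HH s) ((i / s + 1) * s)} : Finset Pt) := by
        rw [← h4]; simp
      have hne : ∀ a b, pt (HH s) a ≠ pt (FF s) b := by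
        intro a b hab
        have h6 : (a : ℝ) = b := congrArg Prod.fst hab
        have h7 : a = b := by exact_mod_cast h6
        subst h7
        have h8 : HH s a = FF s a := congrArg Prod.snd hab
        exact absurd h8 (hc1 a).ne
      simp only [Finset.mem_insert, Finset.mem_singleton] at h5
      rcases h5 with h5 | h5 | h5
      · exact absurd h5 (hne _ _)
      · exact absurd h5 (hne _ _)
      · have h6 : ((J' i : ℕ) : ℝ) = (((i / s + 1) * s : ℕ) : ℝ) := congrArg Prod.fst h5
        exact_mod_cast h6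
    have hsum : ∑ i ∈ E, |((J' i : ℕ) : ℤ) - (((i / s) * s : ℕ) : ℤ)| = (B.card : ℤ) * s * s := by
      rw [Finset.sum_congr rfl (g := fun _ => (s : ℤ)) (by
        intro i hi
        rw [hJ' i hi]
        have : (((i / s + 1) * s : ℕ) : ℤ) - (((i / s) * s : ℕ) : ℤ) = s := by push_cast; ring
        rw [this]
        exact abs_of_nonneg (by positivity))]
      rw [Finset.sum_const, hEcard]
      push_cast
      rw [nsmul_eq_mul]
      push_cast
      ring
    rw [hsum] at hJ2
    have hJ3 : (B.card : ℝ) * s * s ≤ 2 * l := by exact_mod_cast hJ2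
    have hB4 : (G : ℝ) ≤ B.card + 2 * m := by exact_mod_cast hB2
    have hB5 : (G : ℝ) / 2 ≤ B.card := by linarith
    have h6 : (G : ℝ) * s * s ≤ 4 * l := by
      have : (G : ℝ) / 2 * (s * s) ≤ B.card * (s * s) := mul_le_mul_of_nonneg_right hB5 (by positivity)
      nlinarith
    have h7 : (n : ℝ) ≤ 4 * G * s := by
      rw [hn]; push_cast; nlinarith
    have h8 : C * n ≤ |C| * (4 * G * s) :=
      (mul_le_mul_of_nonneg_right (le_abs_self C) (by positivity)).trans
        (mul_le_mul_of_nonneg_left h7 (abs_nonneg C))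
    have h9 : |C| * (4 * G * s) < (l : ℝ) := by
      have h10 : 16 * |C| * (G * s) < s * (G * s) := mul_lt_mul_of_pos_right hsC (by positivity)
      nlinarith
    linarith

end Pool.Agent.R98.FL
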