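import Pool.Agent.R98.FL.Stm

/-! B5: gluing blocks. -/

namespace Pool.Agent.R98.FL

open Set Filter

namespace GlueAux

theorem reg_strip (F H : ℕ → ℝ) (b e : ℕ) :
    reg F H b e ⊆ Prod.fst ⁻¹' (Set.Icc (b : ℝ) (e : ℝ)) := by
  rintro q ⟨k, hb, he, h1, h2, -, -⟩
  have h3 : (b : ℝ) ≤ k := by exact_mod_cast hb
  have h4 : (k : ℝ) + 1 ≤ e := by exact_mod_cast he
  exact ⟨by linarith, by linarith⟩

theorem hull_sub {P : Set Pt} {S : Finset Pt} {T : Finset (Finset Pt)}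
    (h : IsTriangulation P S T) {t : Finset Pt} (ht : t ∈ T) : hull t ⊆ P := by
  rw [← h.union]
  exact Set.subset_biUnion_of_mem (u := fun t : Finset Pt => hull t) ht

theorem int_sub (F H : ℕ → ℝ) (b e : ℕ) {S : Finset Pt} {T : Finset (Finset Pt)}
    (h : IsTriangulation (reg F H b e) S T) {t : Finset Pt} (ht : t ∈ T) {q : Pt}
    (hq : q ∈ interior (hull t)) : (b : ℝ) < q.1 ∧ q.1 < e := by
  have h1 : interior (hull t) ⊆ interior (Prod.fst ⁻¹' (Set.Icc (b : ℝ) (e : ℝ)) : Set Pt) :=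
    interior_mono ((hull_sub h ht).trans (reg_strip F H b e))
  have h2 : interior (Prod.fst ⁻¹' (Set.Icc (b : ℝ) (e : ℝ)) : Set Pt) =
      Prod.fst ⁻¹' (interior (Set.Icc (b : ℝ) (e : ℝ))) :=
    (isOpenMap_fst.preimage_interior_eq_interior_preimage continuous_fst _).symm
  rw [h2, interior_Icc] at h1
  exact h1 hq

theorem vset_mono (F H : ℕ → ℝ) {b e b' e' : ℕ} (hb : b' ≤ b) (he : e ≤ e') :
    vset F H b e ⊆ vset F H b' e' := by
  unfold vset
  exact Finset.union_subset_union (Finset.image_subset_image (Finset.Icc_subset_Icc hb he))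
    (Finset.image_subset_image (Finset.Icc_subset_Icc hb he))

theorem mem_vset (F H : ℕ → ℝ) {b e : ℕ} {x : Pt} (hx : x ∈ vset F H b e) :
    ∃ i : ℕ, b ≤ i ∧ i ≤ e ∧ x.1 = (i : ℝ) ∧ (x = pt F i ∨ x = pt H i) := by
  unfold vset at hx
  rw [Finset.mem_union, Finset.mem_image, Finset.mem_image] at hx
  rcases hx with ⟨i, hi, rfl⟩ | ⟨i, hi, rfl⟩ <;> rw [Finset.mem_Icc] at hi
  · exact ⟨i, hi.1, hi.2, rfl, Or.inl rfl⟩
  · exact ⟨i, hi.1, hi.2, rfl, Or.inr rfl⟩

theorem lt_blk (k s : ℕ) (hs : 1 ≤ s) : k < (k / s + 1) * s := by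
  have h1 := Nat.div_add_mod k s
  have h2 := Nat.mod_lt k (show 0 < s by omega)
  calc k = s * (k / s) + k % s := h1.symm
    _ < s * (k / s) + s := by omega
    _ = (k / s + 1) * s := by ring

end GlueAux

open GlueAux in
theorem glue : GlueStmt := by
  intro F H s G T hs hG hFH hT
  have hle : ∀ g, g < G → (g + 1) * s ≤ G * s := fun g hg => Nat.mul_le_mul_right s hg
  have hmem : ∀ t, t ∈ (Finset.range G).biUnion T → ∃ g < G, t ∈ T g := by
    intro t ht
    rw [Finset.mem_biUnion] at ht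
    obtain ⟨g, hg, htg⟩ := ht
    exact ⟨g, Finset.mem_range.1 hg, htg⟩
  have hdis : ∀ g g', g < g' → g' < G → ∀ t ∈ T g, ∀ t' ∈ T g',
      Disjoint (interior (hull t)) (interior (hull t')) := by
    intro g g' hgg hg' t ht t' ht'
    rw [Set.disjoint_left]
    intro q hq hq'
    have h1 := (int_sub F H _ _ (hT g (hgg.trans hg')) ht hq).2
    have h2 := (int_sub F H _ _ (hT g' hg') ht' hq').1
    have h3 : (((g + 1) * s : ℕ) : ℝ) ≤ ((g' * s : ℕ) : ℝ) := by
      exact_mod_cast Nat.mul_le_mul_right s hgg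
    linarith
  refine ⟨?_, ?_, ?_, ?_, ?_, ?_⟩
  · intro t ht
    obtain ⟨g, hg, htg⟩ := hmem t ht
    exact (hT g hg).card t htg
  · intro t ht
    obtain ⟨g, hg, htg⟩ := hmem t ht
    exact (hT g hg).nondeg t htg
  · intro t ht
    obtain ⟨g, hg, htg⟩ := hmem t ht
    exact ((hT g hg).verts t htg).trans (vset_mono F H (Nat.zero_le _) (hle g hg))
  · intro t ht t' ht' hne
    obtain ⟨g, hg, htg⟩ := hmem t ht
    obtain ⟨g', hg', htg'⟩ := hmem t' ht'
    rcases lt_trichotomy g g' with h | h | h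
    · exact hdis g g' h hg' t htg t' htg'
    · subst h
      exact (hT g hg).disj t htg t' htg' hne
    · exact (hdis g' g h hg t' htg' t htg).symm
  · ext q
    simp only [Set.mem_iUnion]
    constructor
    · rintro ⟨t, ht, hq⟩
      obtain ⟨g, hg, htg⟩ := hmem t ht
      obtain ⟨k, hb, he, hk⟩ := hull_sub (hT g hg) htg hq
      exact ⟨k, Nat.zero_le _, he.trans_le (hle g hg), hk⟩
    · rintro ⟨k, -, hk, hq⟩
      have hg : k / s < G := Nat.div_lt_of_lt_mul (by rwa [mul_comm] at hk)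
      have h1 : q ∈ reg F H (k / s * s) ((k / s + 1) * s) :=
        ⟨k, Nat.div_mul_le_self k s, lt_blk k s hs, hq⟩
      rw [← (hT _ hg).union] at h1
      simp only [Set.mem_iUnion] at h1
      obtain ⟨t, ht, hqt⟩ := h1
      exact ⟨t, Finset.mem_biUnion.2 ⟨_, Finset.mem_range.2 hg, ht⟩, hqt⟩
  · intro t ht x hx hxi
    obtain ⟨g, hg, htg⟩ := hmem t ht
    obtain ⟨i, -, -, hxi1, hx2⟩ := mem_vset F H hx
    have h1 := int_sub F H _ _ (hT g hg) htg hxi
    rw [hxi1] at h1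
    have h2 : g * s < i := by exact_mod_cast h1.1
    have h3 : i < (g + 1) * s := by exact_mod_cast h1.2
    refine (hT g hg).empty t htg x ?_ hxi
    unfold vset
    rw [Finset.mem_union, Finset.mem_image, Finset.mem_image]
    rcases hx2 with rfl | rfl
    · exact Or.inl ⟨i, Finset.mem_Icc.2 ⟨h2.le, h3.le⟩, rfl⟩
    · exact Or.inr ⟨i, Finset.mem_Icc.2 ⟨h2.le, h3.le⟩, rfl⟩

end Pool.Agent.R98.FL
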