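import Pool.Agent.R98.FL.Stm

set_option autoImplicit false

namespace Pool.Agent.R98.FL

open Set Filter

namespace GoodFanAux

theorem pt_inj (F : ℕ → ℝ) {i j : ℕ} (h : pt F i = pt F j) : i = j := by
  have h1 : ((i : ℝ)) = (j : ℝ) := congrArg Prod.fst h
  exact_mod_cast h1

theorem pt_ne (F H : ℕ → ℝ) (hFH : ∀ i, H i < F i) (i j : ℕ) : pt F i ≠ pt H j := by
  intro h
  have h1 : ((i : ℝ)) = (j : ℝ) := congrArg Prod.fst h
  have h2 : F i = H j := congrArg Prod.snd h
  have h3 : i = j := by exact_mod_cast h1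
  subst h3
  exact absurd h2 (hFH i).ne'

theorem block {s g g' i : ℕ} (h1 : g * s ≤ i) (h2 : i < (g + 1) * s) (h3 : g' * s ≤ i)
    (h4 : i < (g' + 1) * s) : g' = g := by
  have a : g' < g + 1 := by
    by_contra hc
    rw [not_lt] at hc
    have := Nat.mul_le_mul_right s hc
    omega
  have b : g < g' + 1 := by
    by_contra hc
    rw [not_lt] at hc
    have := Nat.mul_le_mul_right s hc
    omega
  omega

theorem good (F H : ℕ → ℝ) (hFH : ∀ i, H i < F i) (s G g i : ℕ) (c d : ℕ → ℕ) (hg : g < G)
    (h1 : g * s ≤ i) (h2 : i < (g + 1) * s) :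
    Good F H ((Finset.range G).biUnion (fun g =>
      (Finset.Ico (g * s) ((g + 1) * s)).image
        (fun i => ({pt F i, pt F (i + 1), pt H (c g)} : Finset Pt)) ∪
      (Finset.Ico (g * s) ((g + 1) * s)).image
        (fun j => ({pt H j, pt H (j + 1), pt F (d g)} : Finset Pt)))) i (c g) := by
  intro t
  constructor
  · rintro ⟨ht, hi, hi'⟩
    rw [Finset.mem_biUnion] at ht
    obtain ⟨g', -, ht⟩ := ht
    rw [Finset.mem_union] at ht
    rcases ht with ht | ht
    · rw [Finset.mem_image] at ht
      obtain ⟨i', hi2, rfl⟩ := ht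
      rw [Finset.mem_Ico] at hi2
      simp only [Finset.mem_insert, Finset.mem_singleton] at hi hi'
      have a1 : i = i' ∨ i = i' + 1 := by
        rcases hi with h | h | h
        · exact Or.inl (pt_inj F h)
        · exact Or.inr (pt_inj F h)
        · exact absurd h (pt_ne F H hFH _ _)
      have a2 : i + 1 = i' ∨ i + 1 = i' + 1 := by
        rcases hi' with h | h | h
        · exact Or.inl (pt_inj F h)
        · exact Or.inr (pt_inj F h)
        · exact absurd h (pt_ne F H hFH _ _)
      have a3 : i' = i := by omega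
      subst a3
      have a4 := block h1 h2 hi2.1 hi2.2
      rw [a4]
    · rw [Finset.mem_image] at ht
      obtain ⟨j, -, rfl⟩ := ht
      simp only [Finset.mem_insert, Finset.mem_singleton] at hi hi'
      have a1 : i = d g' := by
        rcases hi with h | h | h
        · exact absurd h (pt_ne F H hFH _ _)
        · exact absurd h (pt_ne F H hFH _ _)
        · exact pt_inj F h
      have a2 : i + 1 = d g' := by
        rcases hi' with h | h | h
        · exact absurd h (pt_ne F H hFH _ _)
        · exact absurd h (pt_ne F H hFH _ _)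
        · exact pt_inj F h
      omega
  · rintro rfl
    refine ⟨?_, by simp, by simp⟩
    rw [Finset.mem_biUnion]
    refine ⟨g, Finset.mem_range.2 hg, Finset.mem_union_left _ ?_⟩
    exact Finset.mem_image.2 ⟨i, Finset.mem_Ico.2 ⟨h1, h2⟩, rfl⟩

end GoodFanAux

theorem goodFan (hC : ConcStmt) : GoodFanStmt := by
  intro s G hs _ g hg i h1 h2
  have hFH := (hC s hs).1
  exact ⟨GoodFanAux.good (FF s) (HH s) hFH s G g i (fun g => g * s) (fun g => (g + 1) * s)
      hg h1 h2,
    GoodFanAux.good (FF s) (HH s) hFH s G g i (fun g => (g + 1) * s) (fun g => g * s)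
      hg h1 h2⟩

theorem vimg : VimgStmt := by
  intro F H M
  ext p
  simp only [vset, Finset.mem_image, Finset.mem_univ, true_and, Finset.mem_union, Finset.mem_Icc]
  constructor
  · rintro ⟨k, rfl⟩
    unfold vtx
    by_cases hk : k.1 ≤ M
    · left
      exact ⟨k.1, ⟨Nat.zero_le _, hk⟩, by simp [hk]⟩
    · right
      refine ⟨2 * M + 1 - k.1, ⟨Nat.zero_le _, ?_⟩, by simp [hk]⟩
      have := k.2
      omega
  · rintro (⟨k, ⟨-, hk⟩, rfl⟩ | ⟨k, ⟨-, hk⟩, rfl⟩)
    · refine ⟨⟨k, by omega⟩, ?_⟩
      simp [vtx, hk]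
    · refine ⟨⟨2 * M + 1 - k, by omega⟩, ?_⟩
      have h1 : ¬ (2 * M + 1 - k ≤ M) := by omega
      have h2 : 2 * M + 1 - (2 * M + 1 - k) = k := by omega
      simp [vtx, h1, h2]

end Pool.Agent.R98.FL
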