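import Mathlib
import Pool.Agent.R98.FL.Stm

namespace Pool.Agent.R98.FL

open Set Filter

namespace InsAux

theorem hull_strip (s g i j : ℕ) (F H : ℕ → ℝ) (hi : g * s ≤ i) (hi' : i < (g + 1) * s)
    (hj : g * s ≤ j) (hj' : j ≤ (g + 1) * s) (p : Pt)
    (hp : p ∈ hull {pt F i, pt F (i + 1), pt H j}) :
    (g : ℝ) * s ≤ p.1 ∧ p.1 ≤ ((g : ℝ) + 1) * s := by
  have hconv : Convex ℝ {q : Pt | (g : ℝ) * s ≤ q.1 ∧ q.1 ≤ ((g : ℝ) + 1) * s} := by
    have h1 : Convex ℝ {q : Pt | (g : ℝ) * s ≤ q.1} :=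
      convex_halfSpace_ge (f := fun q : Pt => q.1) (by constructor <;> intros <;> rfl) _
    have h2 : Convex ℝ {q : Pt | q.1 ≤ ((g : ℝ) + 1) * s} :=
      convex_halfSpace_le (f := fun q : Pt => q.1) (by constructor <;> intros <;> rfl) _
    exact h1.inter h2
  have hi1 : (g : ℝ) * s ≤ i := by exact_mod_cast hi
  have hi2 : (i : ℝ) + 1 ≤ ((g : ℝ) + 1) * s := by exact_mod_cast hi'
  have hj1 : (g : ℝ) * s ≤ j := by exact_mod_cast hj
  have hj2 : (j : ℝ) ≤ ((g : ℝ) + 1) * s := by exact_mod_cast hj'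
  refine convexHull_min ?_ hconv hp
  intro q hq
  simp only [Finset.coe_insert, Finset.coe_singleton, mem_insert_iff, mem_singleton_iff] at hq
  rcases hq with rfl | rfl | rfl
  · exact ⟨hi1, show (i : ℝ) ≤ _ by linarith⟩
  · constructor
    · show (g : ℝ) * s ≤ ((i + 1 : ℕ) : ℝ)
      push_cast; linarith
    · show ((i + 1 : ℕ) : ℝ) ≤ _
      push_cast; linarith
  · exact ⟨hj1, hj2⟩

end InsAux

open InsAux in
theorem ins1 : Ins1Stmt := by
  intro s g i j p T T' hs hi hi' hj hj' hp hgood hins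
  obtain ⟨a, b, c, habc, hpin, rfl⟩ := hins
  set t0 : Finset Pt := {pt (FF s) i, pt (FF s) (i + 1), pt (HH s) j} with ht0
  have hi1 : (g : ℝ) * s ≤ i := by exact_mod_cast hi
  have hi2 : (i : ℝ) + 1 ≤ ((g : ℝ) + 1) * s := by exact_mod_cast hi'
  have hne : t0 ≠ {a, b, c} := by
    intro h
    rw [← h] at hpin
    have := hull_strip s g i j (FF s) (HH s) hi hi' hj hj' p (interior_subset hpin)
    rcases hp with h1 | h1 <;> linarith [this.1, this.2]
  have hpi : pt (FF s) i ≠ p := by
    intro h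
    have h1 : p.1 = i := by rw [← h]; rfl
    rcases hp with h2 | h2 <;> linarith
  have hpi1 : pt (FF s) (i + 1) ≠ p := by
    intro h
    have h1 : p.1 = (i : ℝ) + 1 := by rw [← h]; simp [pt]
    rcases hp with h2 | h2 <;> linarith
  have hbad : ¬ (pt (FF s) i ∈ ({a, b, c} : Finset Pt) ∧ pt (FF s) (i + 1) ∈ ({a, b, c} : Finset Pt)) := by
    rintro ⟨h1, h2⟩
    exact hne ((hgood _).1 ⟨habc, h1, h2⟩).symm
  intro t
  constructor
  · rintro ⟨ht, h1, h2⟩
    rw [Finset.mem_union, Finset.mem_sdiff] at ht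
    rcases ht with ⟨ht, _⟩ | ht
    · exact (hgood t).1 ⟨ht, h1, h2⟩
    · exfalso
      apply hbad
      simp only [Finset.mem_insert, Finset.mem_singleton] at ht
      rcases ht with rfl | rfl | rfl <;>
      · simp only [Finset.mem_insert, Finset.mem_singleton, hpi, hpi1, false_or] at h1 h2 ⊢
        constructor <;> tauto
  · intro ht
    have h0 := (hgood t).2 ht
    refine ⟨?_, h0.2⟩
    rw [Finset.mem_union, Finset.mem_sdiff]
    left
    refine ⟨h0.1, ?_⟩
    rw [Finset.mem_singleton, ht]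
    exact hne

namespace InsAux

theorem card_le_two (A : Finset ℕ) (h : ∀ g ∈ A, ∀ g' ∈ A, g' ≤ g + 1) : A.card ≤ 2 := by
  rcases A.eq_empty_or_nonempty with rfl | hne
  · simp
  · have hsub : A ⊆ Finset.Icc (A.min' hne) (A.min' hne + 1) := by
      intro g hg
      rw [Finset.mem_Icc]
      exact ⟨A.min'_le g hg, h _ (A.min'_mem hne) g hg⟩
    refine (Finset.card_le_card hsub).trans ?_
    rw [Nat.card_Icc]
    omega

open Classical in
theorem touched_card (s G : ℕ) (hs : 2 ≤ s) (p : Pt) :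
    ((Finset.range G).filter fun g : ℕ => ¬ (p.1 ≤ (g : ℝ) * s - 1 ∨
      ((g : ℝ) + 1) * s + 1 ≤ p.1)).card ≤ 2 := by
  apply card_le_two
  intro g hg g' hg'
  rw [Finset.mem_filter] at hg hg'
  have h1 := hg.2
  have h2 := hg'.2
  push Not at h1 h2
  by_contra hc
  push Not at hc
  have h3 : (g : ℝ) + 2 ≤ g' := by exact_mod_cast hc
  have h4 : (2 : ℝ) ≤ s := by exact_mod_cast hs
  nlinarith

end InsAux

open InsAux in
open Classical in
theorem ins (hI : Ins1Stmt) : InsStmt := by
  intro s G m S' T1 T2 T1' T2' J1 J2 hs hG hJ hins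
  have key : ∃ X : Finset Pt, X.card ≤ m ∧
      (S' : Set Pt) ⊆ (vset (FF s) (HH s) 0 (G * s) : Set Pt) ∪ X ∧
      ∀ g, g < G → Untouched s g (X : Set Pt) → ∀ i, g * s ≤ i → i < (g + 1) * s →
        Good (FF s) (HH s) T1' i (J1 i) ∧ Good (FF s) (HH s) T2' i (J2 i) := by
    induction hins with
    | refl =>
      refine ⟨∅, by simp, fun x hx => Or.inl hx, ?_⟩
      intro g hg _ i hi hi'
      exact ⟨(hJ g hg i hi hi').1.2.2, (hJ g hg i hi hi').2.2.2⟩
    | step m S' T1' T2' T1'' T2'' p hprev hp h1 h2 ih =>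
      obtain ⟨X, hX, hS, hgood⟩ := ih
      refine ⟨insert p X, (Finset.card_insert_le _ _).trans (by omega), ?_, ?_⟩
      · intro x hx
        rw [Finset.mem_coe, Finset.mem_insert] at hx
        rcases hx with rfl | hx
        · right
          simp
        · rcases hS (Finset.mem_coe.2 hx) with h | h
          · exact Or.inl h
          · right
            rw [Finset.mem_coe] at h ⊢
            exact Finset.mem_insert_of_mem h
      · intro g hg hu i hi hi'
        have hu' : Untouched s g (X : Set Pt) := fun q hq => hu q (by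
          rw [Finset.mem_coe] at hq ⊢
          exact Finset.mem_insert_of_mem hq)
        have hup := hu p (by simp)
        have h3 := hgood g hg hu' i hi hi'
        have h4 := hJ g hg i hi hi'
        exact ⟨hI s g i (J1 i) p T1' T1'' hs hi hi' h4.1.1 h4.1.2.1 hup h3.1 h1,
          hI s g i (J2 i) p T2' T2'' hs hi hi' h4.2.1 h4.2.2.1 hup h3.2 h2⟩
  obtain ⟨X, hX, hS, hgood⟩ := key
  refine ⟨(X : Set Pt), (Finset.range G).filter fun g => Untouched s g (X : Set Pt), hS, ?_, ?_, ?_⟩
  · intro g hg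
    rw [Finset.mem_filter, Finset.mem_range] at hg
    exact hg
  · have h1 : ((Finset.range G).filter fun g => Untouched s g (X : Set Pt)).card +
        ((Finset.range G).filter fun g => ¬ Untouched s g (X : Set Pt)).card = G := by
      rw [Finset.card_filter_add_card_filter_not, Finset.card_range]
    have h2 : ((Finset.range G).filter fun g => ¬ Untouched s g (X : Set Pt)) ⊆
        X.biUnion fun p => (Finset.range G).filter fun g : ℕ =>
          ¬ (p.1 ≤ (g : ℝ) * s - 1 ∨ ((g : ℝ) + 1) * s + 1 ≤ p.1) := by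
      intro g hg
      rw [Finset.mem_filter] at hg
      obtain ⟨hg1, hg2⟩ := hg
      unfold Untouched at hg2
      push Not at hg2
      obtain ⟨p, hp, h3⟩ := hg2
      rw [Finset.mem_biUnion]
      refine ⟨p, Finset.mem_coe.1 hp, ?_⟩
      rw [Finset.mem_filter]
      refine ⟨hg1, ?_⟩
      push Not
      exact h3
    have h3 : ((Finset.range G).filter fun g => ¬ Untouched s g (X : Set Pt)).card ≤ X.card * 2 := by
      refine (Finset.card_le_card h2).trans (Finset.card_biUnion_le_card_mul _ _ _ ?_)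
      intro p _
      exact touched_card s G hs p
    omega
  · intro g hg i hi hi'
    rw [Finset.mem_filter, Finset.mem_range] at hg
    exact hgood g hg.1 hg.2 i hi hi'

end Pool.Agent.R98.FL
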