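import Pool.Agent.R98.FL.Stm

/-! # Piece B1: fan triangles are inside (by helper25) -/

set_option autoImplicit false

namespace Pool.Agent.R98.FL

open Set Filter

theorem ins_hull (p r s : ℝ) (t : Finset Pt) (h : ∀ z ∈ t, p * z.1 + r * z.2 + s ≤ 0) (q : Pt)
    (hq : q ∈ hull t) : p * q.1 + r * q.2 + s ≤ 0 := by
  have hc : Convex ℝ {z : Pt | p * z.1 + r * z.2 + s ≤ 0} := by
    intro x hx y hy a b ha hb hab
    have h1 : a * (p * x.1 + r * x.2 + s) ≤ 0 := mul_nonpos_of_nonneg_of_nonpos ha hx
    have h2 : b * (p * y.1 + r * y.2 + s) ≤ 0 := mul_nonpos_of_nonneg_of_nonpos hb hy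
    show p * (a * x.1 + b * y.1) + r * (a * x.2 + b * y.2) + s ≤ 0
    have h3 : p * (a * x.1 + b * y.1) + r * (a * x.2 + b * y.2) + s =
        a * (p * x.1 + r * x.2 + s) + b * (p * y.1 + r * y.2 + s) + s * (1 - (a + b)) := by ring
    rw [h3, hab]
    linarith
  exact convexHull_min (fun z hz => h z hz) hc hq

theorem ins_R_le (F H : ℕ → ℝ) (i j : ℕ) (t : Finset Pt) (h : ∀ z ∈ t, R F H i j z ≤ 0) (q : Pt)
    (hq : q ∈ hull t) : R F H i j q ≤ 0 := by
  have h1 := ins_hull (F i - H j) (-((i : ℝ) - j)) (-(j : ℝ) * (F i - H j) + ((i : ℝ) - j) * H j) t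
    (fun z hz => by
      have := h z hz
      unfold R at this
      linarith) q hq
  unfold R
  linarith

theorem ins_R_ge (F H : ℕ → ℝ) (i j : ℕ) (t : Finset Pt) (h : ∀ z ∈ t, 0 ≤ R F H i j z) (q : Pt)
    (hq : q ∈ hull t) : 0 ≤ R F H i j q := by
  have h1 := ins_hull (-(F i - H j)) ((i : ℝ) - j) ((j : ℝ) * (F i - H j) - ((i : ℝ) - j) * H j) t
    (fun z hz => by
      have := h z hz
      unfold R at this
      linarith) q hq
  unfold R
  linarith

theorem ins_R_F (F H : ℕ → ℝ) (i j : ℕ) : R F H i j (pt F i) = 0 := by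
  unfold R pt
  ring

theorem ins_R_H (F H : ℕ → ℝ) (i j : ℕ) : R F H i j (pt H j) = 0 := by
  unfold R pt
  ring

/-- the value of `R` on a chord -/
theorem ins_chord (F H K : ℕ → ℝ) (i j k : ℕ) (x : ℝ) :
    R F H i j (x, K k + (x - k) * (K (k + 1) - K k)) =
      (k + 1 - x) * R F H i j (pt K k) + (x - k) * R F H i j (pt K (k + 1)) := by
  unfold R pt
  push_cast
  ring

theorem ins_sub (F H : ℕ → ℝ) (i j : ℕ) (x y z : ℝ) :
    R F H i j (x, y) - R F H i j (x, z) = ((i : ℝ) - j) * (z - y) := by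
  unfold R
  ring

/-- upper bound from a line -/
theorem ins_upper (F H K : ℕ → ℝ) (i j k : ℕ) (q : Pt) (hij : j < i) (h1 : (k : ℝ) ≤ q.1)
    (h2 : q.1 ≤ k + 1) (hq : 0 ≤ R F H i j q) (ha : R F H i j (pt K k) ≤ 0)
    (hb : R F H i j (pt K (k + 1)) ≤ 0) : q.2 ≤ K k + (q.1 - k) * (K (k + 1) - K k) := by
  have h3 := ins_chord F H K i j k q.1
  have h4 : R F H i j (q.1, K k + (q.1 - k) * (K (k + 1) - K k)) ≤ 0 := by
    rw [h3]
    have e1 : (k + 1 - q.1) * R F H i j (pt K k) ≤ 0 :=
      mul_nonpos_of_nonneg_of_nonpos (by linarith) ha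
    have e2 : (q.1 - k) * R F H i j (pt K (k + 1)) ≤ 0 :=
      mul_nonpos_of_nonneg_of_nonpos (by linarith) hb
    linarith
  have h5 := ins_sub F H i j q.1 q.2 (K k + (q.1 - k) * (K (k + 1) - K k))
  have h6 : R F H i j (q.1, q.2) = R F H i j q := rfl
  have hij' : (0 : ℝ) < (i : ℝ) - j := by
    have : (j : ℝ) < i := by exact_mod_cast hij
    linarith
  rw [h6] at h5
  by_contra hcon
  push Not at hcon
  have h7 : ((i : ℝ) - j) * ((K k + (q.1 - k) * (K (k + 1) - K k)) - q.2) < 0 :=
    mul_neg_of_pos_of_neg hij' (by linarith)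
  linarith

/-- lower bound from a line -/
theorem ins_lower (F H K : ℕ → ℝ) (i j k : ℕ) (q : Pt) (hij : j < i) (h1 : (k : ℝ) ≤ q.1)
    (h2 : q.1 ≤ k + 1) (hq : R F H i j q ≤ 0) (ha : 0 ≤ R F H i j (pt K k))
    (hb : 0 ≤ R F H i j (pt K (k + 1))) : K k + (q.1 - k) * (K (k + 1) - K k) ≤ q.2 := by
  have h3 := ins_chord F H K i j k q.1
  have h4 : 0 ≤ R F H i j (q.1, K k + (q.1 - k) * (K (k + 1) - K k)) := by
    rw [h3]
    have e1 : 0 ≤ (k + 1 - q.1) * R F H i j (pt K k) := mul_nonneg (by linarith) ha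
    have e2 : 0 ≤ (q.1 - k) * R F H i j (pt K (k + 1)) := mul_nonneg (by linarith) hb
    linarith
  have h5 := ins_sub F H i j q.1 q.2 (K k + (q.1 - k) * (K (k + 1) - K k))
  have h6 : R F H i j (q.1, q.2) = R F H i j q := rfl
  have hij' : (0 : ℝ) < (i : ℝ) - j := by
    have : (j : ℝ) < i := by exact_mod_cast hij
    linarith
  rw [h6] at h5
  by_contra hcon
  push Not at hcon
  have h7 : 0 < ((i : ℝ) - j) * ((K k + (q.1 - k) * (K (k + 1) - K k)) - q.2) :=
    mul_pos hij' (by linarith)
  linarith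

theorem inside : InsideStmt := by
  intro F H b e hbe hHF hS t ht q hq
  unfold fanA at ht
  rw [Finset.mem_union, Finset.mem_image, Finset.mem_image] at ht
  -- weak signs
  have sF_le : ∀ i j k, b ≤ i → i ≤ e → b ≤ j → j ≤ e → b ≤ k → k ≤ i →
      R F H i j (pt F k) ≤ 0 := by
    intro i j k h1 h2 h3 h4 h5 h6
    rcases Nat.lt_or_ge k i with h | h
    · exact ((hS i j k h1 h2 h3 h4 h5 (by omega)).2.1 h).le
    · have : k = i := by omega
      rw [this, ins_R_F]
  have sH_ge : ∀ i j k, b ≤ i → i ≤ e → b ≤ j → j ≤ k → k ≤ e →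
      0 ≤ R F H i j (pt H k) := by
    intro i j k h1 h2 h3 h4 h5
    rcases Nat.lt_or_ge j k with h | h
    · exact ((hS i j k h1 h2 h3 (by omega) (by omega) h5).2.2.1 h).le
    · have : k = j := by omega
      rw [this, ins_R_H]
  rcases ht with ⟨i, hi, rfl⟩ | ⟨j, hj, rfl⟩
  · rw [Finset.mem_Ico] at hi
    obtain ⟨hbi, hie⟩ := hi
    have hmem : ∀ P : Pt → Prop, P (pt F i) → P (pt F (i + 1)) → P (pt H b) →
        ∀ z ∈ ({pt F i, pt F (i + 1), pt H b} : Finset Pt), P z := by
      intro P p1 p2 p3 z hz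
      rw [Finset.mem_insert, Finset.mem_insert, Finset.mem_singleton] at hz
      rcases hz with rfl | rfl | rfl
      · exact p1
      · exact p2
      · exact p3
    have hbi' : (b : ℝ) ≤ i := by exact_mod_cast hbi
    have x1 : (b : ℝ) ≤ q.1 := by
      have := ins_hull (-1) 0 b _ (hmem (fun z => -1 * z.1 + 0 * z.2 + (b : ℝ) ≤ 0)
        (by simp only [pt]; linarith) (by simp only [pt]; push_cast; linarith)
        (by simp only [pt]; linarith)) q hq
      linarith
    have x2 : q.1 ≤ i + 1 := by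
      have := ins_hull 1 0 (-(i + 1)) _ (hmem (fun z => 1 * z.1 + 0 * z.2 + (-((i : ℝ) + 1)) ≤ 0)
        (by simp only [pt]; linarith) (by simp only [pt]; push_cast; linarith)
        (by simp only [pt]; linarith)) q hq
      linarith
    have r1 : 0 ≤ R F H i b q := by
      refine ins_R_ge F H i b _ (hmem (fun z => 0 ≤ R F H i b z) ?_ ?_ ?_) q hq
      · rw [ins_R_F]
      · exact ((hS i b (i + 1) hbi (by omega) le_rfl (by omega) (by omega) (by omega)).1
          (by omega)).le
      · rw [ins_R_H]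
    have r2 : R F H (i + 1) b q ≤ 0 := by
      refine ins_R_le F H (i + 1) b _ (hmem (fun z => R F H (i + 1) b z ≤ 0) ?_ ?_ ?_) q hq
      · exact sF_le (i + 1) b i (by omega) (by omega) le_rfl (by omega) hbi (by omega)
      · rw [ins_R_F]
      · rw [ins_R_H]
    have r3 : q.2 ≤ F i + (q.1 - i) * (F (i + 1) - F i) := by
      have hpos := (hS i b (i + 1) hbi (by omega) le_rfl (by omega) (by omega) (by omega)).1
        (by omega)
      have := ins_hull (-(F (i + 1) - F i)) 1 (-F i + i * (F (i + 1) - F i)) _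
        (hmem (fun z => -(F (i + 1) - F i) * z.1 + 1 * z.2 + (-F i + i * (F (i + 1) - F i)) ≤ 0)
        (by simp only [pt]; linarith) (by simp only [pt]; push_cast; linarith)
        (by
          unfold R pt at hpos
          simp only [pt]
          push_cast at hpos
          linarith)) q hq
      linarith
    rcases le_or_gt (i : ℝ) q.1 with hx | hx
    · refine ⟨i, hbi, hie, hx, x2, ?_, r3⟩
      exact ins_lower F H H (i + 1) b i q (by omega) hx x2 r2
        (sH_ge (i + 1) b i (by omega) (by omega) le_rfl hbi (by omega))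
        (sH_ge (i + 1) b (i + 1) (by omega) (by omega) le_rfl (by omega) (by omega))
    · have hq0 : 0 ≤ q.1 := le_trans (Nat.cast_nonneg b) x1
      set k := ⌊q.1⌋₊ with hk
      have k1 : (k : ℝ) ≤ q.1 := Nat.floor_le hq0
      have k2 : q.1 < k + 1 := Nat.lt_floor_add_one _
      have k3 : b ≤ k := Nat.le_floor x1
      have k4 : k < i := (Nat.floor_lt hq0).mpr hx
      refine ⟨k, k3, by omega, k1, k2.le, ?_, ?_⟩
      · exact ins_lower F H H (i + 1) b k q (by omega) k1 k2.le r2
          (sH_ge (i + 1) b k (by omega) (by omega) le_rfl k3 (by omega))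
          (sH_ge (i + 1) b (k + 1) (by omega) (by omega) le_rfl (by omega) (by omega))
      · exact ins_upper F H F i b k q (by omega) k1 k2.le r1
          (sF_le i b k hbi (by omega) le_rfl (by omega) k3 (by omega))
          (sF_le i b (k + 1) hbi (by omega) le_rfl (by omega) (by omega) (by omega))
  · rw [Finset.mem_Ico] at hj
    obtain ⟨hbj, hje⟩ := hj
    have hmem : ∀ P : Pt → Prop, P (pt H j) → P (pt H (j + 1)) → P (pt F e) →
        ∀ z ∈ ({pt H j, pt H (j + 1), pt F e} : Finset Pt), P z := by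
      intro P p1 p2 p3 z hz
      rw [Finset.mem_insert, Finset.mem_insert, Finset.mem_singleton] at hz
      rcases hz with rfl | rfl | rfl
      · exact p1
      · exact p2
      · exact p3
    have hje' : (j : ℝ) + 1 ≤ e := by exact_mod_cast hje
    have x1 : (j : ℝ) ≤ q.1 := by
      have := ins_hull (-1) 0 j _ (hmem (fun z => -1 * z.1 + 0 * z.2 + (j : ℝ) ≤ 0)
        (by simp only [pt]; linarith) (by simp only [pt]; push_cast; linarith)
        (by simp only [pt]; linarith)) q hq
      linarith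
    have x2 : q.1 ≤ e := by
      have := ins_hull 1 0 (-e) _ (hmem (fun z => 1 * z.1 + 0 * z.2 + (-(e : ℝ)) ≤ 0)
        (by simp only [pt]; linarith) (by simp only [pt]; push_cast; linarith)
        (by simp only [pt]; linarith)) q hq
      linarith
    have r1 : 0 ≤ R F H e j q := by
      refine ins_R_ge F H e j _ (hmem (fun z => 0 ≤ R F H e j z) ?_ ?_ ?_) q hq
      · rw [ins_R_H]
      · exact sH_ge e j (j + 1) (by omega) le_rfl hbj (by omega) (by omega)
      · rw [ins_R_F]
    have r2 : R F H e (j + 1) q ≤ 0 := by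
      refine ins_R_le F H e (j + 1) _ (hmem (fun z => R F H e (j + 1) z ≤ 0) ?_ ?_ ?_) q hq
      · exact ((hS e (j + 1) j (by omega) le_rfl (by omega) (by omega) hbj (by omega)).2.2.2
          (by omega)).le
      · rw [ins_R_H]
      · rw [ins_R_F]
    have r3 : H j + (q.1 - j) * (H (j + 1) - H j) ≤ q.2 := by
      have hpos := (hS e (j + 1) j (by omega) le_rfl (by omega) (by omega) hbj
        (by omega)).2.2.2 (by omega)
      have := ins_hull (H (j + 1) - H j) (-1) (H j - j * (H (j + 1) - H j)) _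
        (hmem (fun z => (H (j + 1) - H j) * z.1 + -1 * z.2 + (H j - j * (H (j + 1) - H j)) ≤ 0)
        (by simp only [pt]; linarith) (by simp only [pt]; push_cast; linarith)
        (by
          unfold R pt at hpos
          simp only [pt]
          push_cast at hpos
          linarith)) q hq
      linarith
    rcases le_or_gt q.1 ((j : ℝ) + 1) with hx | hx
    · refine ⟨j, hbj, hje, x1, hx, r3, ?_⟩
      exact ins_upper F H F e j j q hje x1 hx r1
        (sF_le e j j (by omega) le_rfl hbj (by omega) hbj (by omega))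
        (sF_le e j (j + 1) (by omega) le_rfl hbj (by omega) (by omega) (by omega))
    · -- choose `k` with `k ≤ q.1 ≤ k + 1`, `j + 1 ≤ k < e`
      obtain ⟨k, k1, k2, k3, k4⟩ : ∃ k : ℕ, (k : ℝ) ≤ q.1 ∧ q.1 ≤ k + 1 ∧ j + 1 ≤ k ∧ k < e := by
        have hq0 : 0 ≤ q.1 := le_trans (Nat.cast_nonneg j) x1
        rcases lt_or_ge q.1 (e : ℝ) with h | h
        · refine ⟨⌊q.1⌋₊, Nat.floor_le hq0, (Nat.lt_floor_add_one _).le, ?_,
            (Nat.floor_lt hq0).mpr h⟩
          apply Nat.le_floor
          push_cast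
          exact hx.le
        · have hqe : q.1 = e := le_antisymm x2 h
          have hje2 : j + 1 < e := by
            have : ((j + 1 : ℕ) : ℝ) < e := by
              push_cast
              linarith
            exact_mod_cast this
          have e1 : ((e - 1 : ℕ) : ℝ) = (e : ℝ) - 1 := by
            rw [Nat.cast_sub (by omega)]
            simp
          refine ⟨e - 1, ?_, ?_, by omega, by omega⟩
          · rw [e1, hqe]; linarith
          · rw [e1, hqe]; linarith
      refine ⟨k, by omega, k4, k1, k2, ?_, ?_⟩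
      · exact ins_lower F H H e (j + 1) k q (by omega) k1 k2 r2
          (sH_ge e (j + 1) k (by omega) le_rfl (by omega) k3 (by omega))
          (sH_ge e (j + 1) (k + 1) (by omega) le_rfl (by omega) (by omega) (by omega))
      · exact ins_upper F H F e j k q hje k1 k2 r1
          (sF_le e j k (by omega) le_rfl hbj (by omega) (by omega) (by omega))
          (sF_le e j (k + 1) (by omega) le_rfl hbj (by omega) (by omega) (by omega))

end Pool.Agent.R98.FL
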