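import Mathlib
import Pool.Agent.R98.FL.Stm

set_option autoImplicit false

/-!
The closed polygonal curve `vtx F H M` is simple (piece A1 of the project on MP_fe41f2_co).
-/

namespace Pool.Agent.R98.FL

open Set Filter

theorem mem_up (F : ℕ → ℝ) (k : ℕ) (q : Pt) (h : q ∈ segment ℝ (pt F k) (pt F (k + 1))) :
    (k : ℝ) ≤ q.1 ∧ q.1 ≤ k + 1 ∧ q.2 = F k + (q.1 - k) * (F (k + 1) - F k) := by
  obtain ⟨s, t, hs, ht, hst, rfl⟩ := h
  have h1 : (s • pt F k + t • pt F (k + 1)).1 = s * k + t * (k + 1) := by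
    simp [pt]
  have h2 : (s • pt F k + t • pt F (k + 1)).2 = s * F k + t * F (k + 1) := by
    simp [pt]
  have h3 : s = 1 - t := by linarith
  rw [h1, h2]
  subst h3
  refine ⟨by nlinarith, by nlinarith, by ring⟩

theorem mem_down (F : ℕ → ℝ) (k : ℕ) (q : Pt) (h : q ∈ segment ℝ (pt F (k + 1)) (pt F k)) :
    (k : ℝ) ≤ q.1 ∧ q.1 ≤ k + 1 ∧ q.2 = F k + (q.1 - k) * (F (k + 1) - F k) := by
  rw [segment_symm] at h
  exact mem_up F k q h

theorem mem_vert (F H : ℕ → ℝ) (k : ℕ) (hk : H k < F k) (q : Pt)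
    (h : q ∈ segment ℝ (pt F k) (pt H k)) :
    q.1 = k ∧ H k ≤ q.2 ∧ q.2 ≤ F k := by
  obtain ⟨s, t, hs, ht, hst, rfl⟩ := h
  have h1 : (s • pt F k + t • pt H k).1 = s * k + t * k := by
    simp [pt]
  have h2 : (s • pt F k + t • pt H k).2 = s * F k + t * H k := by
    simp [pt]
  have h3 : s = 1 - t := by linarith
  rw [h1, h2]
  subst h3
  refine ⟨by ring, by nlinarith, by nlinarith⟩

/-- the kinds of the edges -/
theorem mem_edge (F H : ℕ → ℝ) (M : ℕ) (hM : 1 ≤ M) (hH : ∀ i ≤ M, H i < F i)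
    (i : Fin (2 * M + 2)) (q : Pt) (h : q ∈ edge (vtx F H M) i) :
    (∃ k, k < M ∧ i.1 = k ∧ vtx F H M i = pt F k ∧ vtx F H M (nxt i) = pt F (k + 1) ∧
      (k : ℝ) ≤ q.1 ∧ q.1 ≤ k + 1 ∧ q.2 = F k + (q.1 - k) * (F (k + 1) - F k)) ∨
    (i.1 = M ∧ vtx F H M i = pt F M ∧ vtx F H M (nxt i) = pt H M ∧ q.1 = M ∧
      H M ≤ q.2 ∧ q.2 ≤ F M) ∨
    (∃ k, k < M ∧ i.1 + k = 2 * M ∧ vtx F H M i = pt H (k + 1) ∧ vtx F H M (nxt i) = pt H k ∧
      (k : ℝ) ≤ q.1 ∧ q.1 ≤ k + 1 ∧ q.2 = H k + (q.1 - k) * (H (k + 1) - H k)) ∨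
    (i.1 = 2 * M + 1 ∧ vtx F H M i = pt H 0 ∧ vtx F H M (nxt i) = pt F 0 ∧ q.1 = 0 ∧
      H 0 ≤ q.2 ∧ q.2 ≤ F 0) := by
  obtain ⟨i, hi⟩ := i
  unfold edge at h
  rcases lt_trichotomy i M with h1 | h1 | h1
  · have e1 : vtx F H M ⟨i, hi⟩ = pt F i := by
      simp only [vtx]
      rw [if_pos h1.le]
    have e2 : vtx F H M (nxt ⟨i, hi⟩) = pt F (i + 1) := by
      have : (i + 1) % (2 * M + 2) = i + 1 := Nat.mod_eq_of_lt (by omega)
      simp only [vtx, nxt, this]
      rw [if_pos (by omega)]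
    rw [e1, e2] at h
    exact Or.inl ⟨i, h1, rfl, e1, e2, mem_up F i q h⟩
  · subst h1
    have e1 : vtx F H i ⟨i, hi⟩ = pt F i := by
      simp only [vtx]
      rw [if_pos le_rfl]
    have e2 : vtx F H i (nxt ⟨i, hi⟩) = pt H i := by
      have : (i + 1) % (2 * i + 2) = i + 1 := Nat.mod_eq_of_lt (by omega)
      simp only [vtx, nxt, this]
      rw [if_neg (by omega)]
      congr 1
      omega
    rw [e1, e2] at h
    exact Or.inr (Or.inl ⟨rfl, e1, e2, mem_vert F H i (hH i le_rfl) q h⟩)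
  · rcases Nat.lt_or_ge i (2 * M + 1) with h2 | h2
    · obtain ⟨k, hk⟩ : ∃ k, i + k = 2 * M := ⟨2 * M - i, by omega⟩
      have e1 : vtx F H M ⟨i, hi⟩ = pt H (k + 1) := by
        simp only [vtx]
        rw [if_neg (by omega)]
        congr 1
        omega
      have e2 : vtx F H M (nxt ⟨i, hi⟩) = pt H k := by
        have : (i + 1) % (2 * M + 2) = i + 1 := Nat.mod_eq_of_lt (by omega)
        simp only [vtx, nxt, this]
        rw [if_neg (by omega)]
        congr 1
        omega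
      rw [e1, e2] at h
      exact Or.inr (Or.inr (Or.inl ⟨k, by omega, hk, e1, e2, mem_down H k q h⟩))
    · have h3 : i = 2 * M + 1 := by omega
      subst h3
      have e1 : vtx F H M ⟨2 * M + 1, hi⟩ = pt H 0 := by
        simp only [vtx]
        rw [if_neg (by omega)]
        congr 1
        omega
      have e2 : vtx F H M (nxt ⟨2 * M + 1, hi⟩) = pt F 0 := by
        have : (2 * M + 1 + 1) % (2 * M + 2) = 0 := Nat.mod_self _
        simp only [vtx, nxt, this]
        rw [if_pos (by omega)]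
      rw [e1, e2, segment_symm] at h
      have h4 := mem_vert F H 0 (hH 0 (by omega)) q h
      refine Or.inr (Or.inr (Or.inr ⟨rfl, e1, e2, ?_, h4.2⟩))
      rw [h4.1]
      norm_num

theorem eq_pt {F : ℕ → ℝ} {k : ℕ} {q : Pt} (h1 : q.1 = k) (h2 : q.2 = F k) : q = pt F k := by
  apply Prod.ext
  · simpa [pt] using h1
  · simpa [pt] using h2

/-- two chords in different strips, or in the same strip -/
theorem strips {k l : ℕ} {x : ℝ} (h1 : (k : ℝ) ≤ x) (h2 : x ≤ k + 1) (h3 : (l : ℝ) ≤ x)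
    (h4 : x ≤ l + 1) : k = l ∨ (l = k + 1 ∧ x = k + 1) ∨ (k = l + 1 ∧ x = k) := by
  rcases lt_trichotomy k l with h | h | h
  · right; left
    have h5 : ((k + 1 : ℕ) : ℝ) ≤ l := by exact_mod_cast h
    push_cast at h5
    have h6 : x = k + 1 := by linarith
    refine ⟨?_, h6⟩
    have h7 : (l : ℝ) ≤ ((k + 1 : ℕ) : ℝ) := by push_cast; linarith
    have h8 : l ≤ k + 1 := by exact_mod_cast h7
    omega
  · exact Or.inl h
  · right; right
    have h5 : ((l + 1 : ℕ) : ℝ) ≤ k := by exact_mod_cast h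
    push_cast at h5
    have h6 : x = k := by linarith
    refine ⟨?_, h6⟩
    have h7 : (k : ℝ) ≤ ((l + 1 : ℕ) : ℝ) := by push_cast; linarith
    have h8 : k ≤ l + 1 := by exact_mod_cast h7
    omega

/-- a point of an upper and of a lower edge does not exist -/
theorem up_low (F H : ℕ → ℝ) (M : ℕ) (hH : ∀ i ≤ M, H i < F i) {k l : ℕ} (hk : k < M) (hl : l < M)
    {q : Pt} (h1 : (k : ℝ) ≤ q.1) (h2 : q.1 ≤ k + 1)
    (h3 : q.2 = F k + (q.1 - k) * (F (k + 1) - F k)) (h4 : (l : ℝ) ≤ q.1) (h5 : q.1 ≤ l + 1)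
    (h6 : q.2 = H l + (q.1 - l) * (H (l + 1) - H l)) : False := by
  rcases strips h1 h2 h4 h5 with rfl | ⟨rfl, h⟩ | ⟨rfl, h⟩
  · have a1 := hH k hk.le
    have a2 := hH (k + 1) hk
    have a3 : 0 ≤ q.1 - k := by linarith
    have a4 : 0 ≤ k + 1 - q.1 := by linarith
    have a5 : (k + 1 - q.1) * (F k - H k) + (q.1 - k) * (F (k + 1) - H (k + 1)) = 0 := by
      linear_combination h6 - h3
    have a6 : 0 ≤ (k + 1 - q.1) * (F k - H k) := mul_nonneg a4 (by linarith)
    have a7 : 0 ≤ (q.1 - k) * (F (k + 1) - H (k + 1)) := mul_nonneg a3 (by linarith)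
    rcases eq_or_lt_of_le a3 with a8 | a8
    · have a9 : 0 < (k + 1 - q.1) * (F k - H k) := mul_pos (by linarith) (by linarith)
      linarith
    · have a9 : 0 < (q.1 - k) * (F (k + 1) - H (k + 1)) := mul_pos a8 (by linarith)
      linarith
  · have a2 := hH (k + 1) hk
    rw [h] at h3 h6
    push_cast at h6
    ring_nf at h3 h6 a2
    linarith
  · have a2 := hH (l + 1) hl
    rw [h] at h3 h6
    push_cast at h3 h6
    ring_nf at h3 h6 a2
    linarith

theorem one_side (F H : ℕ → ℝ) (M : ℕ) (hM : 1 ≤ M) (hH : ∀ i ≤ M, H i < F i)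
    (i j : Fin (2 * M + 2)) (hij : i ≠ j) (q : Pt) (hi : q ∈ edge (vtx F H M) i)
    (hj : q ∈ edge (vtx F H M) j) : q = vtx F H M i ∨ q = vtx F H M (nxt i) := by
  have hij' : i.1 ≠ j.1 := fun h => hij (Fin.ext h)
  have hMr : (1 : ℝ) ≤ M := by exact_mod_cast hM
  rcases mem_edge F H M hM hH i q hi with ⟨k, hk, ik, v1, v2, a1, a2, a3⟩ | ⟨ik, v1, v2, a1, a2, a3⟩ |
    ⟨k, hk, ik, v1, v2, a1, a2, a3⟩ | ⟨ik, v1, v2, a1, a2, a3⟩ <;>
  rcases mem_edge F H M hM hH j q hj with ⟨l, hl, jl, w1, w2, b1, b2, b3⟩ | ⟨jl, w1, w2, b1, b2, b3⟩ |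
    ⟨l, hl, jl, w1, w2, b1, b2, b3⟩ | ⟨jl, w1, w2, b1, b2, b3⟩ <;> rw [v1, v2]
  · -- A A
    rcases strips a1 a2 b1 b2 with rfl | ⟨rfl, h⟩ | ⟨rfl, h⟩
    · exact absurd (ik.trans jl.symm) hij'
    · right
      refine eq_pt (by rw [h]; push_cast; rfl) ?_
      rw [a3, h]; ring
    · left
      refine eq_pt h ?_
      rw [a3, h]; ring
  · -- A R
    right
    have h1 : k + 1 = M := by
      have : (M : ℝ) ≤ ((k + 1 : ℕ) : ℝ) := by push_cast; linarith
      have : M ≤ k + 1 := by exact_mod_cast this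
      omega
    have h2 : q.1 = k + 1 := by rw [b1, ← h1]; push_cast; rfl
    refine eq_pt (by rw [h2]; push_cast; rfl) ?_
    rw [a3, h2]; ring
  · -- A B
    exact (up_low F H M hH hk hl a1 a2 a3 b1 b2 b3).elim
  · -- A L
    left
    have h1 : k = 0 := by
      have : (k : ℝ) ≤ 0 := by linarith
      exact_mod_cast le_antisymm this (Nat.cast_nonneg k)
    subst h1
    refine eq_pt (by rw [b1]; norm_num) ?_
    rw [a3, b1]; norm_num
  · -- R A
    left
    have h1 : l + 1 = M := by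
      have : (M : ℝ) ≤ ((l + 1 : ℕ) : ℝ) := by push_cast; linarith
      have : M ≤ l + 1 := by exact_mod_cast this
      omega
    have h2 : q.1 = l + 1 := by rw [a1, ← h1]; push_cast; rfl
    refine eq_pt a1 ?_
    rw [b3, h2, ← h1]; ring
  · -- R R
    exact absurd (ik.trans jl.symm) hij'
  · -- R B
    right
    have h1 : l + 1 = M := by
      have : (M : ℝ) ≤ ((l + 1 : ℕ) : ℝ) := by push_cast; linarith
      have : M ≤ l + 1 := by exact_mod_cast this
      omega
    have h2 : q.1 = l + 1 := by rw [a1, ← h1]; push_cast; rfl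
    refine eq_pt a1 ?_
    rw [b3, h2, ← h1]; ring
  · -- R L
    exfalso
    rw [a1] at b1
    linarith
  · -- B A
    exact (up_low F H M hH hl hk b1 b2 b3 a1 a2 a3).elim
  · -- B R
    left
    have h1 : k + 1 = M := by
      have : (M : ℝ) ≤ ((k + 1 : ℕ) : ℝ) := by push_cast; linarith
      have : M ≤ k + 1 := by exact_mod_cast this
      omega
    have h2 : q.1 = k + 1 := by rw [b1, ← h1]; push_cast; rfl
    refine eq_pt (by rw [h2]; push_cast; rfl) ?_
    rw [a3, h2]; ring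
  · -- B B
    rcases strips a1 a2 b1 b2 with rfl | ⟨rfl, h⟩ | ⟨rfl, h⟩
    · exact absurd (by omega) hij'
    · left
      refine eq_pt (by rw [h]; push_cast; rfl) ?_
      rw [a3, h]; ring
    · right
      refine eq_pt h ?_
      rw [a3, h]; ring
  · -- B L
    right
    have h1 : k = 0 := by
      have : (k : ℝ) ≤ 0 := by linarith
      exact_mod_cast le_antisymm this (Nat.cast_nonneg k)
    subst h1
    refine eq_pt (by rw [b1]; norm_num) ?_
    rw [a3, b1]; norm_num
  · -- L A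
    right
    have h1 : l = 0 := by
      have : (l : ℝ) ≤ 0 := by linarith
      exact_mod_cast le_antisymm this (Nat.cast_nonneg l)
    subst h1
    refine eq_pt (by rw [a1]; norm_num) ?_
    rw [b3, a1]; norm_num
  · -- L R
    exfalso
    rw [b1] at a1
    linarith
  · -- L B
    left
    have h1 : l = 0 := by
      have : (l : ℝ) ≤ 0 := by linarith
      exact_mod_cast le_antisymm this (Nat.cast_nonneg l)
    subst h1
    refine eq_pt (by rw [a1]; norm_num) ?_
    rw [b3, a1]; norm_num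
  · -- L L
    exact absurd (ik.trans jl.symm) hij'

theorem vtx_inj (F H : ℕ → ℝ) (M : ℕ) (hH : ∀ i ≤ M, H i < F i) :
    Function.Injective (vtx F H M) := by
  rintro ⟨i, hi⟩ ⟨j, hj⟩ h
  apply Fin.ext
  simp only [vtx] at h
  by_cases h1 : i ≤ M <;> by_cases h2 : j ≤ M
  · rw [if_pos h1, if_pos h2] at h
    have := congrArg Prod.fst h
    simp only [pt] at this
    exact_mod_cast this
  · rw [if_pos h1, if_neg h2] at h
    have e1 := congrArg Prod.fst h
    have e2 := congrArg Prod.snd h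
    simp only [pt] at e1 e2
    have e3 : i = 2 * M + 1 - j := by exact_mod_cast e1
    rw [← e3] at e2
    exact absurd e2 (ne_of_gt (hH i h1))
  · rw [if_neg h1, if_pos h2] at h
    have e1 := congrArg Prod.fst h
    have e2 := congrArg Prod.snd h
    simp only [pt] at e1 e2
    have e3 : 2 * M + 1 - i = j := by exact_mod_cast e1
    rw [e3] at e2
    exact absurd e2 (ne_of_lt (hH j h2))
  · rw [if_neg h1, if_neg h2] at h
    have e1 := congrArg Prod.fst h
    simp only [pt] at e1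
    have e3 : 2 * M + 1 - i = 2 * M + 1 - j := by exact_mod_cast e1
    show i = j
    omega

theorem simple : SimpleStmt := by
  intro F H M hM hH
  refine ⟨vtx_inj F H M hH, fun i j hij => ?_⟩
  apply Set.Subset.antisymm
  · rintro q ⟨hi, hj⟩
    exact ⟨by simpa using one_side F H M hM hH i j hij q hi hj,
      by simpa using one_side F H M hM hH j i hij.symm q hj hi⟩
  · rintro q ⟨hi, hj⟩
    refine ⟨?_, ?_⟩
    · rcases hi with rfl | rfl
      · exact left_mem_segment ℝ _ _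
      · exact right_mem_segment ℝ _ _
    · rcases hj with rfl | rfl
      · exact left_mem_segment ℝ _ _
      · exact right_mem_segment ℝ _ _

end Pool.Agent.R98.FL
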